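import Pool.Agent.Reg4.Setup

set_option autoImplicit false

namespace Pool.Agent.Reg4

open scoped commutatorElement

/-- Theorem A: for `u, v` inverted by `φ ^ 2` and `V = ⟨v, φ v⟩`, the group `[V, V ^ u]` commutes
with `V` and `V ^ u`. -/
def ThmA {G : Type*} [Group G] (φ : MulAut G) : Prop :=
  ∀ u v : G, φ (φ u) = u⁻¹ → φ (φ v) = v⁻¹ →
    ∀ r ∈ Subgroup.closure {v, φ v}, ∀ s ∈ Subgroup.closure {v, φ v},
      ∀ t ∈ Subgroup.closure {v, φ v},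
        Commute ⁅r, u * s * u⁻¹⁆ t ∧ Commute ⁅r, u * s * u⁻¹⁆ (u * t * u⁻¹)

/-- Theorem B: `[V, V ^ u]` is central in `⟨u, φ u, v, φ v⟩`. -/
def ThmB {G : Type*} [Group G] (φ : MulAut G) : Prop :=
  ∀ u v : G, φ (φ u) = u⁻¹ → φ (φ v) = v⁻¹ →
    ∀ r ∈ Subgroup.closure {v, φ v}, ∀ s ∈ Subgroup.closure {v, φ v},
        Commute ⁅r, u * s * u⁻¹⁆ u ∧ Commute ⁅r, u * s * u⁻¹⁆ (φ u) ∧
        Commute ⁅r, u * s * u⁻¹⁆ v ∧ Commute ⁅r, u * s * u⁻¹⁆ (φ v)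

end Pool.Agent.Reg4
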