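import Pool.Agent.Reg4.PartD
import Pool.Agent.Reg4.Iface

set_option autoImplicit false

namespace Pool.Agent.Reg4

open scoped commutatorElement

section
variable {G : Type*} [Group G] {φ : MulAut G}

/-- the subgroup `⟨u, φ u⟩`. -/
def UU (φ : MulAut G) (u : G) : Subgroup G := Subgroup.closure {u, φ u}

theorem mem_UU_self (u : G) : u ∈ UU φ u := Subgroup.subset_closure (by simp)

theorem phi_mem_UU_self (u : G) : φ u ∈ UU φ u := Subgroup.subset_closure (by simp)

theorem UU_comm_self (h : Setup φ) {u : G} (hu : u ∈ Iset φ) : u * φ u = φ u * u := by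
  have h1 := h.split u
  rw [mem_Iset] at hu
  rw [hu, map_inv] at h1
  have h2 : u * φ u * (φ u * u)⁻¹ = 1 := by rw [← h1]; group
  exact mul_inv_eq_one.mp h2

theorem UU_comm (h : Setup φ) {u : G} (hu : u ∈ Iset φ) {a b : G} (ha : a ∈ UU φ u)
    (hb : b ∈ UU φ u) : a * b = b * a := by
  have h1 : UU φ u ≤ Subgroup.centralizer (UU φ u : Set G) := by
    unfold UU
    rw [Subgroup.centralizer_closure, Subgroup.closure_le]
    rintro x (rfl | rfl)
    · show x ∈ Subgroup.centralizer _
      rw [Subgroup.mem_centralizer_iff]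
      rintro y (rfl | rfl)
      · rfl
      · exact (UU_comm_self h hu).symm
    · show _ ∈ Subgroup.centralizer _
      rw [Subgroup.mem_centralizer_iff]
      rintro y (rfl | rfl)
      · exact UU_comm_self h hu
      · rfl
  exact (Subgroup.mem_centralizer_iff.mp (h1 ha) b hb).symm

theorem UU_sub_I (h : Setup φ) {u : G} (hu : u ∈ Iset φ) {a : G} (ha : a ∈ UU φ u) :
    a ∈ Iset φ := by
  have ha' := ha
  unfold UU at ha'
  induction ha' using Subgroup.closure_induction with
  | mem x hx =>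
    rcases hx with rfl | rfl
    · exact hu
    · exact Iset_phi hu
  | one => exact Iset_one
  | mul x y hx hy h1 h2 =>
    have h3 := h1 hx
    have h4 := h2 hy
    rw [mem_Iset] at *
    rw [map_mul, map_mul, h3, h4, ← mul_inv_rev, UU_comm h hu hx hy]
  | inv x hx h1 => exact Iset_inv (h1 hx)

theorem phi_mem_UU {u : G} (hu : u ∈ Iset φ) {a : G} (ha : a ∈ UU φ u) : φ a ∈ UU φ u := by
  unfold UU at ha
  induction ha using Subgroup.closure_induction with
  | mem x hx =>
    rcases hx with rfl | rfl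
    · exact phi_mem_UU_self _
    · rw [mem_Iset] at hu
      rw [hu]; exact inv_mem (mem_UU_self _)
  | one => rw [map_one]; exact one_mem _
  | mul x y _ _ h1 h2 => rw [map_mul]; exact mul_mem h1 h2
  | inv x _ h1 => rw [map_inv]; exact inv_mem h1

/-- the splitting relation `s h s' h' = h' s' h s`. -/
theorem rel (h : Setup φ) {s k : G} (hs : s ∈ Iset φ) (hk : k ∈ Iset φ) :
    s * k * φ s * φ k = φ k * φ s * k * s := by
  have h1 := h.split (s * k)
  rw [mem_Iset] at hs hk
  simp only [map_mul, map_inv, hs, hk] at h1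
  have h2 : s * k * φ s * φ k * (φ k * φ s * k * s)⁻¹ = 1 := by rw [← h1]; group
  exact mul_inv_eq_one.mp h2

/-- relation (R): `s_x s'_{xk} = s'_{xk'} s_{xkk'}`. -/
theorem relR (h : Setup φ) {s k : G} (hs : s ∈ Iset φ) (hk : k ∈ Iset φ) (x : G) :
    (x * s * x⁻¹) * (x * k * φ s * (x * k)⁻¹) =
      (x * φ k * φ s * (x * φ k)⁻¹) * (x * k * φ k * s * (x * k * φ k)⁻¹) := by
  have h1 := rel h hs hk
  have h2 := UU_comm_self h hk
  calc (x * s * x⁻¹) * (x * k * φ s * (x * k)⁻¹)
      = x * (s * k * φ s * φ k) * (k * φ k)⁻¹ * x⁻¹ := by group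
    _ = x * (φ k * φ s * k * s) * (k * φ k)⁻¹ * x⁻¹ := by rw [h1]
    _ = (x * φ k * φ s * (x * φ k)⁻¹) * (x * (φ k * k) * s * (x * (k * φ k))⁻¹) := by group
    _ = _ := by rw [← h2]; group

theorem pow_mem_of_sq (h : Setup φ) {S : Subgroup G} {x : G} (hx : x * x ∈ S) : x ∈ S := by
  obtain ⟨n, hn⟩ := h.odd x
  have : x = (x * x) ^ (n + 1) := by
    rw [← pow_two, ← pow_mul, show 2 * (n + 1) = (2 * n + 1) + 1 by ring, pow_succ, hn, one_mul]
  rw [this]
  exact pow_mem hx _

end

end Pool.Agent.Reg4
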