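import Mathlib

/-!
Fields of commuting groups over a Gaussian lattice: the combinatorial heart of the proof that
periodic groups with a regular automorphism of order four are locally finite.
-/

set_option autoImplicit false

namespace Pool.Agent.Reg4L

structure Lat (U V G : Type*) [AddCommGroup U] [CommGroup V] [Group G] where
  v : U → V →* G
  J : U →+ U
  K : V →* V
  JJ : ∀ x, J (J x) = -x
  KK : ∀ s, K (K s) = s⁻¹
  R : ∀ x h s, v x s * v (x + h) (K s) = v (x + J h) (K s) * v (x + h + J h) s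
  sqV : ∀ s : V, ∃ t : V, s = t * t
  sqU : ∀ x : U, ∃ y : U, x = y + J y

variable {U V G : Type*} [AddCommGroup U] [CommGroup V] [Group G]

namespace Lat

variable (L : Lat U V G)

/-- the mirror image -/
def mirror : Lat U V G where
  v := L.v
  J := -L.J
  K := L.K⁻¹
  JJ := by
    intro x
    simp [L.JJ]
  KK := by
    intro s
    simp [L.KK]
  R := by
    intro x h s
    have h1 := L.R x (-(L.J h)) s⁻¹
    simp only [map_neg, L.JJ, neg_neg] at h1
    -- h1 : v x s⁻¹ * v (x - J h) (K s⁻¹) = v (x + h) (K s⁻¹) * v (x - J h + h) s⁻¹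
    have h2 := congrArg (fun g => g⁻¹) h1
    simp only [mul_inv_rev, map_inv, inv_inv] at h2
    -- h2 : v (x - Jh) (K s) * v x s = v (x - J h + h) s * v (x+h) (K s)
    have e : x + -(L.J h) + h = x + h + -(L.J h) := by abel
    rw [e] at h2
    simp only [AddMonoidHom.neg_apply, MonoidHom.inv_apply, map_inv]
    calc L.v x s * (L.v (x + h) (L.K s))⁻¹
        = (L.v (x + -(L.J h)) (L.K s))⁻¹ *
            (L.v (x + -(L.J h)) (L.K s) * L.v x s) * (L.v (x + h) (L.K s))⁻¹ := by group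
      _ = (L.v (x + -(L.J h)) (L.K s))⁻¹ * L.v (x + h + -(L.J h)) s := by rw [h2]; group
  sqV := L.sqV
  sqU := by
    intro x
    obtain ⟨y, hy⟩ := L.sqU (L.J x)
    refine ⟨y, ?_⟩
    have h1 : L.J (L.J x) = L.J y + L.J (L.J y) := by rw [← map_add, ← hy]
    rw [L.JJ, L.JJ] at h1
    simp only [AddMonoidHom.neg_apply]
    have : x = -(L.J y + -y) := by rw [← h1]; simp
    rw [this]; abel

@[simp] lemma mirror_v : L.mirror.v = L.v := rfl
@[simp] lemma mirror_J (x : U) : L.mirror.J x = -(L.J x) := rfl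
@[simp] lemma mirror_K (s : V) : L.mirror.K s = (L.K s)⁻¹ := rfl

/-- generators of the groups `H` -/
def X (x h : U) (s : V) : G := L.v x s * L.v (x + h) (L.K s)

lemma X_eq (x h : U) (s : V) : L.X x h s = L.v (x + L.J h) (L.K s) * L.v (x + h + L.J h) s :=
  L.R x h s

def H (x h : U) : Subgroup G := Subgroup.closure (Set.range (L.X x h))

lemma X_mem (x h : U) (s : V) : L.X x h s ∈ L.H x h :=
  Subgroup.subset_closure ⟨s, rfl⟩

lemma K_surj (t : V) : L.K (L.K t)⁻¹ = t := by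
  rw [map_inv, L.KK, inv_inv]

lemma vcomm (x : U) (s t : V) : L.v x s * L.v x t = L.v x t * L.v x s := by
  rw [← map_mul, ← map_mul, mul_comm]

/-- the key commutation -/
lemma XX_comm (x h : U) (s r : V) :
    Commute (L.X x h s) (L.X (x + h) (L.J h) r) := by
  obtain ⟨q, rfl⟩ : ∃ q, r = L.K q := ⟨(L.K r)⁻¹, (L.K_surj r).symm⟩
  have hs := L.R x h s
  have hq := L.R x h q
  have hsq := L.R x h (q * s)
  simp only [map_mul] at hsq
  have hM : L.X (x + h) (L.J h) (L.K q) =
      (L.v (x + h + L.J h) q * (L.v (x + h) (L.K q))⁻¹)⁻¹ := by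
    unfold X
    rw [L.KK, map_inv]; group
  rw [hM]
  have hX : L.X x h s = L.v x s * L.v (x + h) (L.K s) := rfl
  rw [hX]
  have cab' := L.vcomm (x + h) (L.K q) (L.K s)
  have ccd := L.vcomm (x + h + L.J h) q s
  generalize L.v x q = a at *
  generalize L.v x s = b at *
  generalize L.v (x + h) (L.K q) = a' at *
  generalize L.v (x + h) (L.K s) = b' at *
  generalize L.v (x + L.J h) (L.K q) = c' at *
  generalize L.v (x + L.J h) (L.K s) = d' at *
  generalize L.v (x + h + L.J h) q = c at *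
  generalize L.v (x + h + L.J h) s = d at *
  have k1 : a * (b * b') * a' = c' * (b * b') * c := by
    calc a * (b * b') * a' = a * b * (b' * a') := by group
      _ = a * b * (a' * b') := by rw [cab']
      _ = c' * d' * (c * d) := hsq
      _ = c' * (d' * d) * c := by rw [ccd]; group
      _ = c' * (b * b') * c := by rw [hs]
  have k3 : c'⁻¹ * a = c * a'⁻¹ := by
    calc c'⁻¹ * a = c'⁻¹ * (a * a') * a'⁻¹ := by group
      _ = c * a'⁻¹ := by rw [hq]; group
  have k4 : (c * a'⁻¹) * (b * b') = (b * b') * (c * a'⁻¹) := by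
    calc (c * a'⁻¹) * (b * b') = c'⁻¹ * (a * (b * b') * a') * a'⁻¹ := by rw [← k3]; group
      _ = (b * b') * (c * a'⁻¹) := by rw [k1]; group
  have : Commute (b * b') (c * a'⁻¹) := k4.symm
  exact this.inv_right

/-- elementwise commutation of `H x h` and `H (x+h) (J h)` -/
lemma HH_comm (x h : U) {a b : G} (ha : a ∈ L.H x h) (hb : b ∈ L.H (x + h) (L.J h)) :
    a * b = b * a := by
  have h1 : L.H x h ≤ Subgroup.centralizer (Set.range (L.X (x + h) (L.J h))) := by
    unfold H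
    rw [Subgroup.closure_le]
    rintro _ ⟨s, rfl⟩
    rw [SetLike.mem_coe, Subgroup.mem_centralizer_iff]
    rintro _ ⟨r, rfl⟩
    exact (L.XX_comm x h s r).symm
  have h2 : L.H (x + h) (L.J h) ≤ Subgroup.centralizer (L.H x h : Set G) := by
    rw [H, Subgroup.closure_le]
    rintro _ ⟨r, rfl⟩
    rw [SetLike.mem_coe, Subgroup.mem_centralizer_iff]
    intro g hg
    have := h1 hg
    rw [Subgroup.mem_centralizer_iff] at this
    exact (this _ ⟨r, rfl⟩).symm
  have := h2 hb
  rw [Subgroup.mem_centralizer_iff] at this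
  exact this a ha

/-- `H` is symmetric -/
lemma H_opp (x h : U) : L.H (x + h + L.J h) (-h) = L.H x h := by
  have key : ∀ s, L.X (x + h + L.J h) (-h) s = (L.X x h s⁻¹)⁻¹ := by
    intro s
    rw [X_eq L x h s⁻¹]
    unfold X
    have e : x + h + L.J h + -h = x + L.J h := by abel
    rw [e]
    simp [mul_inv_rev]
  apply le_antisymm
  · rw [H, Subgroup.closure_le]
    rintro _ ⟨s, rfl⟩
    rw [key]
    exact (L.H x h).inv_mem (L.X_mem _ _ _)
  · rw [H, Subgroup.closure_le]
    rintro _ ⟨s, rfl⟩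
    have := key s⁻¹
    rw [inv_inv] at this
    rw [show L.X x h s = (L.X (x + h + L.J h) (-h) s⁻¹)⁻¹ by rw [this, inv_inv]]
    exact (L.H _ _).inv_mem (L.X_mem _ _ _)

/-- conjugation by `v x r` preserves `H x h` -/
lemma conj0 (x h : U) (r : V) {a : G} (ha : a ∈ L.H x h) :
    L.v x r * a * (L.v x r)⁻¹ ∈ L.H x h := by
  induction ha using Subgroup.closure_induction with
  | mem y hy =>
    obtain ⟨s, rfl⟩ := hy
    have : L.v x r * L.X x h s * (L.v x r)⁻¹ = L.X x h (r * s) * (L.X x h r)⁻¹ := by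
      unfold X
      rw [mul_comm r s, map_mul, map_mul, map_mul, L.vcomm x s r]
      group
    rw [this]
    exact (L.H x h).mul_mem (L.X_mem _ _ _) ((L.H x h).inv_mem (L.X_mem _ _ _))
  | one => simp
  | mul y z _ _ hy hz =>
    have : L.v x r * (y * z) * (L.v x r)⁻¹ =
      (L.v x r * y * (L.v x r)⁻¹) * (L.v x r * z * (L.v x r)⁻¹) := by group
    rw [this]; exact (L.H x h).mul_mem hy hz
  | inv y _ hy =>
    have : L.v x r * y⁻¹ * (L.v x r)⁻¹ = (L.v x r * y * (L.v x r)⁻¹)⁻¹ := by group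
    rw [this]; exact (L.H x h).inv_mem hy

/-- conjugation by `v (x+h) r` preserves `H x h` -/
lemma conj1 (x h : U) (r : V) {a : G} (ha : a ∈ L.H x h) :
    L.v (x + h) r * a * (L.v (x + h) r)⁻¹ ∈ L.H x h := by
  obtain ⟨q, rfl⟩ : ∃ q, r = (L.K q)⁻¹ := ⟨L.K r, by rw [L.KK, inv_inv]⟩
  induction ha using Subgroup.closure_induction with
  | mem y hy =>
    obtain ⟨s, rfl⟩ := hy
    have : L.v (x + h) (L.K q)⁻¹ * L.X x h s * (L.v (x + h) (L.K q)⁻¹)⁻¹ =
        (L.X x h q)⁻¹ * L.X x h (q * s) := by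
      unfold X
      simp only [map_mul, map_inv]
      rw [L.vcomm (x + h) (L.K q) (L.K s)]
      group
    rw [this]
    exact (L.H x h).mul_mem ((L.H x h).inv_mem (L.X_mem _ _ _)) (L.X_mem _ _ _)
  | one => simp
  | mul y z _ _ hy hz =>
    have : L.v (x + h) (L.K q)⁻¹ * (y * z) * (L.v (x + h) (L.K q)⁻¹)⁻¹ =
      (L.v (x + h) (L.K q)⁻¹ * y * (L.v (x + h) (L.K q)⁻¹)⁻¹) *
      (L.v (x + h) (L.K q)⁻¹ * z * (L.v (x + h) (L.K q)⁻¹)⁻¹) := by group
    rw [this]; exact (L.H x h).mul_mem hy hz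
  | inv y _ hy =>
    have : L.v (x + h) (L.K q)⁻¹ * y⁻¹ * (L.v (x + h) (L.K q)⁻¹)⁻¹ =
      (L.v (x + h) (L.K q)⁻¹ * y * (L.v (x + h) (L.K q)⁻¹)⁻¹)⁻¹ := by group
    rw [this]; exact (L.H x h).inv_mem hy

lemma conj2 (x h : U) (r : V) {a : G} (ha : a ∈ L.H x h) :
    L.v (x + h + L.J h) r * a * (L.v (x + h + L.J h) r)⁻¹ ∈ L.H x h := by
  rw [← L.H_opp x h] at ha ⊢
  exact L.conj0 _ _ r ha

lemma conj3 (x h : U) (r : V) {a : G} (ha : a ∈ L.H x h) :
    L.v (x + L.J h) r * a * (L.v (x + L.J h) r)⁻¹ ∈ L.H x h := by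
  rw [← L.H_opp x h] at ha ⊢
  have := L.conj1 (x + h + L.J h) (-h) r ha
  have e : x + h + L.J h + -h = x + L.J h := by abel
  rwa [e] at this

end Lat
end Pool.Agent.Reg4L
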