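import Pool.Agent.Reg4.Lat

set_option autoImplicit false

open scoped commutatorElement

namespace Pool.Agent.Reg4L

variable {G : Type*} [Group G]

/-- `g` acts on `W` as `h`, which normalizes `W` -/
structure Act (W : Subgroup G) (g h : G) : Prop where
  mem : h ∈ Subgroup.normalizer (W : Set G)
  eq : ∀ w ∈ W, g * w * g⁻¹ = h * w * h⁻¹

namespace Act

variable {W : Subgroup G} {g h k g' h' : G}

lemma mem_conj (h1 : h ∈ Subgroup.normalizer (W : Set G)) {w : G} (hw : w ∈ W) :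
    h * w * h⁻¹ ∈ W := (Subgroup.mem_normalizer_iff.1 h1 w).1 hw

lemma mem_conj' (h1 : h ∈ Subgroup.normalizer (W : Set G)) {w : G} (hw : w ∈ W) :
    h⁻¹ * w * h ∈ W := by
  have := mem_conj ((Subgroup.normalizer (W : Set G)).inv_mem h1) hw
  simpa using this

lemma refl (h1 : h ∈ Subgroup.normalizer (W : Set G)) : Act W h h := ⟨h1, fun _ _ => rfl⟩

lemma mul (a : Act W g h) (b : Act W g' h') : Act W (g * g') (h * h') := by
  refine ⟨(Subgroup.normalizer (W : Set G)).mul_mem a.mem b.mem, fun w hw => ?_⟩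
  have h1 : g * g' * w * (g * g')⁻¹ = g * (g' * w * g'⁻¹) * g⁻¹ := by group
  have h2 : h * h' * w * (h * h')⁻¹ = h * (h' * w * h'⁻¹) * h⁻¹ := by group
  rw [h1, h2, b.eq w hw, a.eq _ (mem_conj b.mem hw)]

lemma inv (a : Act W g h) : Act W g⁻¹ h⁻¹ := by
  refine ⟨(Subgroup.normalizer (W : Set G)).inv_mem a.mem, fun w hw => ?_⟩
  have hw' : h⁻¹ * w * h ∈ W := mem_conj' a.mem hw
  have := a.eq _ hw'
  have h1 : h * (h⁻¹ * w * h) * h⁻¹ = w := by group
  rw [h1] at this
  have h2 : g⁻¹ * (g * (h⁻¹ * w * h) * g⁻¹) * g = h⁻¹ * w * h := by group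
  rw [this] at h2
  simpa using h2

lemma trans (a : Act W g h) (b : Act W h k) : Act W g k :=
  ⟨b.mem, fun w hw => (a.eq w hw).trans (b.eq w hw)⟩

lemma memL (a : Act W g h) : g ∈ Subgroup.normalizer (W : Set G) := by
  have b := a.inv
  rw [Subgroup.mem_normalizer_iff]
  intro w
  constructor
  · intro hw
    rw [a.eq w hw]; exact mem_conj a.mem hw
  · intro hw
    have h1 := b.eq _ hw
    have h2 : g⁻¹ * (g * w * g⁻¹) * g⁻¹⁻¹ = w := by group
    rw [h2] at h1
    rw [h1]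
    exact mem_conj b.mem hw

lemma symm (a : Act W g h) : Act W h g := ⟨a.memL, fun w hw => (a.eq w hw).symm⟩

lemma of_eq (a : Act W g h) (e : h = k) : Act W g k := e ▸ a

end Act

/-- commutator subgroup `[A,B]` of two subgroups is normalized by both -/
lemma comm_norm_left (A B : Subgroup G) : A ≤ Subgroup.normalizer ((⁅A, B⁆ : Subgroup G) : Set G) := by
  have key : ∀ a ∈ A, ∀ w ∈ ⁅A, B⁆, a * w * a⁻¹ ∈ ⁅A, B⁆ := by
    intro a ha w hw
    rw [Subgroup.commutator_def] at hw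
    induction hw using Subgroup.closure_induction with
    | mem y hy =>
      obtain ⟨p, hp, q, hq, rfl⟩ := hy
      have : a * ⁅p, q⁆ * a⁻¹ = ⁅a * p, q⁆ * ⁅a, q⁆⁻¹ := by
        simp only [commutatorElement_def]; group
      rw [this]
      exact Subgroup.mul_mem _ (Subgroup.commutator_mem_commutator (A.mul_mem ha hp) hq)
        (Subgroup.inv_mem _ (Subgroup.commutator_mem_commutator ha hq))
    | one => simp
    | mul y z _ _ hy hz =>
      have : a * (y * z) * a⁻¹ = (a * y * a⁻¹) * (a * z * a⁻¹) := by group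
      rw [this]; exact Subgroup.mul_mem _ hy hz
    | inv y _ hy =>
      have : a * y⁻¹ * a⁻¹ = (a * y * a⁻¹)⁻¹ := by group
      rw [this]; exact Subgroup.inv_mem _ hy
  intro a ha
  rw [Subgroup.mem_normalizer_iff]
  intro w
  refine ⟨key a ha w, fun hw => ?_⟩
  have := key a⁻¹ (A.inv_mem ha) _ hw
  have e : a⁻¹ * (a * w * a⁻¹) * a⁻¹⁻¹ = w := by group
  rwa [e] at this

lemma comm_norm_right (A B : Subgroup G) : B ≤ Subgroup.normalizer ((⁅A, B⁆ : Subgroup G) : Set G) := by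
  rw [Subgroup.commutator_comm]
  exact comm_norm_left B A

variable {U V : Type*} [AddCommGroup U] [CommGroup V]

namespace Lat

variable (L : Lat U V G)

/-- `W x y = [V_x, V_y]` -/
def W (x y : U) : Subgroup G := ⁅(L.v x).range, (L.v y).range⁆

@[simp] lemma mirror_W (x y : U) : L.mirror.W x y = L.W x y := rfl

lemma W_comm (x y : U) : L.W x y = L.W y x := Subgroup.commutator_comm _ _

lemma normL (x y : U) (t : V) : L.v x t ∈ Subgroup.normalizer (L.W x y : Set G) :=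
  comm_norm_left _ _ ⟨t, rfl⟩

lemma normR (x y : U) (t : V) : L.v y t ∈ Subgroup.normalizer (L.W x y : Set G) :=
  comm_norm_right _ _ ⟨t, rfl⟩

lemma mem_W (x y : U) (r s : V) : ⁅L.v x r, L.v y s⁆ ∈ L.W x y :=
  Subgroup.commutator_mem_commutator (MonoidHom.mem_range.2 ⟨r, rfl⟩)
    (MonoidHom.mem_range.2 ⟨s, rfl⟩)

lemma W_le_H (x d : U) : L.W x (x + d) ≤ L.H x d := by
  rw [W, Subgroup.commutator_def, Subgroup.closure_le]
  rintro _ ⟨_, ⟨r, rfl⟩, _, ⟨q, rfl⟩, rfl⟩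
  obtain ⟨s, rfl⟩ : ∃ s, q = L.K s := ⟨(L.K q)⁻¹, (L.K_surj q).symm⟩
  have e1 : L.v (x + d) (L.K s) = (L.v x s)⁻¹ * L.X x d s := by unfold X; group
  have e2 : ⁅L.v x r, L.v (x + d) (L.K s)⁆ =
      L.v x s⁻¹ * ((L.v x r * L.X x d s * (L.v x r)⁻¹) * (L.X x d s)⁻¹) * (L.v x s⁻¹)⁻¹ := by
    rw [e1, commutatorElement_def]
    have h1 := L.vcomm x r s⁻¹
    simp only [map_inv] at h1 ⊢
    calc L.v x r * ((L.v x s)⁻¹ * L.X x d s) * (L.v x r)⁻¹ * ((L.v x s)⁻¹ * L.X x d s)⁻¹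
        = (L.v x r * (L.v x s)⁻¹) * L.X x d s * (L.v x r)⁻¹ * ((L.v x s)⁻¹ * L.X x d s)⁻¹ := by
          group
      _ = _ := by rw [h1]; group
  rw [SetLike.mem_coe, e2]
  exact L.conj0 _ _ _ ((L.H x d).mul_mem (L.conj0 _ _ _ (L.X_mem _ _ _))
    ((L.H x d).inv_mem (L.X_mem _ _ _)))

/-- left square fact at `x` -/
lemma actL (x d : U) (t : V) :
    Act (L.W x (x + d)) (L.v (x + L.J d) t) (L.v x (L.K t)⁻¹) := by
  refine ⟨L.normL _ _ _, fun w hw => ?_⟩
  have hH := L.W_le_H x d hw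
  have hX : L.v x (L.K t) * L.v (x + L.J d) t ∈ L.H (x + d) (L.J d) := by
    have := L.X_mem (x + d) (L.J d) t
    rw [L.X_eq, L.JJ] at this
    have e1 : x + d + -d = x := by abel
    have e2 : x + d + L.J d + -d = x + L.J d := by abel
    rwa [e1, e2] at this
  have hc := L.HH_comm x d hH hX
  simp only [map_inv]
  generalize L.v x (L.K t) = a at *
  generalize L.v (x + L.J d) t = b at *
  calc b * w * b⁻¹ = a⁻¹ * ((a * b) * w) * (a*b)⁻¹ * a := by group
    _ = a⁻¹ * w * a⁻¹⁻¹ := by rw [← hc]; group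

/-- left square fact at `x+d` -/
lemma actL' (x d : U) (t : V) :
    Act (L.W x (x + d)) (L.v (x + d + L.J d) t) (L.v (x + d) (L.K t)) := by
  refine ⟨L.normR _ _ _, fun w hw => ?_⟩
  have hH := L.W_le_H x d hw
  have hX : L.v (x + d) (L.K t)⁻¹ * L.v (x + d + L.J d) t ∈ L.H (x + d) (L.J d) := by
    have := L.X_mem (x + d) (L.J d) (L.K t)⁻¹
    rw [X, L.K_surj] at this
    exact this
  have hc := L.HH_comm x d hH hX
  rw [map_inv] at hc
  generalize L.v (x + d) (L.K t) = a at *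
  generalize L.v (x + d + L.J d) t = b at *
  calc b * w * b⁻¹ = a * ((a⁻¹ * b) * w) * (a⁻¹*b)⁻¹ * a⁻¹ := by group
    _ = a * w * a⁻¹ := by rw [← hc]; group

/-- right square fact at `x` -/
lemma actR (x d : U) (t : V) :
    Act (L.W x (x + d)) (L.v (x + -(L.J d)) t) (L.v x (L.K t)) := by
  have := L.mirror.actL x d t
  simpa using this

/-- right square fact at `x + d` -/
lemma actR' (x d : U) (t : V) :
    Act (L.W x (x + d)) (L.v (x + d + -(L.J d)) t) (L.v (x + d) (L.K t)⁻¹) := by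
  have := L.mirror.actL' x d t
  simpa using this

end Lat
end Pool.Agent.Reg4L
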