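import Pool.Agent.Reg4.LatThmA

set_option autoImplicit false

open scoped commutatorElement

namespace Pool.Agent.Reg4L

variable {G : Type*} [Group G] {U V : Type*} [AddCommGroup U] [CommGroup V]

namespace Lat

variable (L : Lat U V G)

/-- `g` commutes with all of `V_y` -/
def Cm (y : U) (g : G) : Prop := ∀ t, Commute (L.v y t) g

lemma cm_of_act {x d y : U} (hact : ∀ t, ∃ k ∈ Subgroup.closure
    (Set.range (L.v x) ∪ Set.range (L.v (x + d))), Act (L.W x (x + d)) (L.v y t) k) (r s : V) :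
    L.Cm y ⁅L.v x r, L.v (x + d) s⁆ := by
  intro t
  obtain ⟨k, hk, hA⟩ := hact t
  have h1 : Commute k ⁅L.v x r, L.v (x + d) s⁆ := by
    clear hA
    induction hk using Subgroup.closure_induction with
    | mem g hg =>
      rcases hg with ⟨p, rfl⟩ | ⟨p, rfl⟩
      · exact (L.thmA x (x + d) r s p).1
      · exact (L.thmA x (x + d) r s p).2
    | one => exact Commute.one_left _
    | mul a b _ _ ha hb => exact ha.mul_left hb
    | inv a _ ha => exact ha.inv_left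
  have h2 := hA.eq _ (L.mem_W x (x + d) r s)
  have h3 : k * ⁅L.v x r, L.v (x + d) s⁆ * k⁻¹ = ⁅L.v x r, L.v (x + d) s⁆ := by
    rw [h1.eq]; group
  rw [h3] at h2
  have h4 : L.v y t * ⁅L.v x r, L.v (x + d) s⁆ = ⁅L.v x r, L.v (x + d) s⁆ * L.v y t := by
    calc L.v y t * ⁅L.v x r, L.v (x + d) s⁆
        = (L.v y t * ⁅L.v x r, L.v (x + d) s⁆ * (L.v y t)⁻¹) * L.v y t := by group
      _ = _ := by rw [h2]
  exact h4

lemma inc0 (x d : U) (p : V) : L.v x p ∈ Subgroup.closure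
    (Set.range (L.v x) ∪ Set.range (L.v (x + d))) :=
  Subgroup.subset_closure (Or.inl ⟨p, rfl⟩)

lemma inc1 (x d : U) (p : V) : L.v (x + d) p ∈ Subgroup.closure
    (Set.range (L.v x) ∪ Set.range (L.v (x + d))) :=
  Subgroup.subset_closure (Or.inr ⟨p, rfl⟩)

lemma cm0 (x y : U) (r s : V) : L.Cm x ⁅L.v x r, L.v y s⁆ := fun t => (L.thmA x y r s t).1
lemma cm1 (x y : U) (r s : V) : L.Cm y ⁅L.v x r, L.v y s⁆ := fun t => (L.thmA x y r s t).2

lemma cmL (x d : U) (r s : V) : L.Cm (x + L.J d) ⁅L.v x r, L.v (x + d) s⁆ :=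
  L.cm_of_act (fun t => ⟨_, L.inc0 x d _, L.actL x d t⟩) r s
lemma cmL' (x d : U) (r s : V) : L.Cm (x + d + L.J d) ⁅L.v x r, L.v (x + d) s⁆ :=
  L.cm_of_act (fun t => ⟨_, L.inc1 x d _, L.actL' x d t⟩) r s
lemma cmR (x d : U) (r s : V) : L.Cm (x + -(L.J d)) ⁅L.v x r, L.v (x + d) s⁆ :=
  L.cm_of_act (fun t => ⟨_, L.inc0 x d _, L.actR x d t⟩) r s
lemma cmR' (x d : U) (r s : V) : L.Cm (x + d + -(L.J d)) ⁅L.v x r, L.v (x + d) s⁆ :=
  L.cm_of_act (fun t => ⟨_, L.inc1 x d _, L.actR' x d t⟩) r s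
lemma cmNeg (x d : U) (r s : V) : L.Cm (x + -d) ⁅L.v x r, L.v (x + d) s⁆ :=
  L.cm_of_act (fun t => ⟨_, Subgroup.mul_mem _ (Subgroup.mul_mem _ (L.inc0 x d _)
    (L.inc1 x d _)) (L.inc0 x d _), L.actNeg x d t⟩) r s
lemma cmDbl (x d : U) (r s : V) : L.Cm (x + d + d) ⁅L.v x r, L.v (x + d) s⁆ :=
  L.cm_of_act (fun t => ⟨_, Subgroup.mul_mem _ (Subgroup.mul_mem _ (L.inc1 x d _)
    (L.inc0 x d _)) (L.inc1 x d _), L.actDbl x d t⟩) r s

/-- if `g` commutes with `V_y` and `V_z` it commutes with their commutators -/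
lemma Cm.comm {y z : U} {g : G} (h1 : L.Cm y g) (h2 : L.Cm z g) (r s : V) :
    Commute ⁅L.v y r, L.v z s⁆ g := by
  rw [commutatorElement_def]
  exact (((h1 r).mul_left (h2 s)).mul_left (h1 r).inv_left).mul_left (h2 s).inv_left

lemma comm_inv_left' (x y : U) (r s : V) :
    ⁅L.v x r⁻¹, L.v y s⁆ = ⁅L.v x r, L.v y s⁆⁻¹ := by
  have h := (L.thmA x y r s r).1.eq
  simp only [commutatorElement_def, map_inv] at h ⊢
  generalize L.v x r = a at *
  generalize L.v y s = b at *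
  calc a⁻¹ * b * a⁻¹⁻¹ * b⁻¹ = a⁻¹ * (a * b * a⁻¹ * b⁻¹)⁻¹ * a := by group
    _ = a⁻¹ * (a * (a * b * a⁻¹ * b⁻¹) * a⁻¹)⁻¹ * a := by rw [h]; group
    _ = (a * b * a⁻¹ * b⁻¹)⁻¹ := by group

lemma comm_inv_right' (x y : U) (r s : V) :
    ⁅L.v x r, L.v y s⁻¹⁆ = ⁅L.v x r, L.v y s⁆⁻¹ := by
  have h := L.comm_inv_left' y x s r
  have e1 : ⁅L.v x r, L.v y s⁻¹⁆ = ⁅L.v y s⁻¹, L.v x r⁆⁻¹ := by rw [commutatorElement_inv]
  have e2 : ⁅L.v x r, L.v y s⁆ = ⁅L.v y s, L.v x r⁆⁻¹ := by rw [commutatorElement_inv]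
  rw [e1, e2, h]

/-- (C0) -/
lemma C0 (x h : U) (r s : V) :
    ⁅L.v x r, L.v (x + h) (L.K s)⁆ =
      ⁅L.v x r, L.v (x + L.J h) (L.K s)⁆ * ⁅L.v x r, L.v (x + h + L.J h) s⁆ := by
  have hR := L.R x h s
  -- v3 commutes with ⁅v0 r, v2 s⁆
  have h3 : Commute (L.v (x + L.J h) (L.K s)) ⁅L.v x r, L.v (x + h + L.J h) s⁆ := by
    rw [L.D1]
    have k1 := L.cmL' (x + h) (L.J h) (L.K r)⁻¹ s (L.K s)
    have e : x + h + L.J h + L.J (L.J h) = x + L.J h := by rw [L.JJ]; abel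
    rw [e] at k1
    exact k1.mul_right (L.cmL x h r (L.K s) (L.K s))
  have h0 := L.cm0 x (x + h) r (L.K s) s
  have hc := L.vcomm x r s
  have h4 := h3.eq
  have h5 := h0.eq
  simp only [commutatorElement_def] at *
  generalize L.v x r = a at *
  generalize L.v x s = b at *
  generalize L.v (x + h) (L.K s) = b' at *
  generalize L.v (x + L.J h) (L.K s) = d' at *
  generalize L.v (x + h + L.J h) s = d at *
  have s1 : a * (b * b') * a⁻¹ * (b * b')⁻¹ = a * b' * a⁻¹ * b'⁻¹ := by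
    calc a * (b * b') * a⁻¹ * (b * b')⁻¹ = (a * b) * b' * a⁻¹ * b'⁻¹ * b⁻¹ := by group
      _ = b * (a * b' * a⁻¹ * b'⁻¹) * b⁻¹ := by rw [hc]; group
      _ = a * b' * a⁻¹ * b'⁻¹ := by rw [h5]; group
  have s2 : a * (d' * d) * a⁻¹ * (d' * d)⁻¹ = a * d' * a⁻¹ * d'⁻¹ * (a * d * a⁻¹ * d⁻¹) := by
    calc a * (d' * d) * a⁻¹ * (d' * d)⁻¹ =
        a * d' * a⁻¹ * d'⁻¹ * (d' * (a * d * a⁻¹ * d⁻¹)) * d'⁻¹ := by group
      _ = _ := by rw [h4]; group
  rw [← s1, hR, s2]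

/-- (T1) -/
lemma T1 (x h : U) (r s : V) :
    ⁅L.v (x + h) (L.K r), L.v (x + h + L.J h) s⁆ = ⁅L.v x r, L.v (x + L.J h) (L.K s)⁆ := by
  have h1 := L.C0 x h r s
  rw [L.D1, ← mul_assoc] at h1
  have h2 : 1 = ⁅L.v x r, L.v (x + L.J h) (L.K s)⁆ *
      ⁅L.v (x + h) (L.K r)⁻¹, L.v (x + h + L.J h) s⁆ := by
    have h3 : 1 * ⁅L.v x r, L.v (x + h) (L.K s)⁆ = ⁅L.v x r, L.v (x + L.J h) (L.K s)⁆ *
      ⁅L.v (x + h) (L.K r)⁻¹, L.v (x + h + L.J h) s⁆ * ⁅L.v x r, L.v (x + h) (L.K s)⁆ := by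
      rw [one_mul]; exact h1
    exact mul_right_cancel h3
  rw [L.comm_inv_left'] at h2
  exact (mul_inv_eq_one.1 h2.symm).symm

end Lat

/-- lattices with the group `U` acting by translation -/
structure LatG (U V G : Type*) [AddCommGroup U] [CommGroup V] [Group G] extends Lat U V G where
  i : U → G
  i_add : ∀ x y, i (x + y) = i x * i y
  tr : ∀ x y s, i x * v y s * (i x)⁻¹ = v (x + y) s
  oddU : ∀ x : U, ∃ n : ℕ, (2 * n + 1) • x = 0
  no2 : ∀ g : G, g * g = 1 → g = 1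

namespace LatG

variable (L : LatG U V G)

lemma i_zero : L.i 0 = 1 := by
  have := L.i_add 0 0
  rw [add_zero] at this
  simpa using this

lemma i_neg (x : U) : L.i (-x) = (L.i x)⁻¹ := by
  have := L.i_add (-x) x
  rw [neg_add_cancel, L.i_zero] at this
  exact eq_inv_of_mul_eq_one_left this.symm

/-- `i` as a hom -/
def ih : Multiplicative U →* G where
  toFun x := L.i x.toAdd
  map_one' := L.i_zero
  map_mul' _ _ := L.i_add _ _

lemma i_zsmul (x : U) (n : ℤ) : L.i (n • x) = L.i x ^ n := by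
  have := map_zpow L.ih (Multiplicative.ofAdd x) n
  exact this

lemma i_comm (x y : U) : L.i x * L.i y = L.i y * L.i x := by
  rw [← L.i_add, ← L.i_add, add_comm]

/-- halving -/
lemma comm_half {x : U} {g : G} (h : Commute (L.i (x + x)) g) : Commute (L.i x) g := by
  obtain ⟨n, hn⟩ := L.oddU x
  have h1 : x = (-(n : ℤ)) • (x + x) := by
    have : (-(n : ℤ)) • (x + x) = x - (2 * n + 1) • x := by module
    rw [this, hn, sub_zero]
  rw [h1, i_zsmul]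
  exact h.zpow_left _

end LatG
end Pool.Agent.Reg4L
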