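import Pool.Agent.Reg4.LatThmB

set_option autoImplicit false

open scoped commutatorElement

namespace Pool.Agent.Reg4L

variable {G : Type*} [Group G] {U V : Type*} [AddCommGroup U] [CommGroup V]

lemma closure_comm {S : Set G} {Z : Subgroup G} (hS : ∀ a ∈ S, ∀ b ∈ S, ⁅a, b⁆ ∈ Z)
    (hZ : ∀ z ∈ Z, ∀ a ∈ Subgroup.closure S, Commute a z) {m n : G}
    (hm : m ∈ Subgroup.closure S) (hn : n ∈ Subgroup.closure S) : ⁅m, n⁆ ∈ Z := by
  have key : ∀ b ∈ Subgroup.closure S, (∀ a ∈ S, ⁅a, b⁆ ∈ Z) →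
      ∀ m ∈ Subgroup.closure S, ⁅m, b⁆ ∈ Z := by
    intro b hb hab m hm
    induction hm using Subgroup.closure_induction with
    | mem a ha => exact hab a ha
    | one => simp
    | mul x y hx hy ihx ihy =>
      have h1 := (hZ _ ihy x hx).eq
      have : ⁅x * y, b⁆ = ⁅y, b⁆ * ⁅x, b⁆ := by
        simp only [commutatorElement_def] at *
        calc x * y * b * (x * y)⁻¹ * b⁻¹ =
            (x * (y * b * y⁻¹ * b⁻¹)) * x⁻¹ * (x * b * x⁻¹ * b⁻¹) := by group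
          _ = _ := by rw [h1]; group
      rw [this]
      exact Z.mul_mem ihy ihx
    | inv x hx ihx =>
      have h1 := (hZ _ ihx x hx).eq
      have : ⁅x⁻¹, b⁆ = ⁅x, b⁆⁻¹ := by
        simp only [commutatorElement_def] at *
        calc x⁻¹ * b * x⁻¹⁻¹ * b⁻¹ = x⁻¹ * (x * b * x⁻¹ * b⁻¹)⁻¹ * x := by group
          _ = x⁻¹ * (x * (x * b * x⁻¹ * b⁻¹) * x⁻¹)⁻¹ * x := by rw [h1]; group
          _ = _ := by group
      rw [this]
      exact Z.inv_mem ihx
  have h1 : ∀ a ∈ S, ∀ m ∈ Subgroup.closure S, ⁅m, a⁆ ∈ Z := fun a ha m hm =>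
    key a (Subgroup.subset_closure ha) (fun b hb => hS b hb a ha) m hm
  refine key n hn (fun a ha => ?_) m hm
  have := Z.inv_mem (h1 a ha n hn)
  rwa [commutatorElement_inv] at this

namespace LatG

variable (L : LatG U V G)

/-- centralizer of everything -/
def Zp : Subgroup G := Subgroup.centralizer (Set.range L.i ∪ Set.range (L.v 0))

lemma mem_Zp {g : G} : g ∈ L.Zp ↔ (∀ x, Commute (L.i x) g) ∧ ∀ s, Commute (L.v 0 s) g := by
  unfold Zp
  rw [Subgroup.mem_centralizer_iff]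
  constructor
  · intro h
    exact ⟨fun x => h _ (Or.inl ⟨x, rfl⟩), fun s => h _ (Or.inr ⟨s, rfl⟩)⟩
  · rintro ⟨h1, h2⟩ _ (⟨x, rfl⟩ | ⟨s, rfl⟩)
    · exact h1 x
    · exact h2 s

lemma v_eq (x : U) (s : V) : L.v x s = L.i x * L.v 0 s * (L.i x)⁻¹ := by
  rw [L.tr, add_zero]

lemma v0_eq (x : U) (s : V) : L.v 0 s = (L.i x)⁻¹ * L.v x s * L.i x := by
  rw [L.v_eq x s]; group

/-- direction `d` generates enough -/
def Good (u d : U) : Prop := ∀ g : G, Commute (L.i d) g → Commute (L.i (L.J d)) g →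
  Commute (L.i u) g ∧ Commute (L.i (L.J u)) g

variable {u : U} (hgen : ∀ x : U, ∃ m n : ℤ, x = m • u + n • L.J u)
include hgen

lemma comm_all {g : G} (h1 : Commute (L.i u) g) (h2 : Commute (L.i (L.J u)) g) (x : U) :
    Commute (L.i x) g := by
  obtain ⟨m, n, rfl⟩ := hgen x
  rw [L.i_add, L.i_zsmul, L.i_zsmul]
  exact (h1.zpow_left m).mul_left (h2.zpow_left n)

lemma pair_Zp {d : U} (hd : L.Good u d) (x : U) (r s : V) :
    ⁅L.v x r, L.v (x + d) s⁆ ∈ L.Zp := by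
  obtain ⟨h1, h2⟩ := L.thmB x d r s
  obtain ⟨h3, h4⟩ := hd _ h1 h2
  have h5 := L.comm_all hgen h3 h4
  rw [mem_Zp]
  refine ⟨h5, fun t => ?_⟩
  rw [L.v0_eq x t]
  exact ((h5 x).inv_left.mul_left (L.cm0 x (x + d) r s t)).mul_left (h5 x)

omit hgen in
lemma good_u : L.Good u u := fun _ h1 h2 => ⟨h1, h2⟩

omit hgen in
lemma Good.neg {d : U} (h : L.Good u d) : L.Good u (-d) := by
  intro g h1 h2
  rw [map_neg, L.i_neg] at h2
  rw [L.i_neg] at h1
  exact h g (by simpa using h1.inv_left) (by simpa using h2.inv_left)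

omit hgen in
lemma Good.J {d : U} (h : L.Good u d) : L.Good u (L.J d) := by
  intro g h1 h2
  rw [L.JJ, L.i_neg] at h2
  exact h g (by simpa using h2.inv_left) h1

omit hgen in
lemma Good.dbl {d : U} (h : L.Good u d) : L.Good u (d + d) := by
  intro g h1 h2
  rw [map_add] at h2
  exact h g (L.comm_half h1) (L.comm_half h2)

omit hgen in
lemma Good.diag {d : U} (h : L.Good u d) : L.Good u (L.J d - d) := by
  intro g h1 h2
  have h3 : L.J (L.J d - d) = -d - L.J d := by rw [map_sub, L.JJ]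
  rw [h3] at h2
  -- (Jd - d) + (-d - Jd) = -(d+d)
  have h4 : Commute (L.i (-(d + d))) g := by
    have e : -(d + d) = (L.J d - d) + (-d - L.J d) := by abel
    rw [e, L.i_add]; exact h1.mul_left h2
  have h5 : Commute (L.i (L.J d + L.J d)) g := by
    have e : L.J d + L.J d = (L.J d - d) + -(-d - L.J d) := by abel
    rw [e, L.i_add, L.i_neg]; exact h1.mul_left h2.inv_left
  rw [L.i_neg] at h4
  have h6 : Commute (L.i (d + d)) g := by simpa using h4.inv_left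
  exact h g (L.comm_half h6) (L.comm_half h5)

/-- generators of `N` -/
def gens (u : U) : Set G :=
  Set.range (L.v 0) ∪ Set.range (L.v u) ∪ Set.range (L.v (L.J u)) ∪ Set.range (L.v (-u))

def N0 (u : U) : Subgroup G := Subgroup.closure (L.gens u)

omit hgen in
lemma mem_gens {g : G} (hg : g ∈ L.gens u) :
    ∃ a s, (a = 0 ∨ a = u ∨ a = L.J u ∨ a = -u) ∧ g = L.v a s := by
  rcases hg with ((⟨s, rfl⟩ | ⟨s, rfl⟩) | ⟨s, rfl⟩) | ⟨s, rfl⟩
  · exact ⟨0, s, Or.inl rfl, rfl⟩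
  · exact ⟨u, s, Or.inr (Or.inl rfl), rfl⟩
  · exact ⟨L.J u, s, Or.inr (Or.inr (Or.inl rfl)), rfl⟩
  · exact ⟨-u, s, Or.inr (Or.inr (Or.inr rfl)), rfl⟩

lemma pair_gen (a b : U) (r s : V) (ha : a = 0 ∨ a = u ∨ a = L.J u ∨ a = -u)
    (hb : b = 0 ∨ b = u ∨ b = L.J u ∨ b = -u) : ⁅L.v a r, L.v b s⁆ ∈ L.Zp := by
  have key : ∀ d : U, L.Good u d → b = a + d → ⁅L.v a r, L.v b s⁆ ∈ L.Zp := by
    intro d hd e
    rw [e]; exact L.pair_Zp hgen hd a r s
  have same : a = b → ⁅L.v a r, L.v b s⁆ ∈ L.Zp := by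
    intro e
    rw [e, commutatorElement_eq_one_iff_mul_comm.2 (L.vcomm b r s)]
    exact L.Zp.one_mem
  have g0 := L.good_u (u := u)
  rcases ha with rfl | rfl | rfl | rfl <;> rcases hb with rfl | rfl | rfl | rfl
  · exact same rfl
  · exact key b g0 (by abel)
  · exact key _ (g0.J L) (by abel)
  · exact key _ (g0.neg L) (by abel)
  · exact key _ (g0.neg L) (by abel)
  · exact same rfl
  · exact key _ (g0.diag L) (by abel)
  · exact key _ ((g0.dbl L).neg L) (by abel)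
  · exact key _ ((g0.J L).neg L) (by abel)
  · exact key _ ((g0.diag L).neg L) (by abel)
  · exact same rfl
  · exact key _ (((g0.J L).diag L)) (by rw [L.JJ]; abel)
  · exact key _ g0 (by abel)
  · exact key _ (g0.dbl L) (by abel)
  · exact key _ (((g0.J L).diag L).neg L) (by rw [L.JJ]; abel)
  · exact same rfl

omit hgen in
lemma gens_mem (a : U) (s : V) (ha : a = 0 ∨ a = u ∨ a = L.J u ∨ a = -u) :
    L.v a s ∈ L.N0 u := by
  apply Subgroup.subset_closure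
  rcases ha with rfl | rfl | rfl | rfl
  · exact Or.inl (Or.inl (Or.inl ⟨s, rfl⟩))
  · exact Or.inl (Or.inl (Or.inr ⟨s, rfl⟩))
  · exact Or.inl (Or.inr ⟨s, rfl⟩)
  · exact Or.inr ⟨s, rfl⟩

omit hgen in
/-- corner rules -/
lemma corner2 {N : Subgroup G} (x h : U) (h0 : ∀ s, L.v x s ∈ N) (h1 : ∀ s, L.v (x + h) s ∈ N)
    (h3 : ∀ s, L.v (x + L.J h) s ∈ N) (s : V) : L.v (x + h + L.J h) s ∈ N := by
  have hR := L.R x h s
  have : L.v (x + h + L.J h) s = (L.v (x + L.J h) (L.K s))⁻¹ * (L.v x s * L.v (x + h) (L.K s)) := by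
    rw [hR]; group
  rw [this]
  exact N.mul_mem (N.inv_mem (h3 _)) (N.mul_mem (h0 _) (h1 _))

omit hgen in
lemma corner3 {N : Subgroup G} (x h : U) (h0 : ∀ s, L.v x s ∈ N) (h1 : ∀ s, L.v (x + h) s ∈ N)
    (h2 : ∀ s, L.v (x + h + L.J h) s ∈ N) (s : V) : L.v (x + L.J h) s ∈ N := by
  obtain ⟨s, rfl⟩ : ∃ q, s = L.K q := ⟨(L.K s)⁻¹, (L.K_surj s).symm⟩
  have hR := L.R x h s
  have : L.v (x + L.J h) (L.K s) = (L.v x s * L.v (x + h) (L.K s)) *
      (L.v (x + h + L.J h) s)⁻¹ := by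
    rw [hR]; group
  rw [this]
  exact N.mul_mem (N.mul_mem (h0 _) (h1 _)) (N.inv_mem (h2 _))

omit hgen in
lemma corner1 {N : Subgroup G} (x h : U) (h0 : ∀ s, L.v x s ∈ N)
    (h2 : ∀ s, L.v (x + h + L.J h) s ∈ N) (h3 : ∀ s, L.v (x + L.J h) s ∈ N) (s : V) :
    L.v (x + h) s ∈ N := by
  obtain ⟨s, rfl⟩ : ∃ q, s = L.K q := ⟨(L.K s)⁻¹, (L.K_surj s).symm⟩
  have hR := L.R x h s
  have : L.v (x + h) (L.K s) = (L.v x s)⁻¹ * (L.v (x + L.J h) (L.K s) *
      L.v (x + h + L.J h) s) := by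
    rw [← hR]; group
  rw [this]
  exact N.mul_mem (N.inv_mem (h0 _)) (N.mul_mem (h3 _) (h2 _))

omit hgen in
lemma corner0 {N : Subgroup G} (x h : U) (h1 : ∀ s, L.v (x + h) s ∈ N)
    (h2 : ∀ s, L.v (x + h + L.J h) s ∈ N) (h3 : ∀ s, L.v (x + L.J h) s ∈ N) (s : V) :
    L.v x s ∈ N := by
  have hR := L.R x h s
  have : L.v x s = (L.v (x + L.J h) (L.K s) * L.v (x + h + L.J h) s) *
      (L.v (x + h) (L.K s))⁻¹ := by
    rw [← hR]; group
  rw [this]
  exact N.mul_mem (N.mul_mem (h3 _) (h2 _)) (N.inv_mem (h1 _))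

omit hgen in
lemma pts (u : U) :
    (∀ s, L.v (u + L.J u) s ∈ L.N0 u) ∧ (∀ s, L.v (L.J u - u) s ∈ L.N0 u) ∧
    (∀ s, L.v (u + u) s ∈ L.N0 u) ∧ (∀ s, L.v (L.J u + L.J u) s ∈ L.N0 u) := by
  have p0 : ∀ s, L.v 0 s ∈ L.N0 u := fun s => L.gens_mem 0 s (Or.inl rfl)
  have p1 : ∀ s, L.v u s ∈ L.N0 u := fun s => L.gens_mem u s (Or.inr (Or.inl rfl))
  have pi : ∀ s, L.v (L.J u) s ∈ L.N0 u := fun s => L.gens_mem _ s (Or.inr (Or.inr (Or.inl rfl)))
  have pm : ∀ s, L.v (-u) s ∈ L.N0 u := fun s => L.gens_mem _ s (Or.inr (Or.inr (Or.inr rfl)))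
  have q1 : ∀ s, L.v (u + L.J u) s ∈ L.N0 u := by
    intro s
    have := L.corner2 0 u p0 (by simpa using p1) (by simpa using pi) s
    simpa using this
  have q2 : ∀ s, L.v (-(L.J u)) s ∈ L.N0 u := by
    intro s
    have := L.corner3 u (L.J u - u) p1
      (by rw [show u + (L.J u - u) = L.J u by abel]; exact pi)
      (by rw [map_sub, L.JJ, show u + (L.J u - u) + (-u - L.J u) = -u by abel]; exact pm) s
    rwa [map_sub, L.JJ, show u + (-u - L.J u) = -(L.J u) by abel] at this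
  have q3 : ∀ s, L.v (L.J u - u) s ∈ L.N0 u := by
    intro s
    have := L.corner2 0 (L.J u) p0 (by simpa using pi) (by rw [L.JJ]; simpa using pm) s
    rwa [L.JJ, show (0 : U) + L.J u + -u = L.J u - u by abel] at this
  have q4 : ∀ s, L.v (u - L.J u) s ∈ L.N0 u := by
    intro s
    have := L.corner2 0 (-(L.J u)) p0 (by simpa using q2)
      (by rw [map_neg, L.JJ]; simpa using p1) s
    rwa [map_neg, L.JJ, neg_neg, show (0 : U) + -(L.J u) + u = u - L.J u by abel] at this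
  have q5 : ∀ s, L.v (u + u) s ∈ L.N0 u := by
    intro s
    refine L.corner0 (u + u) (L.J u - u) ?_ ?_ ?_ s
    · rw [show u + u + (L.J u - u) = u + L.J u by abel]; exact q1
    · rw [map_sub, L.JJ, show u + u + (L.J u - u) + (-u - L.J u) = 0 by abel]; exact p0
    · rw [map_sub, L.JJ, show u + u + (-u - L.J u) = u - L.J u by abel]; exact q4
  have q6 : ∀ s, L.v (L.J u + L.J u) s ∈ L.N0 u := by
    intro s
    have := L.corner1 (u + L.J u) (L.J u - u) q1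
      (by rw [map_sub, L.JJ, show u + L.J u + (L.J u - u) + (-u - L.J u) = L.J u - u by abel]
          exact q3)
      (by rw [map_sub, L.JJ, show u + L.J u + (-u - L.J u) = 0 by abel]; exact p0) s
    rwa [show u + L.J u + (L.J u - u) = L.J u + L.J u by abel] at this
  exact ⟨q1, q3, q5, q6⟩

omit hgen in
lemma conj_u {g : G} (hg : g ∈ L.N0 u) : cj (L.i u) g ∈ L.N0 u := by
  obtain ⟨q1, q3, q5, q6⟩ := L.pts u
  induction hg using Subgroup.closure_induction with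
  | mem g hg =>
    obtain ⟨a, s, ha, rfl⟩ := L.mem_gens hg
    unfold cj
    rw [L.tr]
    rcases ha with rfl | rfl | rfl | rfl
    · rw [add_zero]; exact L.gens_mem u s (Or.inr (Or.inl rfl))
    · exact q5 s
    · exact q1 s
    · rw [add_neg_cancel]; exact L.gens_mem 0 s (Or.inl rfl)
  | one => rw [cj_one]; exact Subgroup.one_mem _
  | mul x y _ _ hx hy => rw [cj_mul]; exact Subgroup.mul_mem _ hx hy
  | inv x _ hx => rw [cj_inv]; exact Subgroup.inv_mem _ hx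

omit hgen in
lemma conj_Ju {g : G} (hg : g ∈ L.N0 u) : cj (L.i (L.J u)) g ∈ L.N0 u := by
  obtain ⟨q1, q3, q5, q6⟩ := L.pts u
  induction hg using Subgroup.closure_induction with
  | mem g hg =>
    obtain ⟨a, s, ha, rfl⟩ := L.mem_gens hg
    unfold cj
    rw [L.tr]
    rcases ha with rfl | rfl | rfl | rfl
    · rw [add_zero]; exact L.gens_mem _ s (Or.inr (Or.inr (Or.inl rfl)))
    · rw [add_comm]; exact q1 s
    · exact q6 s
    · rw [← sub_eq_add_neg]; exact q3 s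
  | one => rw [cj_one]; exact Subgroup.one_mem _
  | mul x y _ _ hx hy => rw [cj_mul]; exact Subgroup.mul_mem _ hx hy
  | inv x _ hx => rw [cj_inv]; exact Subgroup.inv_mem _ hx

omit hgen in
lemma conj_nsmul {x : U} (hx : ∀ g ∈ L.N0 u, cj (L.i x) g ∈ L.N0 u) (n : ℕ) :
    ∀ g ∈ L.N0 u, cj (L.i (n • x)) g ∈ L.N0 u := by
  induction n with
  | zero => intro g hg; rw [zero_smul, L.i_zero, cj_one_left]; exact hg
  | succ n ih =>
    intro g hg
    rw [add_smul, one_smul, L.i_add, cj_mul_left]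
    exact ih _ (hx g hg)

omit hgen in
lemma conj_neg {x : U} (hx : ∀ g ∈ L.N0 u, cj (L.i x) g ∈ L.N0 u) :
    ∀ g ∈ L.N0 u, cj (L.i (-x)) g ∈ L.N0 u := by
  obtain ⟨n, hn⟩ := L.oddU x
  have : -x = (2 * n) • x := by
    rw [add_smul, one_smul] at hn
    exact neg_eq_of_add_eq_zero_left hn
  rw [this]
  exact L.conj_nsmul hx _

omit hgen in
lemma conj_zsmul {x : U} (hx : ∀ g ∈ L.N0 u, cj (L.i x) g ∈ L.N0 u) (n : ℤ) :
    ∀ g ∈ L.N0 u, cj (L.i (n • x)) g ∈ L.N0 u := by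
  obtain ⟨k, rfl | rfl⟩ := n.eq_nat_or_neg
  · rw [natCast_zsmul]; exact L.conj_nsmul hx k
  · rw [neg_smul, natCast_zsmul]; exact L.conj_neg (L.conj_nsmul hx k)

lemma conj_all (x : U) {g : G} (hg : g ∈ L.N0 u) : cj (L.i x) g ∈ L.N0 u := by
  obtain ⟨m, n, rfl⟩ := hgen x
  rw [L.i_add, cj_mul_left]
  exact L.conj_zsmul (fun g hg => L.conj_u hg) m _
    (L.conj_zsmul (fun g hg => L.conj_Ju hg) n g hg)

lemma v_mem_N0 (x : U) (s : V) : L.v x s ∈ L.N0 u := by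
  rw [L.v_eq]
  exact L.conj_all hgen x (L.gens_mem 0 s (Or.inl rfl))

/-- **Theorem N** -/
theorem thmN {m n : G} (hm : m ∈ L.N0 u) (hn : n ∈ L.N0 u) : ⁅m, n⁆ ∈ L.Zp := by
  refine closure_comm (S := L.gens u) ?_ ?_ hm hn
  · intro a ha b hb
    obtain ⟨a', r, ha', rfl⟩ := L.mem_gens ha
    obtain ⟨b', s, hb', rfl⟩ := L.mem_gens hb
    exact L.pair_gen hgen a' b' r s ha' hb'
  · intro z hz a ha
    rw [mem_Zp] at hz
    induction ha using Subgroup.closure_induction with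
    | mem g hg =>
      obtain ⟨a, s, -, rfl⟩ := L.mem_gens hg
      rw [L.v_eq]
      exact ((hz.1 a).mul_left (hz.2 s)).mul_left (hz.1 a).inv_left
    | one => exact Commute.one_left _
    | mul x y _ _ hx hy => exact hx.mul_left hy
    | inv x _ hx => exact hx.inv_left

end LatG
end Pool.Agent.Reg4L
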