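import Pool.Agent.Reg4.LatAct

set_option autoImplicit false

open scoped commutatorElement

namespace Pool.Agent.Reg4L

variable {G : Type*} [Group G] {U V : Type*} [AddCommGroup U] [CommGroup V]

namespace Lat

variable (L : Lat U V G)

/-- `x - d` -/
lemma actNeg (x d : U) (s : V) :
    Act (L.W x (x + d)) (L.v (x + -d) s) (L.v x s * L.v (x + d) s * L.v x s) := by
  have hR := L.R (x + d) (L.J d + -d) s
  rw [map_add, map_neg, L.JJ] at hR
  have e1 : x + d + (L.J d + -d) = x + L.J d := by abel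
  have e2 : x + d + (-d + -(L.J d)) = x + -(L.J d) := by abel
  have e3 : x + L.J d + (-d + -(L.J d)) = x + -d := by abel
  rw [e1, e2, e3] at hR
  have e : L.v (x + -d) s = (L.v (x + -(L.J d)) (L.K s))⁻¹ * L.v (x + d) s *
      L.v (x + L.J d) (L.K s) := by
    rw [mul_assoc, hR]; group
  rw [e]
  have a1 := (L.actR x d (L.K s)).inv
  rw [L.KK, map_inv, inv_inv] at a1
  have a2 := L.actL x d (L.K s)
  rw [L.KK, inv_inv] at a2
  exact (a1.mul (Act.refl (L.normR x (x + d) s))).mul a2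

/-- `x + 2 d` -/
lemma actDbl (x d : U) (s : V) :
    Act (L.W x (x + d)) (L.v (x + d + d) s) (L.v (x + d) s * L.v x s * L.v (x + d) s) := by
  have := L.actNeg (x + d) (-d) s
  have e1 : x + d + -d = x := by abel
  rw [e1, neg_neg, L.W_comm] at this
  exact this

/-- `x - d + J d` -/
lemma actNW (x d : U) (s : V) :
    Act (L.W x (x + d)) (L.v (x + L.J d + -d) s)
      ((L.v x (L.K s) * L.v (x + d) (L.K s) * L.v x (L.K s))⁻¹ * L.v x s * L.v x s) := by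
  have hR := L.R x (L.J d) s
  rw [L.JJ] at hR
  have e : L.v (x + L.J d + -d) s = (L.v (x + -d) (L.K s))⁻¹ * L.v x s *
      L.v (x + L.J d) (L.K s) := by
    rw [mul_assoc, hR]; group
  rw [e]
  have a1 := (L.actNeg x d (L.K s)).inv
  have a2 := L.actL x d (L.K s)
  rw [L.KK, inv_inv] at a2
  exact (a1.mul (Act.refl (L.normL x (x + d) s))).mul a2

/-- `x + 2 d + J d` -/
lemma actNE2 (x d : U) (s : V) :
    Act (L.W x (x + d)) (L.v (x + d + d + L.J d) s)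
      (L.v (x + d) s * L.v (x + d) s *
        (L.v (x + d) (L.K s) * L.v x (L.K s) * L.v (x + d) (L.K s))) := by
  have hR := L.R (x + d) d s
  have e : L.v (x + d + d + L.J d) s = (L.v (x + d + L.J d) (L.K s))⁻¹ * L.v (x + d) s *
      L.v (x + d + d) (L.K s) := by
    rw [mul_assoc, hR]; group
  rw [e]
  have a1 := (L.actL' x d (L.K s)).inv
  rw [L.KK, map_inv, inv_inv] at a1
  exact (a1.mul (Act.refl (L.normR x (x + d) s))).mul (L.actDbl x d (L.K s))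

/-- `x + d + 2 J d` -/
lemma actNNE (x d : U) (s : V) :
    Act (L.W x (x + d)) (L.v (x + d + L.J d + L.J d) (L.K s))
      ((L.v (x + d) s * L.v (x + d) s *
        (L.v (x + d) (L.K s) * L.v x (L.K s) * L.v (x + d) (L.K s)))⁻¹ *
        L.v (x + d) (L.K s) * (L.v x (L.K s))⁻¹) := by
  have hR := L.R (x + d + d + L.J d) (L.J d + -d) s
  rw [map_add, map_neg, L.JJ] at hR
  have e1 : x + d + d + L.J d + (L.J d + -d) = x + d + L.J d + L.J d := by abel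
  have e2 : x + d + d + L.J d + (-d + -(L.J d)) = x + d := by abel
  have e3 : x + d + L.J d + L.J d + (-d + -(L.J d)) = x + L.J d := by abel
  rw [e1, e2, e3] at hR
  have e : L.v (x + d + L.J d + L.J d) (L.K s) = (L.v (x + d + d + L.J d) s)⁻¹ *
      L.v (x + d) (L.K s) * L.v (x + L.J d) s := by
    rw [mul_assoc, ← hR]; group
  rw [e]
  have a2 := L.actL x d s
  rw [map_inv] at a2
  exact ((L.actNE2 x d s).inv.mul (Act.refl (L.normR x (x + d) (L.K s)))).mul a2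

/-- second half of the square: `m = v2 s * (v1 (K s))⁻¹` lies in the second `H` -/
lemma M_mem (x h : U) (s : V) :
    L.v (x + h + L.J h) s * (L.v (x + h) (L.K s))⁻¹ ∈ L.H (x + h) (L.J h) := by
  have : L.v (x + h + L.J h) s * (L.v (x + h) (L.K s))⁻¹ = (L.X (x + h) (L.J h) (L.K s))⁻¹ := by
    unfold X
    rw [L.KK, map_inv]; group
  rw [this]
  exact (L.H _ _).inv_mem (L.X_mem _ _ _)

/-- (D1) -/
lemma D1 (x h : U) (r s : V) :
    ⁅L.v x r, L.v (x + h + L.J h) s⁆ =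
      ⁅L.v (x + h) (L.K r)⁻¹, L.v (x + h + L.J h) s⁆ * ⁅L.v x r, L.v (x + h) (L.K s)⁆ := by
  have he : ⁅L.v x r, L.v (x + h) (L.K s)⁆ ∈ L.H x h := L.W_le_H _ _ (L.mem_W _ _ _ _)
  have hm := L.M_mem x h s
  have hX := L.X_mem x h r
  have hf : ⁅L.v (x + h) (L.K r)⁻¹, L.v (x + h + L.J h) s * (L.v (x + h) (L.K s))⁻¹⁆ ∈
      L.H (x + h) (L.J h) := by
    rw [commutatorElement_def]
    exact Subgroup.mul_mem _ (L.conj0 _ _ _ hm) (Subgroup.inv_mem _ hm)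
  have c1 := L.HH_comm x h he hm
  have c2 := L.HH_comm x h hX hf
  have c3 := L.HH_comm x h hX hm
  have cab := L.vcomm (x + h) (L.K r) (L.K s)
  unfold X at c2 c3
  simp only [map_inv, commutatorElement_def] at *
  generalize L.v x r = a at *
  generalize L.v (x + h) (L.K r) = a' at *
  generalize L.v (x + h) (L.K s) = b' at *
  generalize L.v (x + h + L.J h) s = y at *
  -- m = y * b'⁻¹, X = a * a'
  have s1 : a * y * a⁻¹ * y⁻¹ =
      a * (y * b'⁻¹) * a⁻¹ * (y * b'⁻¹)⁻¹ * ((y * b'⁻¹) * (a * b' * a⁻¹ * b'⁻¹) * (y * b'⁻¹)⁻¹) := by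
    group
  have s2 : (y * b'⁻¹) * (a * b' * a⁻¹ * b'⁻¹) * (y * b'⁻¹)⁻¹ = a * b' * a⁻¹ * b'⁻¹ := by
    rw [← c1]; group
  have s3 : a * (y * b'⁻¹) * a⁻¹ * (y * b'⁻¹)⁻¹ =
      (a * a') * (a'⁻¹ * (y * b'⁻¹) * a'⁻¹⁻¹ * (y * b'⁻¹)⁻¹) * (a * a')⁻¹ *
        ((a * a') * (y * b'⁻¹) * (a * a')⁻¹ * (y * b'⁻¹)⁻¹) := by
    group
  have s4 : (a * a') * (a'⁻¹ * (y * b'⁻¹) * a'⁻¹⁻¹ * (y * b'⁻¹)⁻¹) * (a * a')⁻¹ =
      a'⁻¹ * (y * b'⁻¹) * a'⁻¹⁻¹ * (y * b'⁻¹)⁻¹ := by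
    rw [c2]; group
  have s5 : (a * a') * (y * b'⁻¹) * (a * a')⁻¹ * (y * b'⁻¹)⁻¹ = 1 := by
    rw [c3]; group
  have s6 : a'⁻¹ * (y * b'⁻¹) * a'⁻¹⁻¹ * (y * b'⁻¹)⁻¹ = a'⁻¹ * y * a'⁻¹⁻¹ * y⁻¹ := by
    have : b'⁻¹ * a' * b' = a' := by rw [mul_assoc, cab]; group
    calc a'⁻¹ * (y * b'⁻¹) * a'⁻¹⁻¹ * (y * b'⁻¹)⁻¹ = a'⁻¹ * y * (b'⁻¹ * a' * b') * y⁻¹ := by group
      _ = _ := by rw [this]; group
  rw [s1, s2, s3, s4, s5, s6, mul_one]

lemma W12_le (x h : U) : L.W (x + h) (x + h + L.J h) ≤ L.H (x + h) (L.J h) := L.W_le_H _ _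

end Lat
end Pool.Agent.Reg4L
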