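import Pool.Agent.Reg4.LatZ

set_option autoImplicit false

open scoped commutatorElement

namespace Pool.Agent.Reg4L

variable {G : Type*} [Group G] {U V : Type*} [AddCommGroup U] [CommGroup V]

namespace Lat

variable (L : Lat U V G)

/-- induction principle for `W` -/
lemma W_induction {x y : U} {p : G → Prop} (hgen : ∀ r s, p ⁅L.v x r, L.v y s⁆)
    (h1 : p 1) (hmul : ∀ a b, a ∈ L.W x y → b ∈ L.W x y → p a → p b → p (a * b))
    (hinv : ∀ a, a ∈ L.W x y → p a → p a⁻¹) {w : G} (hw : w ∈ L.W x y) : p w := by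
  unfold W at hw
  rw [Subgroup.commutator_def] at hw
  induction hw using Subgroup.closure_induction with
  | mem y hy =>
    obtain ⟨p, hp, q, hq, rfl⟩ := hy
    obtain ⟨r, rfl⟩ := MonoidHom.mem_range.1 hp
    obtain ⟨s, rfl⟩ := MonoidHom.mem_range.1 hq
    exact hgen r s
  | one => exact h1
  | mul y z hy' hz' hy hz =>
    exact hmul y z (by unfold W; rw [Subgroup.commutator_def]; exact hy')
      (by unfold W; rw [Subgroup.commutator_def]; exact hz') hy hz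
  | inv y hy' hy =>
    exact hinv y (by unfold W; rw [Subgroup.commutator_def]; exact hy') hy

/-- solve (F1)-type equations modulo `Z` -/
lemma split_eq {x h : U} {a1 b1 a2 b2 : G} (ha1 : a1 ∈ L.W (x + h) (x + h + L.J h))
    (ha2 : a2 ∈ L.W (x + h) (x + h + L.J h)) (hb1 : b1 ∈ L.W x (x + h))
    (hb2 : b2 ∈ L.W x (x + h)) (he : a1 * b1 = a2 * b2) : L.EqZ x h b2 b1 := by
  have h1 : b2 * b1⁻¹ = a2⁻¹ * a1 := by
    calc b2 * b1⁻¹ = a2⁻¹ * (a2 * b2) * b1⁻¹ := by group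
      _ = a2⁻¹ * a1 := by rw [← he]; group
  refine ⟨(L.H x h).mul_mem (L.W_le_H _ _ hb2) ((L.H x h).inv_mem (L.W_le_H _ _ hb1)), ?_⟩
  rw [h1]
  exact Subgroup.mul_mem _ (Subgroup.inv_mem _ (L.W12_le _ _ ha2)) (L.W12_le _ _ ha1)

lemma Qgen (x h : U) (r s t : V) :
    L.EqZ x h (cj (L.v x t) ⁅L.v x r, L.v (x + h) s⁆)
      (cj (L.v (x + h) t⁻¹) ⁅L.v x r, L.v (x + h) s⁆) := by
  obtain ⟨t, rfl⟩ : ∃ q, t = L.K q := ⟨(L.K t)⁻¹, (L.K_surj t).symm⟩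
  obtain ⟨s, rfl⟩ : ∃ q, s = L.K q := ⟨(L.K s)⁻¹, (L.K_surj s).symm⟩
  have hf := L.mem_W (x + h) (x + h + L.J h) (L.K r)⁻¹ s
  have he := L.mem_W x (x + h) r (L.K s)
  have e := L.F1 x h r s t
  refine L.split_eq ?_ ?_ ?_ ?_ e
  · rw [cj_mul_left, cj_mul_left]
    exact L.cjL _ (L.cjR _ (L.cjL _ hf))
  · exact L.cjL _ hf
  · exact L.cjR _ he
  · exact L.cjL _ he

lemma Q (x h : U) (t : V) {w : G} (hw : w ∈ L.W x (x + h)) :
    L.EqZ x h (cj (L.v x t) w) (cj (L.v (x + h) t⁻¹) w) := by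
  refine L.W_induction (p := fun w => L.EqZ x h (cj (L.v x t) w) (cj (L.v (x + h) t⁻¹) w))
    ?_ ?_ ?_ ?_ hw
  · intro r s; exact L.Qgen x h r s t
  · simp only [cj_one]; exact EqZ.refl _
  · intro a b ha hb h1 h2
    rw [cj_mul, cj_mul]
    exact EqZ.mul (L.W_le_H _ _ (L.cjR _ ha)) h1 h2
  · intro a ha h1
    rw [cj_inv, cj_inv]
    exact EqZ.inv (L.W_le_H _ _ (L.cjR _ ha)) h1

lemma A0gen (x h : U) (r s t : V) :
    L.EqZ x h (cj (L.v x t) ⁅L.v x r, L.v (x + h) s⁆) ⁅L.v x r, L.v (x + h) s⁆ := by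
  obtain ⟨p, rfl⟩ := L.sqV t
  obtain ⟨q, rfl⟩ : ∃ q, p = L.K q := ⟨(L.K p)⁻¹, (L.K_surj p).symm⟩
  obtain ⟨s, rfl⟩ : ∃ q, s = L.K q := ⟨(L.K s)⁻¹, (L.K_surj s).symm⟩
  have hf := L.mem_W (x + h) (x + h + L.J h) (L.K r)⁻¹ s
  have he := L.mem_W x (x + h) r (L.K s)
  have e := L.F2 x h r s q
  have hE : L.EqZ x h (cj ((L.v x q⁻¹ * L.v (x + h) q⁻¹ * L.v x q⁻¹)⁻¹ * L.v x (L.K q) *
      L.v x (L.K q)) ⁅L.v x r, L.v (x + h) (L.K s)⁆)
      (cj (L.v x q) ⁅L.v x r, L.v (x + h) (L.K s)⁆) := by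
    refine L.split_eq ?_ ?_ ?_ ?_ e
    · exact L.cjL _ hf
    · have n1 := L.normR (x + h) (x + h + L.J h) q
      have n2 := L.normR (x + h) (x + h + L.J h) (L.K q)
      have n3 := L.normL (x + h) (x + h + L.J h) (L.K q)
      refine Act.mem_conj ?_ hf
      refine Subgroup.mul_mem _ (Subgroup.mul_mem _ (Subgroup.inv_mem _
        (Subgroup.mul_mem _ (Subgroup.mul_mem _ n1 n1) (Subgroup.mul_mem _
          (Subgroup.mul_mem _ n2 n3) n2))) n2) (Subgroup.inv_mem _ n3)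
    · exact L.cjL _ he
    · have n1 := L.normL x (x + h) q⁻¹
      have n2 := L.normR x (x + h) q⁻¹
      have n3 := L.normL x (x + h) (L.K q)
      refine Act.mem_conj ?_ he
      exact Subgroup.mul_mem _ (Subgroup.mul_mem _ (Subgroup.inv_mem _
        (Subgroup.mul_mem _ (Subgroup.mul_mem _ n1 n2) n1)) n3) n3
  set w0 := ⁅L.v x r, L.v (x + h) (L.K s)⁆ with hw0
  set w := cj (L.v x (L.K q * L.K q)) w0 with hw
  have hwW : w ∈ L.W x (x + h) := L.cjL _ he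
  have e1 : cj ((L.v x q⁻¹ * L.v (x + h) q⁻¹ * L.v x q⁻¹)⁻¹ * L.v x (L.K q) *
      L.v x (L.K q)) w0 = cj (L.v x q) (cj (L.v (x + h) q) (cj (L.v x q) w)) := by
    rw [hw, map_mul]
    simp only [map_inv]
    unfold cj
    group
  rw [e1] at hE
  have h2 := hE.cj0 q⁻¹
  have e2 : cj (L.v x q⁻¹) (cj (L.v x q) (cj (L.v (x + h) q) (cj (L.v x q) w))) =
      cj (L.v (x + h) q) (cj (L.v x q) w) := by
    rw [map_inv, cj_inv_cj]
  have e3 : cj (L.v x q⁻¹) (cj (L.v x q) w0) = w0 := by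
    rw [map_inv, cj_inv_cj]
  rw [e2, e3] at h2
  have h3 := (L.Q x h q hwW).cj1 q
  have e4 : cj (L.v (x + h) q) (cj (L.v (x + h) q⁻¹) w) = w := by
    rw [map_inv, cj_cj_inv]
  rw [e4] at h3
  exact h3.symm.trans h2

lemma A0 (x h : U) (t : V) {w : G} (hw : w ∈ L.W x (x + h)) :
    L.EqZ x h (cj (L.v x t) w) w := by
  refine L.W_induction (p := fun w => L.EqZ x h (cj (L.v x t) w) w) ?_ ?_ ?_ ?_ hw
  · intro r s; exact L.A0gen x h r s t
  · simp only [cj_one]; exact EqZ.refl _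
  · intro a b ha hb h1 h2
    rw [cj_mul]
    exact EqZ.mul (L.W_le_H _ _ ha) h1 h2
  · intro a ha h1
    rw [cj_inv]
    exact EqZ.inv (L.W_le_H _ _ ha) h1

lemma A1 (x h : U) (t : V) {w : G} (hw : w ∈ L.W x (x + h)) :
    L.EqZ x h (cj (L.v (x + h) t) w) w := by
  have h1 := L.Q x h t⁻¹ hw
  rw [inv_inv] at h1
  exact h1.symm.trans (L.A0 x h t⁻¹ hw)

/-- the doubly central part -/
def ZZ (x h : U) : Subgroup G := L.Z x h ⊓ L.mirror.Z x h

lemma ZZ_mem0 (x h : U) (t : V) {w : G} (hw : w ∈ L.W x (x + h)) :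
    cj (L.v x t) w * w⁻¹ ∈ L.ZZ x h :=
  ⟨L.A0 x h t hw, L.mirror.A0 x h t hw⟩

lemma ZZ_mem1 (x h : U) (t : V) {w : G} (hw : w ∈ L.W x (x + h)) :
    cj (L.v (x + h) t) w * w⁻¹ ∈ L.ZZ x h :=
  ⟨L.A1 x h t hw, L.mirror.A1 x h t hw⟩

lemma ZZ_comm1 {x h : U} {z : G} (hz : z ∈ L.ZZ x h) (t : V) :
    L.v (x + h) t * z = z * L.v (x + h) t := by
  obtain ⟨p, rfl⟩ := L.sqV t
  obtain ⟨s, rfl⟩ : ∃ q, p = L.K q := ⟨(L.K p)⁻¹, (L.K_surj p).symm⟩
  have h1 := L.Z_comm1 hz.1 (L.X_mem x h s)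
  have h2 := L.mirror.Z_comm1 hz.2 (L.mirror.X_mem x h s)
  simp only [X, mirror_v, mirror_K, map_inv] at h1 h2
  rw [map_mul]
  generalize L.v x s = a at *
  generalize L.v (x + h) (L.K s) = b at *
  -- z (a b) = (a b) z, z (a b⁻¹) = (a b⁻¹) z
  have h3 : a⁻¹ * z * a = b * z * b⁻¹ := by
    calc a⁻¹ * z * a = a⁻¹ * (z * (a * b)) * b⁻¹ := by group
      _ = b * z * b⁻¹ := by rw [h1]; group
  have h4 : a⁻¹ * z * a = b⁻¹ * z * b := by
    calc a⁻¹ * z * a = a⁻¹ * (z * (a * b⁻¹)) * b := by group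
      _ = b⁻¹ * z * b := by rw [h2]; group
  calc b * b * z = b * (b * z * b⁻¹) * b := by group
    _ = b * (b⁻¹ * z * b) * b := by rw [← h3, h4]
    _ = z * (b * b) := by group

lemma ZZ_comm0 {x h : U} {z : G} (hz : z ∈ L.ZZ x h) (t : V) :
    L.v x t * z = z * L.v x t := by
  have h1 := L.Z_comm1 hz.1 (L.X_mem x h t)
  have h2 := L.ZZ_comm1 hz (L.K t)
  unfold X at h1
  generalize L.v x t = a at *
  generalize L.v (x + h) (L.K t) = b at *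
  calc a * z = (a * b) * (b⁻¹ * z) := by group
    _ = (a * b) * z * b⁻¹ := by
        have : b⁻¹ * z = z * b⁻¹ := by
          calc b⁻¹ * z = b⁻¹ * (z * b) * b⁻¹ := by group
            _ = z * b⁻¹ := by rw [← h2]; group
        rw [this]; group
    _ = z * a := by rw [← h1]; group

end Lat
end Pool.Agent.Reg4L
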