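import Pool.Agent.Reg4.LatStepA

set_option autoImplicit false

open scoped commutatorElement

namespace Pool.Agent.Reg4L

section pure

variable {V B : Type*} [CommGroup V] [AddCommGroup B]

lemma inv_of_add (a : V → B) (ha : ∀ s t, a (s * t) = a s + a t) (s : V) : a s⁻¹ = -a s := by
  have h1 : a 1 = 0 := by
    have := ha 1 1
    rw [mul_one] at this
    have h2 : a 1 + 0 = a 1 + a 1 := by rw [add_zero]; exact this
    exact (add_left_cancel h2).symm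
  have := ha s s⁻¹
  rw [mul_inv_cancel, h1] at this
  exact (neg_eq_of_add_eq_zero_right this.symm).symm

variable (K : V → V) (KK : ∀ s, K (K s) = s⁻¹) (Km : ∀ s t, K (s * t) = K s * K t)
  (sq : ∀ s : V, ∃ t : V, s = t * t)
  (a b c d : V → B)
  (ha : ∀ s t, a (s * t) = a s + a t) (hb : ∀ s t, b (s * t) = b s + b t)
  (hc : ∀ s t, c (s * t) = c s + c t) (hd : ∀ s t, d (s * t) = d s + d t)
  (F1 : ∀ t, c t + d t + c t - b (K t) = c t + a (K t))
  (F2 : ∀ q, -c (K q) + a q = (-(d q + d q + (d (K q) + c (K q) + d (K q))) + d (K q) - c (K q)) +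
    (a q + b q + a q + a (K q) + a (K q)))

include KK Km sq ha hb hc hd F1 F2

set_option linter.unusedSectionVars false

lemma pureD (t : V) : d t = a t + b t + a (K t) := by
  obtain ⟨q, rfl⟩ := sq t
  rw [Km, ha, ha, hb, hd]
  have e1 := F1 (K q)
  rw [KK, inv_of_add a ha, inv_of_add b hb] at e1
  have e2 := F2 q
  -- e1: c(Kq)+d(Kq)+c(Kq)+b q = c(Kq) - a q
  have e3 : c (K q) + d (K q) = -a q - b q := by
    have : c (K q) + d (K q) = (c (K q) + d (K q) + c (K q) - -b q) - c (K q) - b q := by abel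
    rw [this, e1]; abel
  have e4 : d q + d q = a q + b q + a (K q) + a (K q) - (c (K q) + d (K q)) := by
    have : d q + d q = d q + d q + (-c (K q) + a q) + c (K q) - a q := by abel
    rw [this, e2]; abel
  rw [e4, e3]; abel

lemma pureC (t : V) : -c (K t) + a t = d t + b (K t) := by
  have e1 := pureD K KK Km sq a b c d ha hb hc hd F1 F2 t
  have e2 := pureD K KK Km sq a b c d ha hb hc hd F1 F2 (K t)
  have e3 := F1 (K t)
  rw [KK, inv_of_add a ha] at e2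
  rw [KK, inv_of_add a ha, inv_of_add b hb] at e3
  have e4 : c (K t) = -a t - b t - d (K t) := by
    have : c (K t) = (c (K t) + d (K t) + c (K t) - -b t) - c (K t) - b t - d (K t) := by abel
    rw [this, e3]; abel
  rw [e4, e2, e1]; abel

lemma pureE (hab : ∀ t, a t = b t) (hcd : ∀ t, c t = d t) (t : V) : a t = 0 := by
  obtain ⟨q, rfl⟩ := sq t
  obtain ⟨p, rfl⟩ := sq q
  have e1 := pureD K KK Km sq a b c d ha hb hc hd F1 F2 p
  have e2 := F1 p
  rw [← hab] at e1 e2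
  rw [hcd p] at e2
  -- e1 : d p = a p + a p + a (K p); e2 : d p + d p + d p - a (K p) = d p + a (K p)
  have e3 : d p + d p = a (K p) + a (K p) := by
    have : d p + d p = (d p + d p + d p - a (K p)) - d p + a (K p) := by abel
    rw [this, e2]; abel
  rw [ha, ha]
  have : a p + a p + (a p + a p) = (d p + d p) - (a (K p) + a (K p)) := by rw [e1]; abel
  rw [this, e3]; abel

end pure

variable {G : Type*} [Group G] {U V : Type*} [AddCommGroup U] [CommGroup V]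

namespace Lat

variable (L : Lat U V G)

lemma Z_shift (x h : U) : L.Z (x + h) (L.J h) = L.Z x h := by
  unfold Z
  rw [L.JJ, L.H_opp, inf_comm]

lemma ZZ_le_Z (x h : U) : L.ZZ x h ≤ L.Z x h := inf_le_left

lemma ZZ_comm {x h : U} {y z : G} (hy : y ∈ L.ZZ x h) (hz : z ∈ L.ZZ x h) : y * z = z * y :=
  L.Z_comm1 hy.1 hz.1.1

structure Tr (x d : U) (w g z : G) : Prop where
  hz : z ∈ L.ZZ x d
  hc : ∀ y ∈ L.ZZ x d, g * y = y * g
  eq : cj g w = z * w

variable {L}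

lemma Tr.mul {x d : U} {w g z g' z' : G} (a : L.Tr x d w g z) (b : L.Tr x d w g' z') :
    L.Tr x d w (g * g') (z * z') := by
  refine ⟨(L.ZZ x d).mul_mem a.hz b.hz, fun y hy => ?_, ?_⟩
  · rw [mul_assoc, b.hc y hy, ← mul_assoc, a.hc y hy, mul_assoc]
  · rw [cj_mul_left, b.eq, cj_mul, a.eq, cj_of_comm (a.hc _ b.hz), ← mul_assoc,
      L.ZZ_comm b.hz a.hz]

lemma Tr.inv {x d : U} {w g z : G} (a : L.Tr x d w g z) : L.Tr x d w g⁻¹ z⁻¹ := by
  refine ⟨(L.ZZ x d).inv_mem a.hz, fun y hy => ?_, ?_⟩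
  · have := a.hc y hy
    calc g⁻¹ * y = g⁻¹ * (y * g) * g⁻¹ := by group
      _ = y * g⁻¹ := by rw [← this]; group
  · have h1 := cj_inv_cj g w
    rw [a.eq, cj_mul] at h1
    have h2 : cj g⁻¹ z = z := by
      apply cj_of_comm
      have := a.hc z a.hz
      calc g⁻¹ * z = g⁻¹ * (z * g) * g⁻¹ := by group
        _ = z * g⁻¹ := by rw [← this]; group
    rw [h2] at h1
    rw [eq_inv_mul_iff_mul_eq]; exact h1

variable (L)

/-- displacement function at the first point -/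
def al (x : U) (w : G) (t : V) : G := cj (L.v x t) w * w⁻¹

lemma tr0 {x d : U} {w : G} (hw : w ∈ L.W x (x + d)) (t : V) :
    L.Tr x d w (L.v x t) (L.al x w t) :=
  ⟨L.ZZ_mem0 x d t hw, fun _ hy => L.ZZ_comm0 hy t, by unfold al; group⟩

lemma tr1 {x d : U} {w : G} (hw : w ∈ L.W x (x + d)) (t : V) :
    L.Tr x d w (L.v (x + d) t) (L.al (x + d) w t) :=
  ⟨L.ZZ_mem1 x d t hw, fun _ hy => L.ZZ_comm1 hy t, by unfold al; group⟩

lemma Tr.unique {x d : U} {w g z z' : G} (a : L.Tr x d w g z) (b : L.Tr x d w g z') : z = z' := by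
  have := a.eq.symm.trans b.eq
  exact mul_right_cancel this

lemma al_mul0 {x d : U} {w : G} (hw : w ∈ L.W x (x + d)) (s t : V) :
    L.al x w (s * t) = L.al x w s * L.al x w t := by
  have h1 := L.tr0 hw (s * t)
  have h2 := (L.tr0 hw s).mul (L.tr0 hw t)
  rw [← map_mul] at h2
  exact Tr.unique L h1 h2

lemma al_mul1 {x d : U} {w : G} (hw : w ∈ L.W x (x + d)) (s t : V) :
    L.al (x + d) w (s * t) = L.al (x + d) w s * L.al (x + d) w t := by
  have h1 := L.tr1 hw (s * t)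
  have h2 := (L.tr1 hw s).mul (L.tr1 hw t)
  rw [← map_mul] at h2
  exact Tr.unique L h1 h2

/-- `Z` is commutative -/
@[instance_reducible] def zGroup (x h : U) : CommGroup (L.Z x h) :=
  { (inferInstance : Group (L.Z x h)) with
    mul_comm := fun a b => Subtype.ext (L.Z_comm1 a.2 b.2.1) }

lemma al_memZ0 {x h : U} {w : G} (hw : w ∈ L.W x (x + h)) (t : V) : L.al x w t ∈ L.Z x h :=
  L.ZZ_le_Z x h (L.ZZ_mem0 x h t hw)

lemma al_memZ1 {x h : U} {w : G} (hw : w ∈ L.W x (x + h)) (t : V) :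
    L.al (x + h) w t ∈ L.Z x h :=
  L.ZZ_le_Z x h (L.ZZ_mem1 x h t hw)

lemma cancel_fe {f e z1 z2 z3 z4 : G} (c2 : f * z2 = z2 * f) (c4 : f * z4 = z4 * f)
    (he : z1 * f * (z2 * e) = z3 * f * (z4 * e)) : z1 * z2 = z3 * z4 := by
  have h1 : z1 * f * (z2 * e) = z1 * z2 * (f * e) := by
    calc z1 * f * (z2 * e) = z1 * (f * z2) * e := by group
      _ = _ := by rw [c2]; group
  have h2 : z3 * f * (z4 * e) = z3 * z4 * (f * e) := by
    calc z3 * f * (z4 * e) = z3 * (f * z4) * e := by group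
      _ = _ := by rw [c4]; group
  rw [h1, h2] at he
  exact mul_right_cancel he

/-- (F1) in terms of displacement functions -/
lemma F1al (x h : U) (r s t : V) :
    L.al (x + h) ⁅L.v (x + h) (L.K r)⁻¹, L.v (x + h + L.J h) s⁆ t *
    L.al (x + h + L.J h) ⁅L.v (x + h) (L.K r)⁻¹, L.v (x + h + L.J h) s⁆ t *
    L.al (x + h) ⁅L.v (x + h) (L.K r)⁻¹, L.v (x + h + L.J h) s⁆ t *
      L.al (x + h) ⁅L.v x r, L.v (x + h) (L.K s)⁆ (L.K t)⁻¹ =
    L.al (x + h) ⁅L.v (x + h) (L.K r)⁻¹, L.v (x + h + L.J h) s⁆ t *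
      L.al x ⁅L.v x r, L.v (x + h) (L.K s)⁆ (L.K t) := by
  have he := L.mem_W x (x + h) r (L.K s)
  have hf := L.mem_W (x + h) (x + h + L.J h) (L.K r)⁻¹ s
  have e := L.F1 x h r s t
  have t1 := ((L.tr0 hf t).mul (L.tr1 hf t)).mul (L.tr0 hf t)
  have t2 := L.tr1 he (L.K t)⁻¹
  have t3 := L.tr0 hf t
  have t4 := L.tr0 he (L.K t)
  rw [t1.eq, t2.eq, t3.eq, t4.eq] at e
  have c2 := L.HH_comm x h (L.al_memZ1 he (L.K t)⁻¹).1 (L.W12_le x h hf)
  have c4 := L.HH_comm x h (L.al_memZ0 he (L.K t)).1 (L.W12_le x h hf)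
  exact cancel_fe c2.symm c4.symm e

/-- (F2) in terms of displacement functions -/
lemma F2al (x h : U) (r s q : V) :
    L.al (x + h) ⁅L.v (x + h) (L.K r)⁻¹, L.v (x + h + L.J h) s⁆ (L.K q)⁻¹ *
      L.al x ⁅L.v x r, L.v (x + h) (L.K s)⁆ q =
    ((L.al (x + h + L.J h) ⁅L.v (x + h) (L.K r)⁻¹, L.v (x + h + L.J h) s⁆ q *
      L.al (x + h + L.J h) ⁅L.v (x + h) (L.K r)⁻¹, L.v (x + h + L.J h) s⁆ q *
      (L.al (x + h + L.J h) ⁅L.v (x + h) (L.K r)⁻¹, L.v (x + h + L.J h) s⁆ (L.K q) *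
      L.al (x + h) ⁅L.v (x + h) (L.K r)⁻¹, L.v (x + h + L.J h) s⁆ (L.K q) *
      L.al (x + h + L.J h) ⁅L.v (x + h) (L.K r)⁻¹, L.v (x + h + L.J h) s⁆ (L.K q)))⁻¹ *
      L.al (x + h + L.J h) ⁅L.v (x + h) (L.K r)⁻¹, L.v (x + h + L.J h) s⁆ (L.K q) *
      (L.al (x + h) ⁅L.v (x + h) (L.K r)⁻¹, L.v (x + h + L.J h) s⁆ (L.K q))⁻¹) *
    ((L.al x ⁅L.v x r, L.v (x + h) (L.K s)⁆ q⁻¹ *
      L.al (x + h) ⁅L.v x r, L.v (x + h) (L.K s)⁆ q⁻¹ *
      L.al x ⁅L.v x r, L.v (x + h) (L.K s)⁆ q⁻¹)⁻¹ *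
      L.al x ⁅L.v x r, L.v (x + h) (L.K s)⁆ (L.K q) *
      L.al x ⁅L.v x r, L.v (x + h) (L.K s)⁆ (L.K q)) := by
  have he := L.mem_W x (x + h) r (L.K s)
  have hf := L.mem_W (x + h) (x + h + L.J h) (L.K r)⁻¹ s
  have e := L.F2 x h r s q
  have t1 := L.tr0 hf (L.K q)⁻¹
  have t2 := L.tr0 he q
  have t3 := ((((L.tr1 hf q).mul (L.tr1 hf q)).mul
    (((L.tr1 hf (L.K q)).mul (L.tr0 hf (L.K q))).mul (L.tr1 hf (L.K q)))).inv.mul
      (L.tr1 hf (L.K q))).mul (L.tr0 hf (L.K q)).inv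
  have t4 := ((((L.tr0 he q⁻¹).mul (L.tr1 he q⁻¹)).mul (L.tr0 he q⁻¹)).inv.mul
    (L.tr0 he (L.K q))).mul (L.tr0 he (L.K q))
  rw [t1.eq, t2.eq, t3.eq, t4.eq] at e
  have c2 := L.HH_comm x h (L.al_memZ0 he q).1 (L.W12_le x h hf)
  have c4 := L.HH_comm x h (L.ZZ_le_Z x h t4.hz).1 (L.W12_le x h hf)
  exact cancel_fe c2.symm c4.symm e

end Lat
end Pool.Agent.Reg4L
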