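import Pool.Agent.Reg4.LatStepC

set_option autoImplicit false

open scoped commutatorElement

namespace Pool.Agent.Reg4L

variable {G : Type*} [Group G] {U V : Type*} [AddCommGroup U] [CommGroup V]

namespace Lat

variable (L : Lat U V G)

section
variable (x h : U) (r s : V)

/-- the displacement functions of the first edge, additively -/
def fa (t : V) : Additive (L.Z x h) :=
  Additive.ofMul ⟨L.al x ⁅L.v x r, L.v (x + h) (L.K s)⁆ t, L.al_memZ0 (L.mem_W _ _ _ _) t⟩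

def fb (t : V) : Additive (L.Z x h) :=
  Additive.ofMul ⟨L.al (x + h) ⁅L.v x r, L.v (x + h) (L.K s)⁆ t, L.al_memZ1 (L.mem_W _ _ _ _) t⟩

def fc (t : V) : Additive (L.Z x h) :=
  Additive.ofMul ⟨L.al (x + h) ⁅L.v (x + h) (L.K r)⁻¹, L.v (x + h + L.J h) s⁆ t,
    L.Z_shift x h ▸ L.al_memZ0 (L.mem_W _ _ _ _) t⟩

def fd (t : V) : Additive (L.Z x h) :=
  Additive.ofMul ⟨L.al (x + h + L.J h) ⁅L.v (x + h) (L.K r)⁻¹, L.v (x + h + L.J h) s⁆ t,
    L.Z_shift x h ▸ L.al_memZ1 (L.mem_W _ _ _ _) t⟩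

attribute [local instance] Lat.zGroup in
lemma pure_facts :
    letI := L.zGroup x h
    (∀ t, -(L.fc x h r s (L.K t)) + L.fa x h r s t =
        L.fd x h r s t + L.fb x h r s (L.K t)) ∧
    ((∀ t, L.fa x h r s t = L.fb x h r s t) → (∀ t, L.fc x h r s t = L.fd x h r s t) →
      ∀ t, L.fa x h r s t = 0) := by
  let _ := L.zGroup x h
  have he := L.mem_W x (x + h) r (L.K s)
  have hf := L.mem_W (x + h) (x + h + L.J h) (L.K r)⁻¹ s
  have ha : ∀ p t, L.fa x h r s (p * t) = L.fa x h r s p + L.fa x h r s t := fun p t =>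
    congrArg Additive.ofMul (Subtype.ext (L.al_mul0 he p t))
  have hb : ∀ p t, L.fb x h r s (p * t) = L.fb x h r s p + L.fb x h r s t := fun p t =>
    congrArg Additive.ofMul (Subtype.ext (L.al_mul1 he p t))
  have hc : ∀ p t, L.fc x h r s (p * t) = L.fc x h r s p + L.fc x h r s t := fun p t =>
    congrArg Additive.ofMul (Subtype.ext (L.al_mul0 hf p t))
  have hd : ∀ p t, L.fd x h r s (p * t) = L.fd x h r s p + L.fd x h r s t := fun p t =>
    congrArg Additive.ofMul (Subtype.ext (L.al_mul1 hf p t))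
  have F1 : ∀ t, L.fc x h r s t + L.fd x h r s t + L.fc x h r s t - L.fb x h r s (L.K t) =
      L.fc x h r s t + L.fa x h r s (L.K t) := by
    intro t
    rw [sub_eq_add_neg, ← inv_of_add _ hb]
    exact congrArg Additive.ofMul (Subtype.ext (L.F1al x h r s t))
  have F2 : ∀ q, -L.fc x h r s (L.K q) + L.fa x h r s q =
      (-(L.fd x h r s q + L.fd x h r s q + (L.fd x h r s (L.K q) + L.fc x h r s (L.K q) +
        L.fd x h r s (L.K q))) + L.fd x h r s (L.K q) - L.fc x h r s (L.K q)) +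
      (L.fa x h r s q + L.fb x h r s q + L.fa x h r s q + L.fa x h r s (L.K q) +
        L.fa x h r s (L.K q)) := by
    intro q
    have key : L.fc x h r s (L.K q)⁻¹ + L.fa x h r s q =
      (-(L.fd x h r s q + L.fd x h r s q + (L.fd x h r s (L.K q) + L.fc x h r s (L.K q) +
        L.fd x h r s (L.K q))) + L.fd x h r s (L.K q) + -L.fc x h r s (L.K q)) +
      (-(L.fa x h r s q⁻¹ + L.fb x h r s q⁻¹ + L.fa x h r s q⁻¹) + L.fa x h r s (L.K q) +
        L.fa x h r s (L.K q)) :=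
      congrArg Additive.ofMul (Subtype.ext (L.F2al x h r s q))
    rw [inv_of_add _ hc, inv_of_add _ ha, inv_of_add _ hb] at key
    rw [key]; abel
  exact ⟨pureC L.K L.KK (fun _ _ => map_mul _ _ _) L.sqV _ _ _ _ ha hb hc hd F1 F2,
    pureE L.K L.KK (fun _ _ => map_mul _ _ _) L.sqV _ _ _ _ ha hb hc hd F1 F2⟩

end

/-- both ends of a diagonal act in the same way on its commutators -/
lemma diag (x h : U) (r s t : V) :
    cj (L.v x t) ⁅L.v x r, L.v (x + h + L.J h) s⁆ =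
      cj (L.v (x + h + L.J h) t) ⁅L.v x r, L.v (x + h + L.J h) s⁆ := by
  have he := L.mem_W x (x + h) r (L.K s)
  have hf := L.mem_W (x + h) (x + h + L.J h) (L.K r)⁻¹ s
  have h1 := congrArg (fun g => ((Additive.toMul g : L.Z x h) : G)) ((L.pure_facts x h r s).1 t)
  have h2 : (L.al (x + h) ⁅L.v (x + h) (L.K r)⁻¹, L.v (x + h + L.J h) s⁆ (L.K t))⁻¹ *
      L.al x ⁅L.v x r, L.v (x + h) (L.K s)⁆ t =
      L.al (x + h + L.J h) ⁅L.v (x + h) (L.K r)⁻¹, L.v (x + h + L.J h) s⁆ t *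
      L.al (x + h) ⁅L.v x r, L.v (x + h) (L.K s)⁆ (L.K t) := h1
  have b3 := (L.actL (x + h) (L.J h) t).cj_eq hf
  have e2 : x + h + L.J (L.J h) = x := by rw [L.JJ]; abel
  rw [e2] at b3
  have b4 := (L.actL' x h t).cj_eq he
  have t1 : cj (L.v (x + h) (L.K t)⁻¹) ⁅L.v (x + h) (L.K r)⁻¹, L.v (x + h + L.J h) s⁆ =
      (L.al (x + h) ⁅L.v (x + h) (L.K r)⁻¹, L.v (x + h + L.J h) s⁆ (L.K t))⁻¹ *
        ⁅L.v (x + h) (L.K r)⁻¹, L.v (x + h + L.J h) s⁆ := by
    have := (L.tr0 hf (L.K t)).inv.eq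
    rw [map_inv _ (L.K t)]
    exact this
  have t2 := L.tr0 he t
  have t3 := L.tr1 hf t
  have t4 := L.tr1 he (L.K t)
  have c2 := L.HH_comm x h (L.ZZ_le_Z x h t2.hz).1 (L.W12_le x h hf)
  have c4 := L.HH_comm x h (L.ZZ_le_Z x h t4.hz).1 (L.W12_le x h hf)
  rw [L.D1, cj_mul, cj_mul, b3, b4, t1, t2.eq, t3.eq, t4.eq]
  generalize ⁅L.v x r, L.v (x + h) (L.K s)⁆ = e at *
  generalize ⁅L.v (x + h) (L.K r)⁻¹, L.v (x + h + L.J h) s⁆ = f at *
  generalize L.al x e t = z2 at *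
  generalize L.al (x + h) f (L.K t) = z1 at *
  generalize L.al (x + h + L.J h) f t = z3 at *
  generalize L.al (x + h) e (L.K t) = z4 at *
  calc z1⁻¹ * f * (z2 * e) = z1⁻¹ * (f * z2) * e := by group
    _ = (z1⁻¹ * z2) * (f * e) := by rw [← c2]; group
    _ = (z3 * z4) * (f * e) := by rw [h2]
    _ = z3 * (z4 * f) * e := by group
    _ = z3 * f * (z4 * e) := by rw [c4]; group

lemma diag' (x d : U) (r s t : V) :
    cj (L.v x t) ⁅L.v x r, L.v (x + d) s⁆ = cj (L.v (x + d) t) ⁅L.v x r, L.v (x + d) s⁆ := by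
  obtain ⟨h, rfl⟩ := L.sqU d
  rw [← add_assoc]
  exact L.diag x h r s t

/-- **Theorem A**: `V_x` centralizes `[V_x, V_y]`. -/
theorem thmA0 (x d : U) (r s t : V) :
    cj (L.v x t) ⁅L.v x r, L.v (x + d) s⁆ = ⁅L.v x r, L.v (x + d) s⁆ := by
  obtain ⟨s, rfl⟩ : ∃ q, s = L.K q := ⟨(L.K s)⁻¹, (L.K_surj s).symm⟩
  have h1 := (L.pure_facts x d r s).2
    (fun t => by
      refine congrArg Additive.ofMul (Subtype.ext ?_)
      exact congrArg (fun g => g * (⁅L.v x r, L.v (x + d) (L.K s)⁆)⁻¹) (L.diag' x d r (L.K s) t))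
    (fun t => by
      refine congrArg Additive.ofMul (Subtype.ext ?_)
      exact congrArg (fun g => g * (⁅L.v (x + d) (L.K r)⁻¹, L.v (x + d + L.J d) s⁆)⁻¹)
        (L.diag' (x + d) (L.J d) (L.K r)⁻¹ s t)) t
  have h2 := congrArg (fun g => ((Additive.toMul g : L.Z x d) : G)) h1
  have h3 : L.al x ⁅L.v x r, L.v (x + d) (L.K s)⁆ t = 1 := h2
  unfold al at h3
  exact mul_inv_eq_one.1 h3

theorem thmA1 (x d : U) (r s t : V) :
    cj (L.v (x + d) t) ⁅L.v x r, L.v (x + d) s⁆ = ⁅L.v x r, L.v (x + d) s⁆ := by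
  rw [← L.diag']; exact L.thmA0 x d r s t

/-- `V_x` and `V_y` generate a group of class at most two -/
theorem thmA (x y : U) (r s t : V) :
    Commute (L.v x t) ⁅L.v x r, L.v y s⁆ ∧ Commute (L.v y t) ⁅L.v x r, L.v y s⁆ := by
  obtain ⟨d, rfl⟩ : ∃ d, y = x + d := ⟨y - x, by abel⟩
  constructor
  · have := L.thmA0 x d r s t
    unfold cj at this
    have h2 := congrArg (fun g => g * L.v x t) this
    have h3 : L.v x t * ⁅L.v x r, L.v (x + d) s⁆ = ⁅L.v x r, L.v (x + d) s⁆ * L.v x t := by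
      simpa using h2
    exact h3
  · have := L.thmA1 x d r s t
    unfold cj at this
    have h2 := congrArg (fun g => g * L.v (x + d) t) this
    have h3 : L.v (x + d) t * ⁅L.v x r, L.v (x + d) s⁆ =
        ⁅L.v x r, L.v (x + d) s⁆ * L.v (x + d) t := by
      simpa using h2
    exact h3

end Lat
end Pool.Agent.Reg4L
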