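import Pool.Agent.Reg4.LatG

set_option autoImplicit false

open scoped commutatorElement

namespace Pool.Agent.Reg4L

variable {G : Type*} [Group G] {U V : Type*} [AddCommGroup U] [CommGroup V]

lemma cj_commute {g a b : G} (h : Commute a b) : Commute (cj g a) (cj g b) := by
  have := congrArg (cj g) h.eq
  rw [cj_mul, cj_mul] at this
  exact this

lemma alg {T R e e' f' f2 f3 : G} (hTR : T * R = R * T) (Re' : cj R e' = e')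
    (Tf' : cj T f' = f') (Tf2 : cj T f2 = f2) (Tf3 : cj T f3 = f3)
    (c1 : Commute f3 e') (c2 : Commute e' (cj T e')) (c3 : Commute f' (cj R f'))
    (α1 : (cj R f')⁻¹ * cj T⁻¹ e' = f'⁻¹ * e') (α2 : f' * cj T e = cj R⁻¹ f' * e)
    (dia : e * f2 = (cj R⁻¹ f3)⁻¹ * (cj T⁻¹ e')⁻¹) :
    (cj T e' * e'⁻¹) * (cj T e' * e'⁻¹) = 1 := by
  have hTRc : ∀ w, cj T (cj R w) = cj R (cj T w) := by
    intro w; rw [← cj_mul_left, hTR, cj_mul_left]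
  have hRT' : T * R⁻¹ = R⁻¹ * T := by
    have : Commute T R := hTR
    exact this.inv_right.eq
  have hTRc' : ∀ w, cj T (cj R⁻¹ w) = cj R⁻¹ (cj T w) := by
    intro w; rw [← cj_mul_left, hRT', cj_mul_left]
  have hRT'' : T⁻¹ * R⁻¹ = R⁻¹ * T⁻¹ := by
    have : Commute T R := hTR
    exact this.inv_inv.eq
  have hTRc'' : ∀ w, cj T⁻¹ (cj R⁻¹ w) = cj R⁻¹ (cj T⁻¹ w) := by
    intro w; rw [← cj_mul_left, hRT'', cj_mul_left]
  have Re'' : cj R⁻¹ e' = e' := by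
    conv_lhs => rw [← Re']
    exact cj_inv_cj R e'
  have Tf3' : cj T⁻¹ f3 = f3 := by
    conv_lhs => rw [← Tf3]
    exact cj_inv_cj T f3
  -- R⁻¹ f3 commutes with e' and with T⁻¹ e'
  have d1 : Commute (cj R⁻¹ f3) e' := by
    have := cj_commute (g := R⁻¹) c1
    rwa [Re''] at this
  have d2 : Commute (cj R⁻¹ f3) (cj T⁻¹ e') := by
    have := cj_commute (g := T⁻¹) d1
    rwa [hTRc'', Tf3'] at this
  -- P = e'⁻¹ (T⁻¹ e')
  have t1 : cj T e * f2 = (cj R⁻¹ f3)⁻¹ * e'⁻¹ := by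
    have := congrArg (cj T) dia
    rw [cj_mul, cj_mul, cj_inv, cj_inv, Tf2, hTRc', Tf3, cj_cj_inv] at this
    exact this
  have hP : cj T e * e⁻¹ = e'⁻¹ * cj T⁻¹ e' := by
    have h1 : cj T e * e⁻¹ = (cj T e * f2) * (e * f2)⁻¹ := by group
    rw [h1, t1, dia]
    have h2 := (d1.mul_right d2.inv_right)
    have h3 : Commute (cj R⁻¹ f3) (e'⁻¹ * cj T⁻¹ e') := d1.inv_right.mul_right d2
    have h4 := h3.eq
    generalize cj R⁻¹ f3 = z at *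
    generalize cj T⁻¹ e' = y at *
    calc z⁻¹ * e'⁻¹ * (z⁻¹ * y⁻¹)⁻¹ = z⁻¹ * ((e'⁻¹ * y) * z) := by group
      _ = e'⁻¹ * y := by rw [← h4]; group
  set P' := cj T e' * e'⁻¹ with hP'
  have hP'inv : P'⁻¹ = (cj T e')⁻¹ * e' := by
    rw [hP', mul_inv_rev, inv_inv]
    exact (c2.inv_right).eq
  have hTP' : cj T⁻¹ P'⁻¹ = e'⁻¹ * cj T⁻¹ e' := by
    rw [hP'inv, cj_mul, cj_inv, cj_inv_cj]
  -- Q'
  have hQ : cj T⁻¹ P'⁻¹ = cj R f' * f'⁻¹ := by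
    have h1 : P'⁻¹ = e' * (cj T e')⁻¹ := by rw [hP', mul_inv_rev, inv_inv]
    rw [h1, cj_mul, cj_inv, cj_inv_cj]
    calc cj T⁻¹ e' * e'⁻¹ = cj R f' * ((cj R f')⁻¹ * cj T⁻¹ e') * e'⁻¹ := by group
      _ = cj R f' * f'⁻¹ := by rw [α1]; group
  have hTQ : cj T (cj R f' * f'⁻¹) = cj R f' * f'⁻¹ := by
    rw [cj_mul, cj_inv, Tf', hTRc, Tf']
  have hPQ : P'⁻¹ = cj R f' * f'⁻¹ := by
    rw [← hTQ, ← hQ, cj_cj_inv]
  have b1 : cj T e * e⁻¹ = P'⁻¹ := by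
    rw [hP, ← hTP', hQ, hPQ]
  have b2 : cj T e * e⁻¹ = P' := by
    have h1 : cj T e * e⁻¹ = f'⁻¹ * cj R⁻¹ f' := by
      calc cj T e * e⁻¹ = f'⁻¹ * (f' * cj T e) * e⁻¹ := by group
        _ = f'⁻¹ * cj R⁻¹ f' := by rw [α2]; group
    have h2 : P' = f' * (cj R f')⁻¹ := by
      rw [← inv_inv P', hPQ]; group
    have h3 : cj R⁻¹ P' = P' := by
      have : cj R P' = P' := by
        rw [hP', cj_mul, cj_inv, Re', ← hTRc, Re']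
      conv_lhs => rw [← this]
      exact cj_inv_cj R P'
    rw [h1, ← h3, h2]
    have h4 : f' * (cj R f')⁻¹ = (cj R f')⁻¹ * f' := (c3.inv_right).eq
    rw [h4, cj_mul, cj_inv, cj_inv_cj]
  rw [b1] at b2
  calc P' * P' = P' * P'⁻¹ := by rw [b2]
    _ = 1 := by group

namespace LatG

variable (L : LatG U V G)

lemma tr_comm (x y z : U) (r s : V) :
    cj (L.i x) ⁅L.v y r, L.v z s⁆ = ⁅L.v (x + y) r, L.v (x + z) s⁆ := by
  have : cj (L.i x) ⁅L.v y r, L.v z s⁆ = ⁅cj (L.i x) (L.v y r), cj (L.i x) (L.v z s)⁆ := by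
    simp only [commutatorElement_def, cj_mul, cj_inv]
  rw [this]
  unfold cj
  rw [L.tr, L.tr]

lemma perp0 (h : U) (r s : V) :
    cj (L.i h) ⁅L.v 0 (L.K r), L.v (L.J h) s⁆ = ⁅L.v 0 r, L.v (L.J h) (L.K s)⁆ := by
  rw [L.tr_comm, add_zero]
  have := L.T1 0 h r s
  rwa [zero_add, zero_add] at this

lemma perp1 (h : U) (r s : V) : Commute (L.i h) ⁅L.v 0 r, L.v (L.J h) s⁆ := by
  apply L.comm_half
  have h1 : cj (L.i (h + h)) ⁅L.v 0 (L.K (L.K r)), L.v (L.J h) s⁆ =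
      ⁅L.v 0 r, L.v (L.J h) (L.K (L.K s))⁆ := by
    rw [L.i_add, cj_mul_left, L.perp0, L.perp0]
  rw [L.KK, L.KK, L.comm_inv_left', L.comm_inv_right', cj_inv, inv_inj] at h1
  unfold cj at h1
  have h2 : L.i (h + h) * ⁅L.v 0 r, L.v (L.J h) s⁆ = ⁅L.v 0 r, L.v (L.J h) s⁆ * L.i (h + h) := by
    calc _ = (L.i (h + h) * ⁅L.v 0 r, L.v (L.J h) s⁆ * (L.i (h + h))⁻¹) * L.i (h + h) := by group
      _ = _ := by rw [h1]
  exact h2

lemma perp (d : U) (r s : V) : Commute (L.i (L.J d)) ⁅L.v 0 r, L.v d s⁆ := by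
  have h1 := L.perp1 (-(L.J d)) r s
  rw [map_neg, L.JJ, neg_neg, i_neg] at h1
  simpa using h1.inv_left

lemma cj_of_commute {g w : G} (h : Commute g w) : cj g w = w := cj_of_comm h.eq

/-- (C0) for the mirror -/
lemma C0' (x h : U) (r s : V) :
    ⁅L.v x r, L.v (x + h) s⁆ =
      ⁅L.v x r, L.v (x + -(L.J h)) s⁆ * ⁅L.v x r, L.v (x + h + -(L.J h)) (L.K s)⁆ := by
  have := L.toLat.mirror.C0 x h r (L.K s)
  simp only [Lat.mirror_v, Lat.mirror_J, Lat.mirror_K, L.KK, inv_inv] at this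
  exact this

lemma neg_comm (d : U) (r s : V) :
    ⁅L.v 0 r, L.v (-d) s⁆ = (cj (L.i d)⁻¹ ⁅L.v 0 s, L.v d r⁆)⁻¹ := by
  rw [← i_neg, L.tr_comm, neg_add_cancel, add_zero, commutatorElement_inv]

lemma comm_mul_right_of {a b c : G} (h : Commute b ⁅a, c⁆) : ⁅a, b * c⁆ = ⁅a, b⁆ * ⁅a, c⁆ := by
  have h1 := h.eq
  simp only [commutatorElement_def] at *
  calc a * (b * c) * a⁻¹ * (b * c)⁻¹ = a * b * a⁻¹ * b⁻¹ * (b * (a * c * a⁻¹ * c⁻¹)) * b⁻¹ := by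
        group
    _ = _ := by rw [h1]; group

theorem thmB0 (k : U) (s r : V) : Commute (L.i k) ⁅L.v 0 s, L.v k r⁆ := by
  have hJJk : L.J (L.J k) = -k := L.JJ k
  have hTR : L.i k * L.i (L.J k) = L.i (L.J k) * L.i k := L.i_comm _ _
  -- commutation facts
  have Re : cj (L.i (L.J k)) ⁅L.v 0 r, L.v k s⁆ = ⁅L.v 0 r, L.v k s⁆ :=
    cj_of_commute (L.perp k r s)
  have Re' : cj (L.i (L.J k)) ⁅L.v 0 s, L.v k r⁆ = ⁅L.v 0 s, L.v k r⁆ :=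
    cj_of_commute (L.perp k s r)
  have Tf' : cj (L.i k) ⁅L.v 0 s, L.v (L.J k) r⁆ = ⁅L.v 0 s, L.v (L.J k) r⁆ :=
    cj_of_commute (L.perp1 k s r)
  have Tf2 : cj (L.i k) ⁅L.v 0 r, L.v (L.J k) (L.K s)⁆ = ⁅L.v 0 r, L.v (L.J k) (L.K s)⁆ :=
    cj_of_commute (L.perp1 k r (L.K s))
  have Tf3 : cj (L.i k) ⁅L.v 0 (L.K s), L.v (L.J k) r⁆ = ⁅L.v 0 (L.K s), L.v (L.J k) r⁆ :=
    cj_of_commute (L.perp1 k (L.K s) r)
  have c1 : Commute ⁅L.v 0 (L.K s), L.v (L.J k) r⁆ ⁅L.v 0 s, L.v k r⁆ := by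
    apply Lat.Cm.comm
    · exact L.cm0 0 k s r
    · have := L.cmL 0 k s r
      rwa [zero_add, zero_add] at this
  have c2 : Commute ⁅L.v 0 s, L.v k r⁆ (cj (L.i k) ⁅L.v 0 s, L.v k r⁆) := by
    rw [L.tr_comm, add_zero]
    apply Commute.symm
    apply Lat.Cm.comm
    · exact L.cm1 0 k s r
    · have := L.cmDbl 0 k s r
      rwa [zero_add] at this
  have c3 : Commute ⁅L.v 0 s, L.v (L.J k) r⁆ (cj (L.i (L.J k)) ⁅L.v 0 s, L.v (L.J k) r⁆) := by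
    rw [L.tr_comm, add_zero]
    apply Commute.symm
    apply Lat.Cm.comm
    · exact L.cm1 0 (L.J k) s r
    · have := L.cmDbl 0 (L.J k) s r
      rwa [zero_add] at this
  -- α1
  have α1 : (cj (L.i (L.J k)) ⁅L.v 0 s, L.v (L.J k) r⁆)⁻¹ * cj (L.i k)⁻¹ ⁅L.v 0 s, L.v k r⁆ =
      ⁅L.v 0 s, L.v (L.J k) r⁆⁻¹ * ⁅L.v 0 s, L.v k r⁆ := by
    have h1 := L.C0 0 k s (L.K r)⁻¹
    rw [L.K_surj, zero_add, zero_add] at h1
    have h2 : ⁅L.v 0 s, L.v (k + L.J k) (L.K r)⁻¹⁆ =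
        ⁅L.v 0 s, L.v (L.J k) r⁆⁻¹ * ⁅L.v 0 s, L.v k r⁆ := by rw [h1]; group
    have h3 := cj_of_commute (L.perp (k + L.J k) s (L.K r)⁻¹)
    rw [h2, map_add, hJJk, L.i_add, L.i_neg, cj_mul, cj_inv] at h3
    have h4 : cj (L.i (L.J k) * (L.i k)⁻¹) ⁅L.v 0 s, L.v (L.J k) r⁆ =
        cj (L.i (L.J k)) ⁅L.v 0 s, L.v (L.J k) r⁆ := by
      rw [cj_mul_left]
      conv_lhs => rw [← Tf', cj_inv_cj]
    have h5 : cj (L.i (L.J k) * (L.i k)⁻¹) ⁅L.v 0 s, L.v k r⁆ =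
        cj (L.i k)⁻¹ ⁅L.v 0 s, L.v k r⁆ := by
      have : L.i (L.J k) * (L.i k)⁻¹ = (L.i k)⁻¹ * L.i (L.J k) := by
        have : Commute (L.i (L.J k)) (L.i k) := hTR.symm
        exact this.inv_right.eq
      rw [this, cj_mul_left, Re']
    rw [h4, h5] at h3
    exact h3
  have α2 : ⁅L.v 0 s, L.v (L.J k) r⁆ * cj (L.i k) ⁅L.v 0 r, L.v k s⁆ =
      cj (L.i (L.J k))⁻¹ ⁅L.v 0 s, L.v (L.J k) r⁆ * ⁅L.v 0 r, L.v k s⁆ := by
    have h1 := L.C0' 0 k r s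
    rw [zero_add, zero_add, L.neg_comm] at h1
    have h2 : ⁅L.v 0 r, L.v (k + -(L.J k)) (L.K s)⁆ =
        cj (L.i (L.J k))⁻¹ ⁅L.v 0 s, L.v (L.J k) r⁆ * ⁅L.v 0 r, L.v k s⁆ := by rw [h1]; group
    have h3 := cj_of_commute (L.perp (k + -(L.J k)) r (L.K s))
    rw [h2, map_add, map_neg, hJJk, neg_neg, add_comm, L.i_add, cj_mul, cj_mul_left,
      cj_cj_inv, Tf', cj_mul_left, Re] at h3
    exact h3
  have dia : ⁅L.v 0 r, L.v k s⁆ * ⁅L.v 0 r, L.v (L.J k) (L.K s)⁆ =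
      (cj (L.i (L.J k))⁻¹ ⁅L.v 0 (L.K s), L.v (L.J k) r⁆)⁻¹ *
        (cj (L.i k)⁻¹ ⁅L.v 0 s, L.v k r⁆)⁻¹ := by
    rw [← L.neg_comm, ← L.neg_comm]
    have hR := L.R k (L.J k + -k) s
    rw [map_add, map_neg, hJJk] at hR
    have e1 : k + (L.J k + -k) = L.J k := by abel
    have e2 : k + (-k + -(L.J k)) = -(L.J k) := by abel
    have e3 : L.J k + (-k + -(L.J k)) = -k := by abel
    rw [e1, e2, e3] at hR
    have g1 : Commute (L.v k s) ⁅L.v 0 r, L.v (L.J k) (L.K s)⁆ := by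
      have := L.cmR 0 (L.J k) r (L.K s) s
      rwa [zero_add, zero_add, hJJk, neg_neg] at this
    have g2 : Commute (L.v (-(L.J k)) (L.K s)) ⁅L.v 0 r, L.v (-k) s⁆ := by
      have := L.cmL 0 (-k) r s (L.K s)
      rwa [zero_add, zero_add, map_neg] at this
    rw [← comm_mul_right_of g1, ← comm_mul_right_of g2, hR]
  have h := alg hTR Re' Tf' Tf2 Tf3 c1 c2 c3 α1 α2 dia
  have h2 := L.no2 _ h
  have h3 : cj (L.i k) ⁅L.v 0 s, L.v k r⁆ = ⁅L.v 0 s, L.v k r⁆ := mul_inv_eq_one.1 h2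
  unfold cj at h3
  have h4 : L.i k * ⁅L.v 0 s, L.v k r⁆ = ⁅L.v 0 s, L.v k r⁆ * L.i k := by
    calc _ = (L.i k * ⁅L.v 0 s, L.v k r⁆ * (L.i k)⁻¹) * L.i k := by group
      _ = _ := by rw [h3]
  exact h4

/-- **Theorem B** -/
theorem thmB (x k : U) (s r : V) : Commute (L.i k) ⁅L.v x s, L.v (x + k) r⁆ ∧
    Commute (L.i (L.J k)) ⁅L.v x s, L.v (x + k) r⁆ := by
  have e : ⁅L.v x s, L.v (x + k) r⁆ = cj (L.i x) ⁅L.v 0 s, L.v k r⁆ := by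
    rw [L.tr_comm, add_zero]
  rw [e]
  have f : ∀ y, L.i y = cj (L.i x) (L.i y) := by
    intro y; rw [cj_of_comm (L.i_comm x y)]
  constructor
  · rw [f k]; exact cj_commute (L.thmB0 k s r)
  · rw [f (L.J k)]; exact cj_commute (L.perp k s r)

end LatG
end Pool.Agent.Reg4L
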