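import Pool.Agent.Reg4.LatPos

set_option autoImplicit false

open scoped commutatorElement

namespace Pool.Agent.Reg4L

variable {G : Type*} [Group G] {U V : Type*} [AddCommGroup U] [CommGroup V]

/-- left conjugation -/
def cj (g w : G) : G := g * w * g⁻¹

lemma cj_mul (g a b : G) : cj g (a * b) = cj g a * cj g b := by unfold cj; group
lemma cj_inv (g a : G) : cj g a⁻¹ = (cj g a)⁻¹ := by unfold cj; group
lemma cj_mul_left (g h w : G) : cj (g * h) w = cj g (cj h w) := by unfold cj; group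
@[simp] lemma cj_one (g : G) : cj g 1 = 1 := by unfold cj; group
@[simp] lemma cj_one_left (g : G) : cj 1 g = g := by unfold cj; group
lemma cj_inv_cj (g w : G) : cj g⁻¹ (cj g w) = w := by unfold cj; group
lemma cj_cj_inv (g w : G) : cj g (cj g⁻¹ w) = w := by unfold cj; group
lemma cj_of_comm {g w : G} (h : g * w = w * g) : cj g w = w := by unfold cj; rw [h]; group

lemma Act.cj_eq {W : Subgroup G} {g h : G} (a : Act W g h) {w : G} (hw : w ∈ W) :
    cj g w = cj h w := a.eq w hw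

lemma Act.cj_mem {W : Subgroup G} {g h : G} (a : Act W g h) {w : G} (hw : w ∈ W) :
    cj g w ∈ W := Act.mem_conj a.memL hw

namespace Lat

variable (L : Lat U V G)

lemma cjL {x y : U} (t : V) {w : G} (hw : w ∈ L.W x y) : cj (L.v x t) w ∈ L.W x y :=
  Act.mem_conj (L.normL x y t) hw

lemma cjR {x y : U} (t : V) {w : G} (hw : w ∈ L.W x y) : cj (L.v y t) w ∈ L.W x y :=
  Act.mem_conj (L.normR x y t) hw

/-- exact form of (F1) -/
lemma F1 (x h : U) (r s t : V) :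
    cj (L.v (x + h) t * L.v (x + h + L.J h) t * L.v (x + h) t)
        ⁅L.v (x + h) (L.K r)⁻¹, L.v (x + h + L.J h) s⁆ *
      cj (L.v (x + h) (L.K t)⁻¹) ⁅L.v x r, L.v (x + h) (L.K s)⁆ =
    cj (L.v (x + h) t) ⁅L.v (x + h) (L.K r)⁻¹, L.v (x + h + L.J h) s⁆ *
      cj (L.v x (L.K t)) ⁅L.v x r, L.v (x + h) (L.K s)⁆ := by
  have he := L.mem_W x (x + h) r (L.K s)
  have hf := L.mem_W (x + h) (x + h + L.J h) (L.K r)⁻¹ s
  have hc := L.mem_W x (x + (h + L.J h)) r s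
  have a := (L.actR x (h + L.J h) t).cj_eq hc
  have e0 : x + (h + L.J h) = x + h + L.J h := by abel
  have e1 : x + -(L.J (h + L.J h)) = x + h + -(L.J h) := by
    rw [map_add, L.JJ]; abel
  rw [e0, e1, L.D1, cj_mul, cj_mul] at a
  have b1 := (L.actNeg (x + h) (L.J h) t).cj_eq hf
  have b2 := (L.actR' x h t).cj_eq he
  have b3 := (L.actL (x + h) (L.J h) (L.K t)).cj_eq hf
  have e2 : x + h + L.J (L.J h) = x := by rw [L.JJ]; abel
  rw [e2, L.KK, inv_inv] at b3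
  rw [b1, b2, b3] at a
  exact a

/-- exact form of (F2) -/
lemma F2 (x h : U) (r s q : V) :
    cj (L.v (x + h) (L.K q)⁻¹) ⁅L.v (x + h) (L.K r)⁻¹, L.v (x + h + L.J h) s⁆ *
      cj (L.v x q) ⁅L.v x r, L.v (x + h) (L.K s)⁆ =
    cj ((L.v (x + h + L.J h) q * L.v (x + h + L.J h) q *
        (L.v (x + h + L.J h) (L.K q) * L.v (x + h) (L.K q) * L.v (x + h + L.J h) (L.K q)))⁻¹ *
        L.v (x + h + L.J h) (L.K q) * (L.v (x + h) (L.K q))⁻¹)
        ⁅L.v (x + h) (L.K r)⁻¹, L.v (x + h + L.J h) s⁆ *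
      cj ((L.v x q⁻¹ * L.v (x + h) q⁻¹ * L.v x q⁻¹)⁻¹ * L.v x (L.K q) * L.v x (L.K q))
        ⁅L.v x r, L.v (x + h) (L.K s)⁆ := by
  have he := L.mem_W x (x + h) r (L.K s)
  have hf := L.mem_W (x + h) (x + h + L.J h) (L.K r)⁻¹ s
  have hc := L.mem_W x (x + (h + L.J h)) r s
  have a := (L.actL x (h + L.J h) (L.K q)).cj_eq hc
  have e0 : x + (h + L.J h) = x + h + L.J h := by abel
  have e1 : x + L.J (h + L.J h) = x + L.J h + -h := by
    rw [map_add, L.JJ]; abel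
  rw [e0, e1, L.KK, inv_inv, L.D1, cj_mul, cj_mul] at a
  have b1 := (L.actNNE (x + h) (L.J h) q).cj_eq hf
  have e3 : x + h + L.J h + L.J (L.J h) + L.J (L.J h) = x + L.J h + -h := by
    rw [L.JJ]; abel
  rw [e3] at b1
  have b2 := (L.actNW x h (L.K q)).cj_eq he
  rw [L.KK] at b2
  have b3 := (L.actL (x + h) (L.J h) q).cj_eq hf
  have e2 : x + h + L.J (L.J h) = x := by rw [L.JJ]; abel
  rw [e2] at b3
  rw [b1, b2, b3] at a
  exact a.symm

/-- the central intersection of a square -/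
def Z (x h : U) : Subgroup G := L.H x h ⊓ L.H (x + h) (L.J h)

lemma Z_comm1 {x h : U} {z a : G} (hz : z ∈ L.Z x h) (ha : a ∈ L.H x h) : z * a = a * z :=
  (L.HH_comm x h ha hz.2).symm

lemma Z_comm2 {x h : U} {z a : G} (hz : z ∈ L.Z x h) (ha : a ∈ L.H (x + h) (L.J h)) :
    z * a = a * z :=
  L.HH_comm x h hz.1 ha

lemma Z_cj0 {x h : U} {z : G} (t : V) (hz : z ∈ L.Z x h) : cj (L.v x t) z ∈ L.Z x h := by
  refine ⟨L.conj0 x h t hz.1, ?_⟩
  have := L.conj3 (x + h) (L.J h) t hz.2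
  have e : x + h + L.J (L.J h) = x := by rw [L.JJ]; abel
  rwa [e] at this

lemma Z_cj1 {x h : U} {z : G} (t : V) (hz : z ∈ L.Z x h) : cj (L.v (x + h) t) z ∈ L.Z x h :=
  ⟨L.conj1 x h t hz.1, L.conj0 (x + h) (L.J h) t hz.2⟩

/-- congruence modulo `Z` -/
def EqZ (x h : U) (a b : G) : Prop := a * b⁻¹ ∈ L.Z x h

variable {L}

lemma EqZ.symm {x h : U} {a b : G} (hab : L.EqZ x h a b) : L.EqZ x h b a := by
  have := (L.Z x h).inv_mem hab
  simpa [EqZ] using this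

lemma EqZ.trans {x h : U} {a b c : G} (hab : L.EqZ x h a b) (hbc : L.EqZ x h b c) :
    L.EqZ x h a c := by
  have := (L.Z x h).mul_mem hab hbc
  have e : a * b⁻¹ * (b * c⁻¹) = a * c⁻¹ := by group
  rwa [e] at this

lemma EqZ.cj0 {x h : U} {a b : G} (t : V) (hab : L.EqZ x h a b) :
    L.EqZ x h (cj (L.v x t) a) (cj (L.v x t) b) := by
  have := L.Z_cj0 t hab
  rwa [cj_mul, cj_inv] at this

lemma EqZ.cj1 {x h : U} {a b : G} (t : V) (hab : L.EqZ x h a b) :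
    L.EqZ x h (cj (L.v (x + h) t) a) (cj (L.v (x + h) t) b) := by
  have := L.Z_cj1 t hab
  rwa [cj_mul, cj_inv] at this

lemma EqZ.mul {x h : U} {a b c d : G} (hb : b ∈ L.H x h) (hab : L.EqZ x h a b)
    (hcd : L.EqZ x h c d) : L.EqZ x h (a * c) (b * d) := by
  -- a c d⁻¹ b⁻¹ = (a b⁻¹) (b (c d⁻¹) b⁻¹) = (a b⁻¹)(c d⁻¹)
  have h1 := L.Z_comm1 hcd hb
  have : a * c * (b * d)⁻¹ = (a * b⁻¹) * (c * d⁻¹) := by
    calc a * c * (b * d)⁻¹ = a * (c * d⁻¹) * b⁻¹ := by group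
      _ = a * b⁻¹ * (b * (c * d⁻¹)) * b⁻¹ := by group
      _ = (a * b⁻¹) * (c * d⁻¹) := by rw [← h1]; group
  unfold EqZ
  rw [this]
  exact (L.Z x h).mul_mem hab hcd

lemma EqZ.inv {x h : U} {a b : G} (hb : b ∈ L.H x h) (hab : L.EqZ x h a b) :
    L.EqZ x h a⁻¹ b⁻¹ := by
  have h1 := L.Z_comm1 hab hb
  have h2 : a⁻¹ * b⁻¹⁻¹ = (a * b⁻¹)⁻¹ := by
    have : a * b⁻¹ = b⁻¹ * a := by
      calc a * b⁻¹ = b⁻¹ * (b * (a * b⁻¹)) := by group
        _ = b⁻¹ * a := by rw [← h1]; group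
    rw [this]; group
  unfold EqZ
  rw [h2]
  exact (L.Z x h).inv_mem hab

lemma EqZ.refl {x h : U} (a : G) : L.EqZ x h a a := by
  unfold EqZ; rw [mul_inv_cancel]; exact (L.Z x h).one_mem

end Lat
end Pool.Agent.Reg4L
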