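import Pool.Agent.Reg4.Setup

set_option autoImplicit false

namespace Pool.Agent.Reg4

section
variable {G : Type*} [Group G]

/-- an involution yields an involution fixed by `σ`. -/
theorem inv_fix (hG : Monoid.IsTorsion G) (σ : MulAut G) (t : G) (ht : t * t = 1) (ht1 : t ≠ 1)
    (hσ : σ (σ t) = t) : ∃ u : G, u ≠ 1 ∧ u * u = 1 ∧ σ u = u := by
  set w : G := t * σ t with hw
  have htinv : t⁻¹ = t := inv_eq_of_mul_eq_one_left ht
  have hσt : σ t * σ t = 1 := by rw [← map_mul, ht, map_one]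
  have hσtinv : (σ t)⁻¹ = σ t := inv_eq_of_mul_eq_one_left hσt
  have hσw : σ w = w⁻¹ := by
    rw [hw, map_mul, hσ, mul_inv_rev, htinv, hσtinv]
  have htw : t * w * t⁻¹ = w⁻¹ := by
    rw [hw, mul_inv_rev, htinv, hσtinv, ← mul_assoc, ht, one_mul]
  have hfin : IsOfFinOrder w := hG w
  have hpos : 0 < orderOf w := hfin.orderOf_pos
  rcases Nat.even_or_odd (orderOf w) with he | ho
  · obtain ⟨m, hm⟩ := he
    refine ⟨w ^ m, ?_, ?_, ?_⟩
    · intro h1
      have := orderOf_dvd_of_pow_eq_one h1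
      have := Nat.le_of_dvd (by omega) this
      omega
    · rw [← pow_add, ← hm, pow_orderOf_eq_one]
    · rw [map_pow, hσw, inv_pow]
      apply inv_eq_of_mul_eq_one_left
      rw [← pow_add, ← hm, pow_orderOf_eq_one]
  · obtain ⟨m, hm⟩ := ho
    have hwm : w ^ (2 * m + 1) = 1 := by rw [← hm, pow_orderOf_eq_one]
    set y : G := w ^ (m + 1) with hy
    have hyy : y * y = w := by
      rw [hy, ← pow_add, show m + 1 + (m + 1) = (2 * m + 1) + 1 by ring, pow_succ, hwm, one_mul]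
    have hyodd : y ^ (2 * m + 1) = 1 := by rw [hy, ← pow_mul, mul_comm, pow_mul, hwm, one_pow]
    have hσy : σ y = y⁻¹ := by rw [hy, map_pow, hσw, inv_pow]
    have hty : t * y * t⁻¹ = y⁻¹ := by
      rw [hy, ← conj_pow, htw, inv_pow]
    have hty' : t * y = y⁻¹ * t := by rw [← hty]; group
    set x : G := y ^ (m + 1) with hx
    have hxx : x * x = y := by
      rw [hx, ← pow_add, show m + 1 + (m + 1) = (2 * m + 1) + 1 by ring, pow_succ, hyodd, one_mul]
    refine ⟨t * y, ?_, ?_, ?_⟩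
    · intro h1
      have h2 : t = y⁻¹ := eq_inv_of_mul_eq_one_left h1
      have h3 : t ^ (2 * m + 1) = 1 := by rw [h2, inv_pow, hyodd, inv_one]
      rw [pow_succ, pow_mul, pow_two, ht, one_pow, one_mul] at h3
      exact ht1 h3
    · calc t * y * (t * y) = (t * y) * t * y := by group
        _ = y⁻¹ * t * t * y := by rw [hty']
        _ = y⁻¹ * (t * t) * y := by group
        _ = 1 := by rw [ht]; group
    · rw [map_mul, hσy]
      have : σ t = t * y * y := by
        rw [mul_assoc, hyy, hw, ← mul_assoc, ht, one_mul]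
      rw [this]; group

end

section
variable {G : Type*} [Group G] {φ : MulAut G}

theorem four_of_order (h4 : orderOf φ = 4) (g : G) : φ (φ (φ (φ g))) = g := by
  have h : φ ^ 4 = 1 := by rw [← h4]; exact pow_orderOf_eq_one φ
  have : (φ ^ 4) g = g := by rw [h]; rfl
  simpa [pow_succ, MulAut.mul_apply] using this

theorem no_invol (hG : Monoid.IsTorsion G) (h4 : ∀ g : G, φ (φ (φ (φ g))) = g)
    (hreg : ∀ g : G, φ g = g → g = 1) (t : G) (ht : t * t = 1) : t = 1 := by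
  by_contra ht1
  obtain ⟨u, hu1, huu, hu⟩ := inv_fix hG (φ * φ) t ht ht1 (by simpa [MulAut.mul_apply] using h4 t)
  obtain ⟨v, hv1, hvv, hv⟩ := inv_fix hG φ u huu hu1 (by simpa [MulAut.mul_apply] using hu)
  exact hv1 (hreg v hv)

theorem odd_of (hG : Monoid.IsTorsion G) (h4 : ∀ g : G, φ (φ (φ (φ g))) = g)
    (hreg : ∀ g : G, φ g = g → g = 1) (g : G) : ∃ n : ℕ, g ^ (2 * n + 1) = 1 := by
  have hfin : IsOfFinOrder g := hG g
  have hpos : 0 < orderOf g := hfin.orderOf_pos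
  rcases Nat.even_or_odd (orderOf g) with he | ho
  · obtain ⟨m, hm⟩ := he
    have h1 : g ^ m = 1 := no_invol hG h4 hreg (g ^ m) (by
      rw [← pow_add, ← hm, pow_orderOf_eq_one])
    have := Nat.le_of_dvd (by omega) (orderOf_dvd_of_pow_eq_one h1)
    omega
  · obtain ⟨m, hm⟩ := ho
    exact ⟨m, by rw [← hm, pow_orderOf_eq_one]⟩

/-- square roots inside the cyclic group. -/
theorem exists_sqrt (hodd : ∀ g : G, ∃ n : ℕ, g ^ (2 * n + 1) = 1) (g : G) :
    ∃ n : ℕ, g ^ n * g ^ n = g := by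
  obtain ⟨n, hn⟩ := hodd g
  refine ⟨n + 1, ?_⟩
  rw [← pow_add, show n + 1 + (n + 1) = (2 * n + 1) + 1 by ring, pow_succ, hn, one_mul]

theorem C_inv (hodd : ∀ g : G, ∃ n : ℕ, g ^ (2 * n + 1) = 1)
    (hreg : ∀ g : G, φ g = g → g = 1) (c : G) (hc : φ (φ c) = c) : φ c = c⁻¹ := by
  set v : G := c * (φ c)⁻¹ with hv
  have hφv : φ v = v⁻¹ := by
    rw [hv, map_mul, map_inv, hc]; group
  obtain ⟨n, hn⟩ := exists_sqrt hodd v
  set y : G := v ^ n with hy
  have hφy : φ y = y⁻¹ := by rw [hy, map_pow, hφv, inv_pow]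
  have h1 : φ (y⁻¹ * c) = y⁻¹ * c := by
    have h2 : φ c = v⁻¹ * c := by rw [hv]; group
    rw [map_mul, map_inv, hφy, h2, ← hn]; group
  have h3 := hreg _ h1
  have h4 : c = y := by
    have := mul_eq_one_iff_inv_eq.mp h3
    rw [inv_inv] at this
    exact this.symm
  rw [h4, hφy]

theorem reg_of_norm (hodd : ∀ g : G, ∃ n : ℕ, g ^ (2 * n + 1) = 1)
    (h4 : ∀ g : G, φ (φ (φ (φ g))) = g)
    (hreg : ∀ g : G, φ g = g → g = 1) (y : G)
    (hN : y * φ y * φ (φ y) * φ (φ (φ y)) = 1) (g : G) (hg : y * φ g * y⁻¹ = g) : g = 1 := by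
  set z : G := y * φ y with hz
  have hτz : φ (φ z) = z⁻¹ := by
    rw [eq_comm, inv_eq_iff_mul_eq_one, hz, map_mul, map_mul, ← mul_assoc, hN]
  obtain ⟨n, hn⟩ := exists_sqrt hodd z
  set w : G := z ^ n with hw
  have hτw : φ (φ w) = w⁻¹ := by rw [hw, map_pow, map_pow, hτz, inv_pow]
  set y1 : G := w⁻¹ * y * φ w with hy1
  have hφ3w : φ (φ (φ w)) = (φ w)⁻¹ := by rw [hτw, map_inv]
  have hτy1 : φ (φ y1) = y1 := by
    rw [hy1]
    simp only [map_mul, map_inv, hτw, inv_inv]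
    have e1 : w * w * φ (φ y) = y * φ w * φ w := by
      have e2 : φ z = φ y * φ (φ y) := by rw [hz, map_mul]
      calc w * w * φ (φ y) = y * (φ y * φ (φ y)) := by rw [hn, hz]; group
        _ = y * (φ w * φ w) := by rw [← e2, ← map_mul, hn]
        _ = y * φ w * φ w := by group
    calc w * φ (φ y) * (φ w)⁻¹ = w⁻¹ * (w * w * φ (φ y)) * (φ w)⁻¹ := by group
      _ = w⁻¹ * (y * φ w * φ w) * (φ w)⁻¹ := by rw [e1]
      _ = w⁻¹ * y * φ w := by group
  obtain ⟨m, hm⟩ := exists_sqrt hodd y1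
  set c : G := y1 ^ m with hc
  have hτc : φ (φ c) = c := by rw [hc, map_pow, map_pow, hτy1]
  have hφc : φ c = c⁻¹ := C_inv hodd hreg c hτc
  have hh : y = w * c * (φ (w * c))⁻¹ := by
    rw [map_mul, hφc]
    calc y = w * y1 * (φ w)⁻¹ := by rw [hy1]; group
      _ = w * (c * c) * (φ w)⁻¹ := by rw [hm]
      _ = w * c * (φ w * c⁻¹)⁻¹ := by group
  set k : G := w * c with hk
  have h1 : φ (k⁻¹ * g * k) = k⁻¹ * g * k := by
    simp only [map_mul, map_inv]
    calc (φ k)⁻¹ * φ g * φ k = k⁻¹ * (k * (φ k)⁻¹ * φ g * (k * (φ k)⁻¹)⁻¹) * k := by group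
      _ = k⁻¹ * g * k := by rw [← hh, hg]
  have h2 := hreg _ h1
  calc g = k * (k⁻¹ * g * k) * k⁻¹ := by group
    _ = 1 := by rw [h2]; group

theorem split_of (hodd : ∀ g : G, ∃ n : ℕ, g ^ (2 * n + 1) = 1)
    (h4 : ∀ g : G, φ (φ (φ (φ g))) = g)
    (hreg : ∀ g : G, φ g = g → g = 1) (x : G) :
    x * φ x * φ (φ x) * φ (φ (φ x)) = 1 := by
  set N : G := x * φ x * φ (φ x) * φ (φ (φ x)) with hN
  have hcN : x * φ N = N * x := by
    rw [hN]; simp only [map_mul, h4]; group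
  obtain ⟨n, hn⟩ := hodd N
  -- `(2n+1)^2 = 4 k + 1` with `k = n (n+1)`
  set k : ℕ := n * (n + 1) with hk
  have hk4 : N ^ (4 * k + 1) = 1 := by
    rw [show 4 * k + 1 = (2 * n + 1) * (2 * n + 1) by rw [hk]; ring, pow_mul, hn, one_pow]
  have hcNk : x * φ N ^ k = N ^ k * x := by
    have : SemiconjBy x (φ N) N := hcN
    exact (this.pow_right k)
  have e1 : φ x * φ (φ N) ^ k = φ N ^ k * φ x := by
    have := congrArg φ hcNk
    simpa only [map_mul, map_pow] using this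
  have e2 : φ (φ x) * φ (φ (φ N)) ^ k = φ (φ N) ^ k * φ (φ x) := by
    have := congrArg φ e1
    simpa only [map_mul, map_pow] using this
  set y : G := N ^ k * x with hy
  have hNy : y * φ y * φ (φ y) * φ (φ (φ y)) = 1 := by
    rw [hy]
    simp only [map_mul, map_pow]
    calc N ^ k * x * (φ N ^ k * φ x) * (φ (φ N) ^ k * φ (φ x)) *
          (φ (φ (φ N)) ^ k * φ (φ (φ x)))
        = N ^ k * (x * φ N ^ k) * (φ x * φ (φ N) ^ k) * (φ (φ x) * φ (φ (φ N)) ^ k) *
            φ (φ (φ x)) := by group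
      _ = N ^ k * (x * φ N ^ k) * (φ x * φ (φ N) ^ k) * (φ (φ N) ^ k * φ (φ x)) *
            φ (φ (φ x)) := by rw [e2]
      _ = N ^ k * (x * φ N ^ k) * (φ x * φ (φ N) ^ k) * φ (φ N) ^ k * φ (φ x) *
            φ (φ (φ x)) := by group
      _ = N ^ k * (x * φ N ^ k) * (φ N ^ k * φ x) * φ (φ N) ^ k * φ (φ x) *
            φ (φ (φ x)) := by rw [e1]
      _ = N ^ k * (x * φ N ^ k) * φ N ^ k * (φ x * φ (φ N) ^ k) * φ (φ x) *
            φ (φ (φ x)) := by group
      _ = N ^ k * (x * φ N ^ k) * φ N ^ k * (φ N ^ k * φ x) * φ (φ x) *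
            φ (φ (φ x)) := by rw [e1]
      _ = N ^ k * (x * φ N ^ k) * φ N ^ k * φ N ^ k * φ x * φ (φ x) *
            φ (φ (φ x)) := by group
      _ = N ^ k * (N ^ k * x) * φ N ^ k * φ N ^ k * φ x * φ (φ x) *
            φ (φ (φ x)) := by rw [hcNk]
      _ = N ^ k * N ^ k * (x * φ N ^ k) * φ N ^ k * φ x * φ (φ x) *
            φ (φ (φ x)) := by group
      _ = N ^ k * N ^ k * (N ^ k * x) * φ N ^ k * φ x * φ (φ x) *
            φ (φ (φ x)) := by rw [hcNk]
      _ = N ^ k * N ^ k * N ^ k * (x * φ N ^ k) * φ x * φ (φ x) *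
            φ (φ (φ x)) := by group
      _ = N ^ k * N ^ k * N ^ k * (N ^ k * x) * φ x * φ (φ x) *
            φ (φ (φ x)) := by rw [hcNk]
      _ = N ^ k * N ^ k * N ^ k * N ^ k * (x * φ x * φ (φ x) * φ (φ (φ x))) := by group
      _ = N ^ (4 * k + 1) := by
          rw [← hN, ← pow_add, ← pow_add, ← pow_add, ← pow_succ]; congr 1; ring
      _ = 1 := hk4
  apply reg_of_norm hodd h4 hreg y hNy N
  rw [hy]
  calc N ^ k * x * φ N * (N ^ k * x)⁻¹ = N ^ k * (x * φ N) * (N ^ k * x)⁻¹ := by group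
    _ = N ^ k * (N * x) * (N ^ k * x)⁻¹ := by rw [hcN]
    _ = N ^ (k + 1) * (N ^ k)⁻¹ := by rw [pow_succ]; group
    _ = N := by rw [pow_succ']; group

/-- **Part A**: the setup from the hypotheses of the problem. -/
theorem setup_of (hG : Monoid.IsTorsion G) (h4 : orderOf φ = 4)
    (hreg : ∀ g : G, φ g = g → g = 1) : Setup φ := by
  have hf := four_of_order h4
  have hodd := odd_of hG hf hreg
  exact ⟨hodd, hf, split_of hodd hf hreg⟩

end

end Pool.Agent.Reg4
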