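import Pool.Agent.Reg4.Basics

set_option autoImplicit false

namespace Pool.Agent.Reg4

open scoped commutatorElement

/-- the normal closure of `V = ⟨v, φ v⟩` under `U = ⟨u, φ u⟩`. -/
def conjSpan {G : Type*} [Group G] (φ : MulAut G) (u v : G) : Subgroup G :=
  Subgroup.closure {g | ∃ x ∈ Subgroup.closure {u, φ u}, ∃ s ∈ Subgroup.closure {v, φ v},
    g = x * s * x⁻¹}

/-- commutators of `⟨V ^ U⟩` are central in `⟨U, V⟩`. -/
def CommCentral {G : Type*} [Group G] (φ : MulAut G) : Prop :=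
  ∀ u v : G, φ (φ u) = u⁻¹ → φ (φ v) = v⁻¹ →
    ∀ m ∈ conjSpan φ u v, ∀ n ∈ conjSpan φ u v,
      ∀ g ∈ Subgroup.closure {u, φ u} ⊔ Subgroup.closure {v, φ v},
        g * ⁅m, n⁆ = ⁅m, n⁆ * g

section
variable {G : Type*} [Group G] {φ : MulAut G}

theorem V_le_conjSpan {u v : G} : UU φ v ≤ conjSpan φ u v := by
  intro s hs
  exact Subgroup.subset_closure ⟨1, one_mem _, s, hs, by simp⟩

theorem conjSpan_conj {u v x n : G} (hx : x ∈ UU φ u) (hn : n ∈ conjSpan φ u v) :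
    x * n * x⁻¹ ∈ conjSpan φ u v := by
  unfold conjSpan at hn
  induction hn using Subgroup.closure_induction with
  | mem n hn =>
    obtain ⟨y, hy, s, hs, rfl⟩ := hn
    exact Subgroup.subset_closure ⟨x * y, mul_mem hx hy, s, hs, by group⟩
  | one => simp
  | mul a b _ _ h1 h2 =>
    have : x * (a * b) * x⁻¹ = (x * a * x⁻¹) * (x * b * x⁻¹) := by group
    rw [this]; exact mul_mem h1 h2
  | inv a _ h1 =>
    have : x * a⁻¹ * x⁻¹ = (x * a * x⁻¹)⁻¹ := by group
    rw [this]; exact inv_mem h1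

theorem conjSpan_phi {u v n : G} (hu : u ∈ Iset φ) (hv : v ∈ Iset φ)
    (hn : n ∈ conjSpan φ u v) : φ n ∈ conjSpan φ u v := by
  unfold conjSpan at hn
  induction hn using Subgroup.closure_induction with
  | mem n hn =>
    obtain ⟨y, hy, s, hs, rfl⟩ := hn
    rw [map_mul, map_mul, map_inv]
    exact Subgroup.subset_closure ⟨φ y, phi_mem_UU hu hy, φ s, phi_mem_UU hv hs, rfl⟩
  | one => rw [map_one]; exact one_mem _
  | mul a b _ _ h1 h2 => rw [map_mul]; exact mul_mem h1 h2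
  | inv a _ h1 => rw [map_inv]; exact inv_mem h1

/-- the subgroup `⟨U, V⟩`. -/
def MM (φ : MulAut G) (u v : G) : Subgroup G := UU φ u ⊔ UU φ v

theorem U_le_MM {u v : G} : UU φ u ≤ MM φ u v := le_sup_left
theorem V_le_MM {u v : G} : UU φ v ≤ MM φ u v := le_sup_right
theorem MM_comm {u v : G} : MM φ u v = MM φ v u := sup_comm _ _

theorem MM_dec {u v m : G} (hm : m ∈ MM φ u v) :
    ∃ n ∈ conjSpan φ u v, ∃ x ∈ UU φ u, m = n * x := by
  unfold MM at hm
  rw [Subgroup.sup_eq_closure] at hm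
  induction hm using Subgroup.closure_induction with
  | mem m hm =>
    rcases hm with hm | hm
    · exact ⟨1, one_mem _, m, hm, by simp⟩
    · exact ⟨m, V_le_conjSpan hm, 1, one_mem _, by simp⟩
  | one => exact ⟨1, one_mem _, 1, one_mem _, by simp⟩
  | mul a b _ _ h1 h2 =>
    obtain ⟨n, hn, x, hx, rfl⟩ := h1
    obtain ⟨k, hk, y, hy, rfl⟩ := h2
    exact ⟨n * (x * k * x⁻¹), mul_mem hn (conjSpan_conj hx hk), x * y, mul_mem hx hy, by group⟩
  | inv a _ h1 =>
    obtain ⟨n, hn, x, hx, rfl⟩ := h1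
    refine ⟨x⁻¹ * n⁻¹ * x⁻¹⁻¹, conjSpan_conj (inv_mem hx) (inv_mem hn), x⁻¹, inv_mem hx, by group⟩

theorem C_inf_MM_le (h : Setup φ) {u v c : G} (hu : u ∈ Iset φ) (hv : v ∈ Iset φ)
    (hc : c ∈ Csub φ) (hm : c ∈ MM φ u v) : c ∈ conjSpan φ u v := by
  obtain ⟨n, hn, x, hx, rfl⟩ := MM_dec hm
  have hxI : φ (φ x) = x⁻¹ := UU_sub_I h hu hx
  rw [mem_Csub, map_mul, map_mul, hxI] at hc
  have h1 : x * x = n⁻¹ * φ (φ n) := by
    calc x * x = n⁻¹ * (n * x) * x := by group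
      _ = n⁻¹ * (φ (φ n) * x⁻¹) * x := by rw [hc]
      _ = n⁻¹ * φ (φ n) := by group
  have h2 : x * x ∈ conjSpan φ u v := by
    rw [h1]
    exact mul_mem (inv_mem hn) (conjSpan_phi hu hv (conjSpan_phi hu hv hn))
  exact mul_mem hn (pow_mem_of_sq h h2)

theorem MM_phi {u v m : G} (hu : u ∈ Iset φ) (hv : v ∈ Iset φ) (hm : m ∈ MM φ u v) :
    φ m ∈ MM φ u v := by
  unfold MM at hm
  rw [Subgroup.sup_eq_closure] at hm
  induction hm using Subgroup.closure_induction with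
  | mem m hm =>
    rcases hm with hm | hm
    · exact U_le_MM (phi_mem_UU hu hm)
    · exact V_le_MM (phi_mem_UU hv hm)
  | one => rw [map_one]; exact one_mem _
  | mul a b _ _ h1 h2 => rw [map_mul]; exact mul_mem h1 h2
  | inv a _ h1 => rw [map_inv]; exact inv_mem h1

theorem ip_mem_of (h : Setup φ) {M : Subgroup G} (hM : ∀ m ∈ M, φ m ∈ M) {g : G} (hg : g ∈ M) :
    ip h g ∈ M ∧ cp h g ∈ M := by
  set w : G := g * (φ (φ g))⁻¹ with hw
  have hwM : w ∈ M := mul_mem hg (inv_mem (hM _ (hM _ hg)))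
  have hτw : φ (φ w) = w⁻¹ := by
    rw [hw]; simp only [map_mul, map_inv, h.four]; group
  obtain ⟨n, hn⟩ := exists_sqrt h.odd w
  have hzM : w ^ n ∈ M := pow_mem hwM n
  set z : G := w ^ n with hz
  have hτz : φ (φ z) = z⁻¹ := by rw [hz, map_pow, map_pow, hτw, inv_pow]
  have hc : φ (φ (z⁻¹ * g)) = z⁻¹ * g := by
    have h1 : φ (φ g) = w⁻¹ * g := by rw [hw]; group
    rw [map_mul, map_mul, map_inv, map_inv, hτz, h1, ← hn]; group
  obtain ⟨h1, h2⟩ := ipcp_unique h (g := g) (z := z) (c := z⁻¹ * g) hτz hc (by group)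
  rw [h1, h2]
  exact ⟨hzM, mul_mem (inv_mem hzM) hg⟩

end

section
variable {G : Type*} [Group G] {φ : MulAut G} [hS : Fact (Setup φ)]

theorem oo_mem_MM {u v a b : G} (hu : u ∈ Iset φ) (hv : v ∈ Iset φ) (ha : a ∈ MM φ u v)
    (hb : b ∈ MM φ u v) : oo φ a b ∈ MM φ u v ∧ ((gam φ a b).toMul : G) ∈ MM φ u v :=
  ip_mem_of hS.out (fun _ hm => MM_phi hu hv hm) (mul_mem ha hb)

theorem gam_mem_span {u v a b : G} (hu : u ∈ Iset φ) (hv : v ∈ Iset φ) (ha : a ∈ MM φ u v)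
    (hb : b ∈ MM φ u v) : ((gam φ a b).toMul : G) ∈ conjSpan φ u v :=
  C_inf_MM_le hS.out hu hv (gam φ a b).toMul.2 (oo_mem_MM hu hv ha hb).2

theorem cj_cj_neg (g : Additive (Csub φ)) (x : G) : cj g (cj (-g) x) = x := by
  simp only [cj, toMul_neg, Subgroup.coe_inv]; group

/-- `γ(b ∘ a, x) = γ(a ∘ b, x)` for `a, b ∈ I ∩ ⟨U, V⟩` and `x ∈ V`. -/
theorem gam_left_comm (hC : CommCentral φ) {u v a b x : G} (hu : u ∈ Iset φ) (hv : v ∈ Iset φ)
    (ha : a ∈ MM φ u v) (hb : b ∈ MM φ u v) (haI : a ∈ Iset φ) (hbI : b ∈ Iset φ)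
    (hx : x ∈ UU φ v) : gam φ (oo φ b a) x = gam φ (oo φ a b) x := by
  set g := gam φ a b with hg
  have hgN : (g.toMul : G) ∈ conjSpan φ u v := gam_mem_span hu hv ha hb
  have hxN : x ∈ conjSpan φ u v := V_le_conjSpan hx
  have hxI : x ∈ Iset φ := UU_sub_I hS.out hv hx
  -- `e = [g, x]`
  set e : G := ⁅(g.toMul : G), x⁆ with he
  have hcen : ∀ m ∈ MM φ u v, m * e = e * m := fun m hm =>
    hC u v hu hv _ hgN _ hxN m hm
  have hcj : cj g x = e * x := by rw [he, commutatorElement_def]; simp only [cj]; group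
  have heI : e ∈ Iset φ := by
    have h1 : e = cj g x * x⁻¹ := by rw [hcj]; group
    have h2 : φ (φ (cj g x)) = (cj g x)⁻¹ := cj_mem g hxI
    have h3 : x * e = e * x := hcen x (V_le_MM hx)
    rw [mem_Iset] at *
    rw [h1, map_mul, map_mul, map_inv, map_inv, h2, hxI, inv_inv, hcj]
    calc (e * x)⁻¹ * x = (x * e)⁻¹ * x := by rw [h3]
      _ = e⁻¹ * x⁻¹ * x := by group
      _ = (e * x * x⁻¹)⁻¹ := by group
  have h1 := (oo_gam_swap haI hbI).1
  have h2 := (oo_gam_conj (-g) (oo φ a b) (cj g x)).2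
  have h3 : cj (-g) (cj g x) = x := by
    have := cj_cj_neg (-g) x
    rwa [neg_neg] at this
  rw [h3, ← h1] at h2
  rw [h2, hcj]
  have ho := oo_mem_MM hu hv ha hb
  set y := oo φ a b with hy
  have h4 := mul_eq_oo (φ := φ) y x
  have h5 := hcen y ho.1
  have hyxM := (oo_mem_MM hu hv ho.1 (V_le_MM hx)).1
  have h6 : e * oo φ y x ∈ Iset φ := by
    have h7 : φ (φ (oo φ y x)) = (oo φ y x)⁻¹ := oo_mem y x
    rw [mem_Iset] at *
    rw [map_mul, map_mul, h7, heI, ← mul_inv_rev, hcen _ hyxM]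
  have h8 : y * (e * x) = (e * oo φ y x) * ((gam φ y x).toMul : G) := by
    calc y * (e * x) = (y * e) * x := by group
      _ = e * (y * x) := by rw [h5]; group
      _ = _ := by rw [h4]; group
  exact (oo_unique h6 h8).2

theorem gam_comm_zero {v b x : G} (hv : v ∈ Iset φ) (hb : b ∈ UU φ v) (hx : x ∈ UU φ v) :
    oo φ b x = b * x ∧ gam φ b x = 0 :=
  oo_unique (c := 1) (UU_sub_I hS.out hv (mul_mem hb hx)) (by simp)

theorem add_self_zero {y : Additive (Csub φ)} (hy : y + y = 0) : y = 0 := by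
  have h1 : (y.toMul : G) * (y.toMul : G) = 1 * 1 := by
    have h2 := congrArg (fun z : Additive (Csub φ) => (z.toMul : G)) hy
    simpa using h2
  have h3 := hS.out.sq_inj h1
  exact Additive.toMul.injective (Subtype.ext h3)

theorem gam_additive (hC : CommCentral φ) {u v a b x : G} (hu : u ∈ Iset φ) (hv : v ∈ Iset φ)
    (ha : a ∈ UU φ u) (hb : b ∈ UU φ v) (hx : x ∈ UU φ v) :
    gam φ (oo φ b a) x = gam φ a x ∧ gam φ (oo φ a b) x = gam φ a x ∧
      gam φ a (b * x) = gam φ a b + gam φ a x := by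
  have haI : a ∈ Iset φ := UU_sub_I hS.out hu ha
  have hbI : b ∈ Iset φ := UU_sub_I hS.out hv hb
  have hxI : x ∈ Iset φ := UU_sub_I hS.out hv hx
  have haM : a ∈ MM φ u v := U_le_MM ha
  have hbM : b ∈ MM φ u v := V_le_MM hb
  have hxM : x ∈ MM φ u v := V_le_MM hx
  have hbx := gam_comm_zero hv hb hx
  have hxb := gam_comm_zero hv hx hb
  have hS3 : ∃ S : G → G → G → Additive (Csub φ), ∀ p q r : G,
      S p q r = gam φ (oo φ q p) r - gam φ q r - gam φ p r := ⟨fun _ _ _ => _, fun _ _ _ => rfl⟩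
  obtain ⟨S, hSd⟩ := hS3
  have s13 : ∀ p q r : G, p ∈ Iset φ → q ∈ Iset φ → r ∈ Iset φ → S p q r = - S r q p := by
    intro p q r hp hq hr
    have h1 := coc (x := r) hp hq
    have h2 := (oo_gam_swap (oo_mem (φ := φ) q r) hp).2
    have h3 := (oo_gam_swap hq hp).2
    have h4 := (oo_gam_swap hr hp).2
    rw [hSd, hSd, h1, h2, h3, h4]; abel
  have e1 : gam φ (oo φ b a) x = gam φ (oo φ a b) x := gam_left_comm hC hu hv haM hbM haI hbI hx
  have e3 : gam φ (oo φ a x) b = gam φ (oo φ x a) b := gam_left_comm hC hu hv hxM haM hxI haI hb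
  have e6 : oo φ x b = oo φ b x := by rw [hxb.1, hbx.1]; exact UU_comm hS.out hv hx hb
  have t1 : S a b x = S b a x := by rw [hSd, hSd, e1]; abel
  have t2 : S b a x = - S x a b := s13 _ _ _ hbI haI hxI
  have t3 : S x a b = S a x b := by rw [hSd, hSd, e3]; abel
  have t4 : S a x b = - S b x a := s13 _ _ _ haI hxI hbI
  have t5 : S b x a = S x b a := by rw [hSd, hSd, e6]; abel
  have t6 : S x b a = - S a b x := s13 _ _ _ hxI hbI haI
  have t7 : S a b x = - S a b x := by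
    calc S a b x = S x b a := by rw [t1, t2, t3, t4, neg_neg, t5]
      _ = - S a b x := t6
  have t8 : S a b x = 0 := add_self_zero (by
    calc S a b x + S a b x = S a b x + - S a b x := by rw [← t7]
      _ = 0 := add_neg_cancel _)
  have t9 : gam φ (oo φ b a) x = gam φ a x := by
    rw [hSd, hbx.2, sub_zero] at t8
    exact sub_eq_zero.mp t8
  refine ⟨t9, by rw [← e1, t9], ?_⟩
  have h1 := coc (x := x) haI hbI
  rw [hbx.2, t9, hbx.1, sub_zero] at h1
  rw [h1]; abel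

/-- **Part C**: `CommCentral` implies `(**)`. -/
theorem gam_star_of (hC : CommCentral φ) {a c : G} (ha : a ∈ Iset φ) (hc : c ∈ Iset φ) :
    gam φ (φ a) c = gam φ a (φ c) := by
  -- `c = b * φ b` with `b ∈ ⟨c, φ c⟩`
  obtain ⟨n, hn⟩ := exists_sqrt hS.out.odd c
  have hcU := mem_UU_self (φ := φ) c
  have haU := mem_UU_self (φ := φ) a
  have haU' := phi_mem_UU_self (φ := φ) a
  set r : G := c ^ n with hr
  have hrU : r ∈ UU φ c := pow_mem hcU n
  have hrI : φ (φ r) = r⁻¹ := UU_sub_I hS.out hc hrU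
  have hJrU : φ r ∈ UU φ c := phi_mem_UU hc hrU
  set b : G := r * (φ r)⁻¹ with hb
  have hbU : b ∈ UU φ c := mul_mem hrU (inv_mem hJrU)
  have hbI : b ∈ Iset φ := UU_sub_I hS.out hc hbU
  have hJbU : φ b ∈ UU φ c := phi_mem_UU hc hbU
  have hbc : b * φ b = c := by
    have h1 : φ b = φ r * r := by rw [hb, map_mul, map_inv, hrI, inv_inv]
    rw [h1, hb]
    calc r * (φ r)⁻¹ * (φ r * r) = r * r := by group
      _ = c := hn
  have hJc : φ c = φ b * b⁻¹ := by
    have h2 : φ (φ b) = b⁻¹ := hbI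
    rw [← hbc, map_mul, h2]
  -- the identity `γ(a, c ∘ Ja) = 2 γ(a, b) + γ(Ja, c)`
  have hJaI := Iset_phi ha
  have hJbI := Iset_phi hbI
  have hbb := gam_comm_zero hc hbU hJbU
  have hbb' := gam_comm_zero hc hJbU hbU
  have hz : gam φ (oo φ b a) (oo φ (φ b) (φ a)) = 0 := by
    have h1 := (oo_gam_phi (φ := φ) (x := b) (y := a)).1
    rw [h1]
    set z := oo φ b a with hzd
    have hzI : z ∈ Iset φ := oo_mem b a
    exact (gam_comm_zero hzI (mem_UU_self z) (phi_mem_UU_self z)).2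
  have h1 := coc (x := oo φ (φ b) (φ a)) ha hbI
  have h2 : oo φ b (oo φ (φ b) (φ a)) = oo φ c (φ a) := by
    have h3 := (oo_assoc (φ := φ) (a := b) (b := φ b) (x := φ a)).1
    rw [hbb.2, cj_zero, hbb.1, hbc] at h3
    exact h3.symm
  have h3 : gam φ b (oo φ (φ b) (φ a)) = gam φ c (φ a) + gam φ b a := by
    have h4 := coc (x := φ a) hbI hJbI
    have h5 : oo φ (φ b) b = c := by
      rw [hbb'.1, UU_comm hS.out hc hJbU hbU, hbc]
    rw [h5, hbb.2, (oo_gam_phi (φ := φ) (x := b) (y := a)).2] at h4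
    rw [sub_zero, sub_neg_eq_add] at h4
    exact h4.symm
  rw [hz, h2, h3] at h1
  have h4 : gam φ c (φ a) = - gam φ (φ a) c := (oo_gam_swap hJaI hc).2
  have h5 : gam φ b a = - gam φ a b := (oo_gam_swap ha hbI).2
  have h6 : gam φ a (oo φ c (φ a)) = gam φ a c := by
    have h7 := (oo_gam_swap (oo_mem (φ := φ) c (φ a)) ha).2
    have h8 := (gam_additive hC hc ha hcU haU' haU).2.1
    have h9 := (oo_gam_swap hc ha).2
    rw [h7, h8, h9]
  have h7 : gam φ a c = gam φ a b + gam φ a (φ b) := by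
    have := (gam_additive hC ha hc haU hbU hJbU).2.2
    rwa [hbc] at this
  have h8 : gam φ a (φ c) = gam φ a (φ b) - gam φ a b := by
    have h9 := (gam_additive hC ha hc haU hJbU (inv_mem hbU)).2.2
    have h10 := (gam_additive hC ha hc haU hbU (inv_mem hbU)).2.2
    rw [mul_inv_cancel, (gam_one_right ha).2] at h10
    rw [← hJc] at h9
    have h11 : gam φ a b⁻¹ = - gam φ a b := (neg_eq_of_add_eq_zero_right h10.symm).symm
    rw [h9, h11]; abel
  rw [h4, h5, h6] at h1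
  -- `0 - (-γ(Ja,c) - γ(a,b)) = γ(a,c) - γ(a,b)`
  have h9 : gam φ (φ a) c = (0 - (-gam φ (φ a) c + -gam φ a b)) - gam φ a b := by abel
  rw [h9, h1, h8, h7]; abel

end

/-- `CommCentral` gives `(**)`. -/
theorem starStar_of {G : Type*} [Group G] {φ : MulAut G} (h : Setup φ) (hC : CommCentral φ) :
    StarStar φ := by
  haveI : Fact (Setup φ) := ⟨h⟩
  intro a b ha hb
  have h1 := gam_star_of hC (a := a) (c := b) ha hb
  refine ⟨oo φ (φ a) b, oo φ a (φ b), ((gam φ a (φ b)).toMul : G), oo_mem _ _, oo_mem _ _,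
    (gam φ a (φ b)).toMul.2, ?_, mul_eq_oo _ _⟩
  rw [← h1]; exact mul_eq_oo _ _

end Pool.Agent.Reg4
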