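import Pool.Agent.Reg4.LatN
import Pool.Agent.Reg4.PartC

set_option autoImplicit false

open scoped commutatorElement

namespace Pool.Agent.Reg4

open Pool.Agent.Reg4L

section
variable {G : Type*} [Group G] {φ : MulAut G}

/-- `φ` preserves `⟨u, φ u⟩` -/
lemma clos_phi {u : G} (hu : φ (φ u) = u⁻¹) {x : G} (hx : x ∈ Subgroup.closure {u, φ u}) :
    φ x ∈ Subgroup.closure {u, φ u} := by
  induction hx using Subgroup.closure_induction with
  | mem y hy =>
    rcases hy with rfl | hy
    · exact Subgroup.subset_closure (Or.inr rfl)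
    · rw [Set.mem_singleton_iff.1 hy, hu]
      exact Subgroup.inv_mem _ (Subgroup.subset_closure (Or.inl rfl))
  | one => rw [map_one]; exact Subgroup.one_mem _
  | mul a b _ _ ha hb => rw [map_mul]; exact Subgroup.mul_mem _ ha hb
  | inv a _ ha => rw [map_inv]; exact Subgroup.inv_mem _ ha

lemma phi_comm (h : Setup φ) {u : G} (hu : φ (φ u) = u⁻¹) : u * φ u = φ u * u := by
  have h1 := h.split u
  rw [hu, map_inv] at h1
  -- u * φ u * u⁻¹ * (φ u)⁻¹ = 1
  calc u * φ u = (u * φ u * u⁻¹ * (φ u)⁻¹) * φ u * u := by group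
    _ = φ u * u := by rw [h1, one_mul]

lemma clos_gen_comm (h : Setup φ) {u : G} (hu : φ (φ u) = u⁻¹) :
    ∀ x ∈ ({u, φ u} : Set G), ∀ y ∈ ({u, φ u} : Set G), x * y = y * x := by
  have h1 := phi_comm h hu
  rintro x (rfl | hx) y (rfl | hy)
  · rfl
  · rw [Set.mem_singleton_iff.1 hy]; exact h1
  · rw [Set.mem_singleton_iff.1 hx]; exact h1.symm
  · rw [Set.mem_singleton_iff.1 hx, Set.mem_singleton_iff.1 hy]

lemma clos_comm (h : Setup φ) {u : G} (hu : φ (φ u) = u⁻¹) {x y : G}
    (hx : x ∈ Subgroup.closure {u, φ u}) (hy : y ∈ Subgroup.closure {u, φ u}) :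
    x * y = y * x := by
  have h1 : Subgroup.closure {u, φ u} ≤ Subgroup.centralizer ({u, φ u} : Set G) := by
    rw [Subgroup.closure_le]
    intro a ha
    rw [SetLike.mem_coe, Subgroup.mem_centralizer_iff]
    exact fun b hb => clos_gen_comm h hu b hb a ha
  have h2 : Subgroup.closure {u, φ u} ≤
      Subgroup.centralizer (Subgroup.closure {u, φ u} : Set G) := by
    rw [Subgroup.closure_le]
    intro a ha
    rw [SetLike.mem_coe, Subgroup.mem_centralizer_iff]
    intro b hb
    have := h1 hb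
    rw [Subgroup.mem_centralizer_iff] at this
    exact (this a ha).symm
  have := h2 hy
  rw [Subgroup.mem_centralizer_iff] at this
  exact this x hx

lemma clos_tau (h : Setup φ) {u : G} (hu : φ (φ u) = u⁻¹) {x : G}
    (hx : x ∈ Subgroup.closure {u, φ u}) : φ (φ x) = x⁻¹ := by
  induction hx using Subgroup.closure_induction with
  | mem y hy =>
    rcases hy with rfl | hy
    · exact hu
    · rw [Set.mem_singleton_iff.1 hy, hu, map_inv]
  | one => simp
  | mul a b ha' hb' ha hb =>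
    rw [map_mul, map_mul, ha, hb, mul_inv_rev]
    exact clos_comm h hu (Subgroup.inv_mem _ ha') (Subgroup.inv_mem _ hb')
  | inv a _ ha => rw [map_inv, map_inv, ha]

/-- the basic relation -/
lemma basic_rel (h : Setup φ) {u v : G} (hu : φ (φ u) = u⁻¹) (hv : φ (φ v) = v⁻¹) :
    v * u * φ v * φ u = φ u * φ v * u * v := by
  have h1 := h.split (v * u)
  simp only [map_mul, hu, hv, map_inv] at h1
  calc v * u * φ v * φ u = (v * u * (φ v * φ u) * (v⁻¹ * u⁻¹) * ((φ v)⁻¹ * (φ u)⁻¹)) *
      (φ u * φ v * u * v) := by group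
    _ = _ := by rw [h1, one_mul]

lemma exists_odd_sq (h : Setup φ) {A : Subgroup G} {x : G} (hx : x ∈ A) :
    ∃ y ∈ A, x = y * y ∧ ∃ n : ℕ, y = x ^ n := by
  obtain ⟨n, hn⟩ := h.odd x
  refine ⟨x ^ (n + 1), A.pow_mem hx _, ?_, n + 1, rfl⟩
  rw [← pow_add]
  have : n + 1 + (n + 1) = (2 * n + 1) + 1 := by ring
  rw [this, pow_succ, hn, one_mul]

end

section
variable {G : Type*} [Group G] {φ : MulAut G}

/-- the two commutative groups -/
abbrev UG (φ : MulAut G) (u : G) := ↥(Subgroup.closure {u, φ u})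

/-- `φ` restricted -/
def res (u : G) (hu : φ (φ u) = u⁻¹) : UG φ u →* UG φ u :=
  (φ.toMonoidHom.comp (Subgroup.closure {u, φ u}).subtype).codRestrict _
    (fun x => clos_phi hu x.2)

@[simp] lemma res_coe (u : G) (hu : φ (φ u) = u⁻¹) (x : UG φ u) :
    ((res u hu x : UG φ u) : G) = φ (x : G) := rfl

/-- conjugation hom -/
def cv (v : G) (x : G) : UG φ v →* G :=
  ((MulAut.conj x).toMonoidHom.comp (Subgroup.closure {v, φ v}).subtype)

@[simp] lemma cv_apply (v x : G) (s : UG φ v) : cv (φ := φ) v x s = x * (s : G) * x⁻¹ := rfl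

@[instance_reducible] def ugComm (h : Setup φ) (u : G) (hu : φ (φ u) = u⁻¹) :
    CommGroup (UG φ u) :=
  { (inferInstance : Group (UG φ u)) with
    mul_comm := fun a b => Subtype.ext (clos_comm h hu a.2 b.2) }

/-- the lattice attached to `u, v` -/
def latOf (h : Setup φ) (u v : G) (hu : φ (φ u) = u⁻¹) (hv : φ (φ v) = v⁻¹) :
    letI := ugComm h u hu
    letI := ugComm h v hv
    LatG (Additive (UG φ u)) (UG φ v) G :=
  letI := ugComm h u hu
  letI := ugComm h v hv
  { v := fun x => cv v (x.toMul : G)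
    J := MonoidHom.toAdditive (res u hu)
    K := res v hv
    JJ := by
      intro x
      apply Additive.toMul.injective
      apply Subtype.ext
      exact clos_tau h hu x.toMul.2
    KK := by
      intro s
      apply Subtype.ext
      exact clos_tau h hv s.2
    R := by
      intro x k s
      have h1 := basic_rel h (clos_tau h hu k.toMul.2) (clos_tau h hv s.2)
      have h2 := clos_comm h hu k.toMul.2 (clos_phi hu k.toMul.2)
      show (x.toMul : G) * (s : G) * (x.toMul : G)⁻¹ * (((x.toMul : G) * (k.toMul : G)) *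
          φ (s : G) * ((x.toMul : G) * (k.toMul : G))⁻¹) =
        ((x.toMul : G) * φ (k.toMul : G)) * φ (s : G) * ((x.toMul : G) * φ (k.toMul : G))⁻¹ *
        (((x.toMul : G) * (k.toMul : G) * φ (k.toMul : G)) * (s : G) *
          ((x.toMul : G) * (k.toMul : G) * φ (k.toMul : G))⁻¹)
      generalize (x.toMul : G) = X at *
      generalize (k.toMul : G) = k at *
      generalize (s : G) = s at *
      -- h1 : s * k * φ s * φ k = φ k * φ s * k * s
      calc X * s * X⁻¹ * ((X * k) * φ s * (X * k)⁻¹)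
          = X * (s * k * φ s * φ k) * (φ k)⁻¹ * k⁻¹ * X⁻¹ := by group
        _ = X * (φ k * φ s * k * s) * (φ k)⁻¹ * k⁻¹ * X⁻¹ := by rw [h1]
        _ = (X * φ k) * φ s * ((φ k)⁻¹ * (φ k * k)) * s * (φ k)⁻¹ * k⁻¹ * X⁻¹ := by group
        _ = (X * φ k) * φ s * ((φ k)⁻¹ * (k * φ k)) * s * (φ k)⁻¹ * k⁻¹ * X⁻¹ := by rw [h2]
        _ = _ := by group
    sqV := by
      intro s
      obtain ⟨y, hy, e, -⟩ := exists_odd_sq h s.2
      exact ⟨⟨y, hy⟩, Subtype.ext e⟩
    sqU := by
      intro x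
      -- y with y^2 = x * (J x)⁻¹, then (1+J) y = x
      have hx := x.toMul.2
      have hx' := clos_phi hu hx
      obtain ⟨y, hy, e, n, hn⟩ := exists_odd_sq h ((Subgroup.closure {u, φ u}).mul_mem hx
        ((Subgroup.closure {u, φ u}).inv_mem hx'))
      refine ⟨Additive.ofMul ⟨y, hy⟩, ?_⟩
      apply Additive.toMul.injective
      apply Subtype.ext
      show (x.toMul : G) = y * φ y
      apply h.sq_inj
      have c1 := clos_comm h hu hy (clos_phi hu hy)
      have e2 : φ y * φ y = φ (x.toMul : G) * (x.toMul : G) := by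
        rw [← map_mul, ← e, map_mul, map_inv, clos_tau h hu hx, inv_inv]
      have c2 := clos_comm h hu hx hx'
      calc (x.toMul : G) * (x.toMul : G)
          = ((x.toMul : G) * (φ (x.toMul : G))⁻¹) * (φ (x.toMul : G) * (x.toMul : G)) := by group
        _ = (y * y) * (φ y * φ y) := by rw [e, e2]
        _ = y * (y * φ y) * φ y := by group
        _ = y * (φ y * y) * φ y := by rw [c1]
        _ = y * φ y * (y * φ y) := by group
    i := fun x => (x.toMul : G)
    i_add := fun x y => rfl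
    tr := by
      intro x y s
      show (x.toMul : G) * ((y.toMul : G) * (s : G) * (y.toMul : G)⁻¹) * (x.toMul : G)⁻¹ =
        ((x.toMul : G) * (y.toMul : G)) * (s : G) * ((x.toMul : G) * (y.toMul : G))⁻¹
      group
    oddU := by
      intro x
      obtain ⟨n, hn⟩ := h.odd (x.toMul : G)
      refine ⟨n, ?_⟩
      apply Additive.toMul.injective
      apply Subtype.ext
      exact hn
    no2 := by
      intro g hg
      apply h.sq_inj
      rw [hg, one_mul] }

lemma clos_form (h : Setup φ) {u : G} (hu : φ (φ u) = u⁻¹) {x : G}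
    (hx : x ∈ Subgroup.closure {u, φ u}) : ∃ a b : ℤ, x = u ^ a * φ u ^ b := by
  have hc : Commute u (φ u) := phi_comm h hu
  induction hx using Subgroup.closure_induction with
  | mem y hy =>
    rcases hy with rfl | hy
    · exact ⟨1, 0, by simp⟩
    · exact ⟨0, 1, by rw [Set.mem_singleton_iff.1 hy]; simp⟩
  | one => exact ⟨0, 0, by simp⟩
  | mul y z _ _ ihy ihz =>
    obtain ⟨a1, b1, rfl⟩ := ihy
    obtain ⟨a2, b2, rfl⟩ := ihz
    refine ⟨a1 + a2, b1 + b2, ?_⟩
    have h1 : φ u ^ b1 * u ^ a2 = u ^ a2 * φ u ^ b1 := ((hc.zpow_zpow a2 b1).eq).symm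
    calc u ^ a1 * φ u ^ b1 * (u ^ a2 * φ u ^ b2)
        = u ^ a1 * (φ u ^ b1 * u ^ a2) * φ u ^ b2 := by group
      _ = _ := by rw [h1, zpow_add, zpow_add]; group
  | inv y _ ihy =>
    obtain ⟨a1, b1, rfl⟩ := ihy
    refine ⟨-a1, -b1, ?_⟩
    have h1 : φ u ^ (-b1) * u ^ (-a1) = u ^ (-a1) * φ u ^ (-b1) :=
      ((hc.zpow_zpow (-a1) (-b1)).eq).symm
    rw [mul_inv_rev, ← zpow_neg, ← zpow_neg, h1]

theorem comm_central (h : Setup φ) : CommCentral φ := by
  intro u v hu hv m hm n hn g hg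
  let _ := ugComm h u hu
  let _ := ugComm h v hv
  have hui : u ∈ Subgroup.closure {u, φ u} := Subgroup.subset_closure (Or.inl rfl)
  let L := latOf h u v hu hv
  let U0 : Additive (UG φ u) := Additive.ofMul ⟨u, hui⟩
  have hgen : ∀ x : Additive (UG φ u), ∃ a b : ℤ, x = a • U0 + b • L.J U0 := by
    intro x
    obtain ⟨a, b, e⟩ := clos_form h hu x.toMul.2
    refine ⟨a, b, ?_⟩
    apply Additive.toMul.injective
    apply Subtype.ext
    exact e
  have hN : ∀ m ∈ conjSpan φ u v, m ∈ L.N0 U0 := by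
    intro m hm
    unfold conjSpan at hm
    have : Subgroup.closure {g | ∃ x ∈ Subgroup.closure {u, φ u},
        ∃ s ∈ Subgroup.closure {v, φ v}, g = x * s * x⁻¹} ≤ L.N0 U0 := by
      rw [Subgroup.closure_le]
      rintro _ ⟨x, hx, s, hs, rfl⟩
      exact L.v_mem_N0 hgen (Additive.ofMul ⟨x, hx⟩) ⟨s, hs⟩
    exact this hm
  have hz := L.thmN hgen (hN m hm) (hN n hn)
  rw [LatG.mem_Zp] at hz
  obtain ⟨h1, h2⟩ := hz
  have h3 : Subgroup.closure {u, φ u} ⊔ Subgroup.closure {v, φ v} ≤
      Subgroup.centralizer {⁅m, n⁆} := by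
    apply sup_le
    · intro x hx
      rw [Subgroup.mem_centralizer_iff]
      rintro _ rfl
      exact (h1 (Additive.ofMul ⟨x, hx⟩)).eq.symm
    · intro s hs
      rw [Subgroup.mem_centralizer_iff]
      rintro _ rfl
      have h4 : (1 : G) * s * 1⁻¹ * ⁅m, n⁆ = ⁅m, n⁆ * ((1 : G) * s * 1⁻¹) := (h2 ⟨s, hs⟩).eq
      simp only [one_mul, inv_one, mul_one] at h4
      exact h4.symm
  have h5 := h3 hg
  rw [Subgroup.mem_centralizer_iff] at h5
  exact (h5 _ rfl).symm

end
end Pool.Agent.Reg4
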