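import Pool.Agent.Reg4.PartA

set_option autoImplicit false

namespace Pool.Agent.Reg4

open scoped commutatorElement

section
variable {G : Type*} [Group G] {φ : MulAut G}

theorem Setup.sq_inj (h : Setup φ) {a b : G} (hab : a * a = b * b) : a = b := by
  obtain ⟨n, hn⟩ := h.odd a
  obtain ⟨m, hm⟩ := h.odd b
  have ha : a ^ (2 * (2 * n * m + n + m) + 1) = 1 := by
    rw [show 2 * (2 * n * m + n + m) + 1 = (2 * n + 1) * (2 * m + 1) by ring, pow_mul, hn,
      one_pow]
  have hb : b ^ (2 * (2 * n * m + n + m) + 1) = 1 := by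
    rw [show 2 * (2 * n * m + n + m) + 1 = (2 * m + 1) * (2 * n + 1) by ring, pow_mul, hm,
      one_pow]
  set k := 2 * n * m + n + m
  have h1 : ∀ x : G, x ^ (2 * k + 1) = 1 → x = (x * x) ^ (k + 1) := by
    intro x hx
    have : (x * x) ^ (k + 1) = x ^ (2 * k + 1) * x := by
      rw [← pow_two, ← pow_mul, ← pow_succ]; congr 1
    rw [this, hx, one_mul]
  rw [h1 a ha, h1 b hb, hab]

theorem Setup.exists_dec (h : Setup φ) (g : G) :
    ∃ p : G × G, φ (φ p.1) = p.1⁻¹ ∧ φ (φ p.2) = p.2 ∧ g = p.1 * p.2 := by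
  set u : G := g * (φ (φ g))⁻¹ with hu
  have hτu : φ (φ u) = u⁻¹ := by
    rw [hu]; simp only [map_mul, map_inv, h.four]; group
  obtain ⟨n, hn⟩ := exists_sqrt h.odd u
  set z : G := u ^ n with hz
  have hτz : φ (φ z) = z⁻¹ := by rw [hz, map_pow, map_pow, hτu, inv_pow]
  refine ⟨(z, z⁻¹ * g), hτz, ?_, by simp⟩
  show φ (φ (z⁻¹ * g)) = z⁻¹ * g
  have h1 : φ (φ g) = u⁻¹ * g := by rw [hu]; group
  rw [map_mul, map_mul, map_inv, map_inv, hτz, h1, ← hn]; group

theorem Setup.dec_unique (h : Setup φ) {z c z' c' : G} (hz : φ (φ z) = z⁻¹) (hc : φ (φ c) = c)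
    (hz' : φ (φ z') = z'⁻¹) (hc' : φ (φ c') = c') (he : z * c = z' * c') : z = z' ∧ c = c' := by
  have h1 : z⁻¹ * c = z'⁻¹ * c' := by
    have := congrArg (fun x => φ (φ x)) he
    simpa [hz, hc, hz', hc'] using this
  have h2 : z * z = z' * z' := by
    calc z * z = (z * c) * (z⁻¹ * c)⁻¹ := by group
      _ = (z' * c') * (z'⁻¹ * c')⁻¹ := by rw [he, h1]
      _ = z' * z' := by group
  have h3 := h.sq_inj h2
  subst h3
  exact ⟨rfl, mul_left_cancel he⟩

theorem Setup.C_inv (h : Setup φ) {c : G} (hc : φ (φ c) = c) : φ c = c⁻¹ := by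
  have h1 := h.split c
  rw [hc] at h1
  have h2 : (c * φ c) * (c * φ c) = 1 * 1 := by rw [one_mul, ← h1]; group
  have h3 := h.sq_inj h2
  exact (inv_eq_of_mul_eq_one_right h3).symm

theorem Setup.C_comm (h : Setup φ) {c d : G} (hc : φ (φ c) = c) (hd : φ (φ d) = d) :
    c * d = d * c := by
  have h1 : φ (c * d) = (c * d)⁻¹ := h.C_inv (by rw [map_mul, map_mul, hc, hd])
  rw [map_mul, h.C_inv hc, h.C_inv hd] at h1
  have h2 := congrArg (fun x => x⁻¹) h1
  simp only [mul_inv_rev, inv_inv] at h2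
  exact h2.symm

/-- the centraliser of `φ ^ 2`. -/
def Csub (φ : MulAut G) : Subgroup G where
  carrier := {c | φ (φ c) = c}
  mul_mem' := by
    intro a b ha hb
    simp only [Set.mem_ofPred_eq, map_mul] at *
    rw [ha, hb]
  one_mem' := by simp
  inv_mem' := by
    intro a ha
    simp only [Set.mem_ofPred_eq, map_inv] at *
    rw [ha]

theorem mem_Csub {c : G} : c ∈ Csub φ ↔ φ (φ c) = c := Iff.rfl

/-- the elements inverted by `φ ^ 2`. -/
def Iset (φ : MulAut G) : Set G := {z | φ (φ z) = z⁻¹}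

theorem mem_Iset {z : G} : z ∈ Iset φ ↔ φ (φ z) = z⁻¹ := Iff.rfl

theorem Iset_inv {z : G} (hz : z ∈ Iset φ) : z⁻¹ ∈ Iset φ := by
  rw [mem_Iset] at *; rw [map_inv, map_inv, hz]

theorem Iset_one : (1 : G) ∈ Iset φ := by rw [mem_Iset]; simp

theorem Iset_phi {z : G} (hz : z ∈ Iset φ) : φ z ∈ Iset φ := by
  rw [mem_Iset] at *; rw [hz, map_inv]

theorem Iset_conj {z c : G} (hz : z ∈ Iset φ) (hc : c ∈ Csub φ) : c * z * c⁻¹ ∈ Iset φ := by
  rw [mem_Iset] at *; rw [mem_Csub] at hc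
  simp only [map_mul, map_inv, hz, hc]; group

theorem Iset_sq {z : G} (hz : z ∈ Iset φ) : z * z ∈ Iset φ := by
  rw [mem_Iset] at *; simp only [map_mul, hz]; group

theorem Csub_phi {c : G} (hc : c ∈ Csub φ) : φ c ∈ Csub φ := by
  rw [mem_Csub] at *; rw [hc]

/-- the `I`-part of an element. -/
noncomputable def ip (h : Setup φ) (g : G) : G := (h.exists_dec g).choose.1

/-- the `C`-part of an element. -/
noncomputable def cp (h : Setup φ) (g : G) : G := (h.exists_dec g).choose.2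

theorem ip_mem (h : Setup φ) (g : G) : ip h g ∈ Iset φ := (h.exists_dec g).choose_spec.1

theorem cp_mem (h : Setup φ) (g : G) : cp h g ∈ Csub φ := (h.exists_dec g).choose_spec.2.1

theorem ip_mul_cp (h : Setup φ) (g : G) : g = ip h g * cp h g :=
  (h.exists_dec g).choose_spec.2.2

theorem ipcp_unique (h : Setup φ) {g z c : G} (hz : z ∈ Iset φ) (hc : c ∈ Csub φ)
    (he : g = z * c) : ip h g = z ∧ cp h g = c :=
  h.dec_unique (ip_mem h g) (cp_mem h g) hz hc ((ip_mul_cp h g).symm.trans he)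

end

section
variable {G : Type*} [Group G] {φ : MulAut G} [hS : Fact (Setup φ)]

noncomputable instance instCommGroupCsub : CommGroup (Csub φ) :=
  { (inferInstance : Group (Csub φ)) with
    mul_comm := by
      intro a b
      apply Subtype.ext
      exact hS.out.C_comm a.2 b.2 }

/-- the operation `a ∘ b` on `I`. -/
noncomputable def oo (φ : MulAut G) [hS : Fact (Setup φ)] (a b : G) : G := ip hS.out (a * b)

/-- the `C`-component of `a * b`, written additively. -/
noncomputable def gam (φ : MulAut G) [hS : Fact (Setup φ)] (a b : G) : Additive (Csub φ) :=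
  Additive.ofMul ⟨cp hS.out (a * b), cp_mem hS.out (a * b)⟩

theorem oo_mem (a b : G) : oo φ a b ∈ Iset φ := ip_mem hS.out _

theorem mul_eq_oo (a b : G) : a * b = oo φ a b * ((gam φ a b).toMul : G) :=
  ip_mul_cp hS.out (a * b)

theorem oo_unique {a b z : G} {c : Csub φ} (hz : z ∈ Iset φ) (he : a * b = z * (c : G)) :
    oo φ a b = z ∧ gam φ a b = Additive.ofMul c := by
  obtain ⟨h1, h2⟩ := ipcp_unique hS.out hz c.2 he
  refine ⟨h1, ?_⟩
  show Additive.ofMul (⟨cp hS.out (a * b), cp_mem hS.out (a * b)⟩ : Csub φ) = Additive.ofMul c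
  congr 1
  exact Subtype.ext h2

/-- conjugation by an element of `C` (additively written). -/
def cj (g : Additive (Csub φ)) (x : G) : G := (g.toMul : G) * x * (g.toMul : G)⁻¹

theorem cj_mem (g : Additive (Csub φ)) {x : G} (hx : x ∈ Iset φ) : cj g x ∈ Iset φ :=
  Iset_conj hx g.toMul.2

theorem tmul_mem (g : Additive (Csub φ)) : φ (φ (g.toMul : G)) = (g.toMul : G) := g.toMul.2

theorem oo_gam_swap {a b : G} (ha : a ∈ Iset φ) (hb : b ∈ Iset φ) :
    oo φ b a = cj (-(gam φ a b)) (oo φ a b) ∧ gam φ b a = -(gam φ a b) := by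
  have h1 := mul_eq_oo (φ := φ) a b
  have ho : φ (φ (oo φ a b)) = (oo φ a b)⁻¹ := oo_mem a b
  have hg := tmul_mem (gam φ a b)
  rw [mem_Iset] at ha hb
  have h3 : φ (φ (a * b)) = (b * a)⁻¹ := by
    rw [map_mul, map_mul, ha, hb, mul_inv_rev]
  have h4 : φ (φ (a * b)) = (oo φ a b)⁻¹ * ((gam φ a b).toMul : G) := by
    rw [h1, map_mul, map_mul, ho, hg]
  have h5 : b * a = cj (-(gam φ a b)) (oo φ a b) * (((-(gam φ a b)).toMul : Csub φ) : G) := by
    have h6 : b * a = (φ (φ (a * b)))⁻¹ := by rw [h3, inv_inv]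
    rw [h6, h4, cj]
    simp only [toMul_neg, Subgroup.coe_inv]
    group
  exact oo_unique (cj_mem _ (oo_mem a b)) h5

theorem oo_gam_conj (g : Additive (Csub φ)) (x y : G) :
    oo φ (cj g x) (cj g y) = cj g (oo φ x y) ∧ gam φ (cj g x) (cj g y) = gam φ x y := by
  have h1 := mul_eq_oo (φ := φ) x y
  have hc : (g.toMul : G) * ((gam φ x y).toMul : G) = ((gam φ x y).toMul : G) * (g.toMul : G) :=
    hS.out.C_comm g.toMul.2 (gam φ x y).toMul.2
  have h2 : cj g x * cj g y = cj g (oo φ x y) * ((gam φ x y).toMul : G) := by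
    calc cj g x * cj g y = (g.toMul : G) * (x * y) * (g.toMul : G)⁻¹ := by
          simp only [cj]; group
      _ = (g.toMul : G) * oo φ x y * (g.toMul : G)⁻¹ *
            ((g.toMul : G) * ((gam φ x y).toMul : G)) * (g.toMul : G)⁻¹ := by
          rw [h1]; group
      _ = cj g (oo φ x y) * ((gam φ x y).toMul : G) := by
          rw [hc]; simp only [cj]; group
  exact oo_unique (cj_mem _ (oo_mem x y)) h2

theorem oo_assoc {a b x : G} :
    oo φ (oo φ a b) (cj (gam φ a b) x) = oo φ a (oo φ b x) ∧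
      gam φ (oo φ a b) (cj (gam φ a b) x) + gam φ a b = gam φ a (oo φ b x) + gam φ b x := by
  have e1 : a * b * x = oo φ (oo φ a b) (cj (gam φ a b) x) *
      (((gam φ (oo φ a b) (cj (gam φ a b) x) + gam φ a b).toMul : Csub φ) : G) := by
    calc a * b * x = oo φ a b * ((gam φ a b).toMul : G) * x := by rw [← mul_eq_oo]
      _ = (oo φ a b * cj (gam φ a b) x) * ((gam φ a b).toMul : G) := by
          simp only [cj]; group
      _ = _ := by
          rw [mul_eq_oo (φ := φ) (oo φ a b) (cj (gam φ a b) x), toMul_add, Subgroup.coe_mul,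
            mul_assoc]
  have e2 : a * b * x = oo φ a (oo φ b x) *
      (((gam φ a (oo φ b x) + gam φ b x).toMul : Csub φ) : G) := by
    rw [mul_assoc, mul_eq_oo (φ := φ) b x, ← mul_assoc, mul_eq_oo (φ := φ) a (oo φ b x),
      toMul_add, Subgroup.coe_mul, mul_assoc]
  obtain ⟨h1, h2⟩ := hS.out.dec_unique (oo_mem _ _) (tmul_mem _) (oo_mem _ _) (tmul_mem _)
    (e1.symm.trans e2)
  exact ⟨h1, Additive.toMul.injective (Subtype.ext h2)⟩

theorem coc {a b x : G} (ha : a ∈ Iset φ) (hb : b ∈ Iset φ) :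
    gam φ (oo φ b a) x - gam φ b x = gam φ a (oo φ b x) - gam φ a b := by
  have h1 := (oo_assoc (φ := φ) (a := a) (b := b) (x := x)).2
  have h2 := (oo_gam_swap hb ha)
  have h3 : gam φ (oo φ a b) (cj (gam φ a b) x) = gam φ (oo φ b a) x := by
    have h4 := (oo_gam_swap ha hb).2
    have h5 : oo φ a b = cj (gam φ a b) (oo φ b a) := by
      rw [h2.1, h4, neg_neg]
    rw [h5]
    rw [(oo_gam_conj (gam φ a b) (oo φ b a) x).2]
  rw [h3] at h1
  rw [sub_eq_sub_iff_add_eq_add, h1]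

theorem oo_gam_phi {x y : G} :
    oo φ (φ x) (φ y) = φ (oo φ x y) ∧ gam φ (φ x) (φ y) = -(gam φ x y) := by
  have h1 := mul_eq_oo (φ := φ) x y
  apply oo_unique (Iset_phi (oo_mem x y))
  rw [← map_mul, h1, map_mul, hS.out.C_inv (gam φ x y).toMul.2]
  rfl

theorem gam_one_right {a : G} (ha : a ∈ Iset φ) : oo φ a 1 = a ∧ gam φ a 1 = 0 :=
  oo_unique ha (c := 1) (by simp)

theorem gam_one_left {a : G} (ha : a ∈ Iset φ) : oo φ 1 a = a ∧ gam φ 1 a = 0 :=
  oo_unique ha (c := 1) (by simp)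

theorem gam_self {a : G} (ha : a ∈ Iset φ) : oo φ a a = a * a ∧ gam φ a a = 0 :=
  oo_unique (Iset_sq ha) (c := 1) (by simp)

theorem gam_inv_self {a : G} : oo φ a⁻¹ a = 1 ∧ gam φ a⁻¹ a = 0 :=
  oo_unique Iset_one (c := 1) (by simp)

theorem cj_zero (x : G) : cj (0 : Additive (Csub φ)) x = x := by simp [cj]

theorem oo_inv_oo {b y : G} (hy : y ∈ Iset φ) : oo φ b⁻¹ (oo φ b y) = y := by
  have h1 := (oo_assoc (φ := φ) (a := b⁻¹) (b := b) (x := y)).1
  rw [(gam_inv_self (a := b)).1, (gam_inv_self (a := b)).2, cj_zero, (gam_one_left hy).1] at h1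
  exact h1.symm

theorem oo_sq {b y : G} (hb : b ∈ Iset φ) :
    oo φ b (oo φ b y) = oo φ (b * b) y := by
  have h1 := (oo_assoc (φ := φ) (a := b) (b := b) (x := y)).1
  rw [(gam_self hb).1, (gam_self hb).2, cj_zero] at h1
  exact h1.symm

/-- consequence of `StarStar`. -/
theorem gam_star (hss : StarStar φ) {a b : G} (ha : a ∈ Iset φ) (hb : b ∈ Iset φ) :
    gam φ (φ a) b = gam φ a (φ b) := by
  obtain ⟨z, w, c, hz, hw, hc, h1, h2⟩ := hss a b ha hb
  rw [(oo_unique (φ := φ) hz (c := ⟨c, hc⟩) h1).2, (oo_unique (φ := φ) hw (c := ⟨c, hc⟩) h2).2]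

theorem par (hss : StarStar φ) {a b y : G} (ha : a ∈ Iset φ) (hb : b ∈ Iset φ)
    (hy : y ∈ Iset φ) :
    gam φ a (oo φ b y) + gam φ a (oo φ b y⁻¹) = gam φ a b + gam φ a b := by
  -- put `y = φ x`
  set x : G := φ y⁻¹ with hx
  have hyi := Iset_inv hy
  have hxI : x ∈ Iset φ := Iset_phi hyi
  have hxy : φ x = y := by
    rw [hx]
    have : φ (φ y⁻¹) = y⁻¹⁻¹ := hyi
    rw [this, inv_inv]
  have hxy' : φ y⁻¹ = x := rfl
  have h1 := coc (x := y) ha hb
  have e1 : gam φ (oo φ b a) y = gam φ (oo φ (φ b) (φ a)) x := by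
    rw [← hxy, ← gam_star hss (oo_mem b a) hxI, (oo_gam_phi (x := b) (y := a)).1]
  have e2 : gam φ b y = gam φ (φ b) x := by
    rw [← hxy, ← gam_star hss hb hxI]
  have h2 := coc (x := x) (Iset_phi ha) (Iset_phi hb)
  have e3 : gam φ (φ a) (oo φ (φ b) x) = - gam φ a (oo φ b y⁻¹) := by
    rw [← hxy', (oo_gam_phi (x := b) (y := y⁻¹)).1, (oo_gam_phi (x := a)).2]
  have e4 : gam φ (φ a) (φ b) = - gam φ a b := oo_gam_phi.2
  rw [e1, e2, h2, e3, e4] at h1
  -- `-γ(a,b∘y⁻¹) + γ(a,b) = γ(a,b∘y) - γ(a,b)`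
  have h3 : gam φ a (oo φ b y) = (- gam φ a (oo φ b y⁻¹) - - gam φ a b) + gam φ a b := by
    rw [h1]; abel
  rw [h3]; abel

theorem gam_inv_right (hss : StarStar φ) {a y : G} (ha : a ∈ Iset φ) (hy : y ∈ Iset φ) :
    gam φ a y⁻¹ = - gam φ a y := by
  have h1 := par hss ha Iset_one hy
  rw [(gam_one_left hy).1, (gam_one_left (Iset_inv hy)).1, (gam_one_right ha).2, add_zero] at h1
  exact (neg_eq_of_add_eq_zero_right h1).symm

theorem oo_inv {b y : G} (hb : b ∈ Iset φ) (hy : y ∈ Iset φ) :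
    oo φ b⁻¹ y⁻¹ = (oo φ b y)⁻¹ := by
  have h1 := mul_eq_oo (φ := φ) b y
  have ho : φ (φ (oo φ b y)) = (oo φ b y)⁻¹ := oo_mem b y
  have hg := tmul_mem (gam φ b y)
  rw [mem_Iset] at hb hy
  have h3 : φ (φ (b * y)) = b⁻¹ * y⁻¹ := by rw [map_mul, map_mul, hb, hy]
  have h4 : φ (φ (b * y)) = (oo φ b y)⁻¹ * ((gam φ b y).toMul : G) := by
    rw [h1, map_mul, map_mul, ho, hg]
  exact (oo_unique (Iset_inv (oo_mem b y)) (h3.symm.trans h4)).1

theorem exists_sqrt_I {b : G} (hb : b ∈ Iset φ) : ∃ r ∈ Iset φ, b = r * r := by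
  obtain ⟨n, hn⟩ := exists_sqrt hS.out.odd b
  refine ⟨b ^ n, ?_, hn.symm⟩
  rw [mem_Iset] at *
  rw [map_pow, map_pow, hb, inv_pow]

theorem gam_add (hss : StarStar φ) {a b y : G} (ha : a ∈ Iset φ) (hb : b ∈ Iset φ)
    (hy : y ∈ Iset φ) : gam φ a (oo φ b y) = gam φ a b + gam φ a y := by
  have key : ∀ r ∈ Iset φ, ∀ z ∈ Iset φ,
      gam φ a (oo φ (r * r) z) = gam φ a z + (gam φ a r + gam φ a r) := by
    intro r hr z hz
    have h1 := par hss ha hr (oo_mem (φ := φ) r z)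
    rw [oo_sq hr] at h1
    have h2 : oo φ r (oo φ r z)⁻¹ = z⁻¹ := by
      have h3 := oo_inv (Iset_inv hr) (oo_mem (φ := φ) r z)
      rw [inv_inv, oo_inv_oo hz] at h3
      exact h3
    rw [h2, gam_inv_right hss ha hz] at h1
    rw [← h1]; abel
  obtain ⟨r, hr, rfl⟩ := exists_sqrt_I hb
  have h1 := key r hr y hy
  have h2 := key r hr 1 Iset_one
  rw [(gam_one_right (Iset_sq hr)).1, (gam_one_right ha).2, zero_add] at h2
  rw [h1, h2, add_comm]

theorem gam_cj (hss : StarStar φ) {w x y z : G} (hw : w ∈ Iset φ) (hx : x ∈ Iset φ)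
    (hy : y ∈ Iset φ) (hz : z ∈ Iset φ) : gam φ w (cj (gam φ x y) z) = gam φ w z := by
  have h1 := (oo_assoc (φ := φ) (a := x) (b := y) (x := z)).1
  have h2 := congrArg (gam φ w) h1
  rw [gam_add hss hw (oo_mem x y) (cj_mem _ hz), gam_add hss hw hx (oo_mem y z),
    gam_add hss hw hy hz, gam_add hss hw hx hy] at h2
  have h3 : gam φ w (cj (gam φ x y) z) =
      (gam φ w x + gam φ w y + gam φ w (cj (gam φ x y) z)) - (gam φ w x + gam φ w y) := by abel
  rw [h3, h2]; abel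

theorem comm_e (hss : StarStar φ) {w x y z : G} (hw : w ∈ Iset φ) (hx : x ∈ Iset φ)
    (hy : y ∈ Iset φ) (hz : z ∈ Iset φ) :
    w * (z⁻¹ * cj (gam φ x y) z) = (z⁻¹ * cj (gam φ x y) z) * w := by
  set t : G := cj (gam φ x y) z with ht
  have htI : t ∈ Iset φ := cj_mem _ hz
  have h1 : gam φ z⁻¹ t = 0 := by
    rw [ht, gam_cj hss (Iset_inv hz) hx hy hz, (gam_inv_self (a := z)).2]
  have h2 : z⁻¹ * t = oo φ z⁻¹ t := by
    rw [mul_eq_oo (φ := φ) z⁻¹ t, h1]; simp
  set e : G := z⁻¹ * t with he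
  have heI : e ∈ Iset φ := by rw [h2]; exact oo_mem _ _
  have h3 : gam φ w e = 0 := by
    rw [h2, gam_add hss hw (Iset_inv hz) htI, ht, gam_cj hss hw hx hy hz,
      gam_inv_right hss hw hz]
    abel
  have h4 := oo_gam_swap hw heI
  rw [mul_eq_oo (φ := φ) w e, mul_eq_oo (φ := φ) e w, h4.1, h4.2, h3, neg_zero, cj_zero]

/-- the subgroup generated by the elements inverted by `φ ^ 2`. -/
def KK (φ : MulAut G) : Subgroup G := Subgroup.closure (Iset φ)

theorem Iset_sub_KK {x : G} (hx : x ∈ Iset φ) : x ∈ KK φ := Subgroup.subset_closure hx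

theorem gam_mem_KK {x y : G} (hx : x ∈ Iset φ) (hy : y ∈ Iset φ) :
    ((gam φ x y).toMul : G) ∈ KK φ := by
  have h1 := mul_eq_oo (φ := φ) x y
  have h2 : ((gam φ x y).toMul : G) = (oo φ x y)⁻¹ * (x * y) := by rw [h1]; group
  rw [h2]
  exact mul_mem (inv_mem (Iset_sub_KK (oo_mem x y))) (mul_mem (Iset_sub_KK hx) (Iset_sub_KK hy))

theorem KK_conj {x c : G} (hx : x ∈ KK φ) (hc : c ∈ Csub φ) : c * x * c⁻¹ ∈ KK φ := by
  unfold KK at hx
  induction hx using Subgroup.closure_induction with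
  | mem x hx => exact Iset_sub_KK (Iset_conj hx hc)
  | one => simp
  | mul x y _ _ h1 h2 =>
    have : c * (x * y) * c⁻¹ = (c * x * c⁻¹) * (c * y * c⁻¹) := by group
    rw [this]; exact mul_mem h1 h2
  | inv x _ h1 =>
    have : c * x⁻¹ * c⁻¹ = (c * x * c⁻¹)⁻¹ := by group
    rw [this]; exact inv_mem h1

theorem KK_normal : (KK φ).Normal := by
  refine ⟨fun x hx g => ?_⟩
  have h1 := ip_mul_cp hS.out g
  have h2 : g * x * g⁻¹ = ip hS.out g * (cp hS.out g * x * (cp hS.out g)⁻¹) *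
      (ip hS.out g)⁻¹ := by
    conv_lhs => rw [h1]
    group
  rw [h2]
  have h3 := Iset_sub_KK (ip_mem hS.out g)
  exact mul_mem (mul_mem h3 (KK_conj hx (cp_mem hS.out g))) (inv_mem h3)

theorem solvable_of (hss : StarStar φ) : Group.IsSolvable G := by
  have hKn : (KK φ).Normal := KK_normal
  set K : Subgroup G := KK φ with hK
  set Z1 : Subgroup G := Subgroup.centralizer (K : Set G) ⊓ K with hZ1
  have hZ1n : Z1.Normal := inferInstance
  set π1 : G →* G ⧸ Z1 := QuotientGroup.mk' Z1 with hπ1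
  have hKm : (K.map π1).Normal := hKn.map π1 (QuotientGroup.mk'_surjective Z1)
  set Z2 : Subgroup G := K ⊓ (Subgroup.centralizer ((K.map π1 : Subgroup _) : Set _)).comap π1
    with hZ2
  have hZ2n : Z2.Normal := inferInstance
  -- `G/K` is abelian
  have s1 : ⁅(⊤ : Subgroup G), ⊤⁆ ≤ K := by
    rw [Subgroup.commutator_le]
    intro g1 _ g2 _
    have : (QuotientGroup.mk' K) ⁅g1, g2⁆ = 1 := by
      have hq : ∀ g : G, (QuotientGroup.mk' K) g = (QuotientGroup.mk' K) (cp hS.out g) := by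
        intro g
        conv_lhs => rw [ip_mul_cp hS.out g, map_mul]
        have : (QuotientGroup.mk' K) (ip hS.out g) = 1 :=
          (QuotientGroup.eq_one_iff _).mpr (Iset_sub_KK (ip_mem hS.out g))
        rw [this, one_mul]
      rw [map_commutatorElement, hq g1, hq g2, ← map_commutatorElement]
      have : ⁅cp hS.out g1, cp hS.out g2⁆ = 1 := by
        rw [commutatorElement_eq_one_iff_mul_comm]
        exact hS.out.C_comm (cp_mem hS.out g1) (cp_mem hS.out g2)
      rw [this, map_one]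
    exact (QuotientGroup.eq_one_iff _).mp this
  -- `γ(x,y) ∈ Z2`
  have s2 : ∀ x ∈ Iset φ, ∀ y ∈ Iset φ, ((gam φ x y).toMul : G) ∈ Z2 := by
    intro x hx y hy
    refine ⟨gam_mem_KK hx hy, ?_⟩
    show π1 _ ∈ Subgroup.centralizer ((K.map π1 : Subgroup _) : Set _)
    rw [hK, KK, MonoidHom.map_closure, Subgroup.centralizer_closure,
      Subgroup.mem_centralizer_iff]
    rintro _ ⟨z, hz, rfl⟩
    have h1 : z⁻¹ * cj (gam φ x y) z ∈ Z1 := by
      refine ⟨?_, ?_⟩
      · show _ ∈ Subgroup.centralizer (K : Set G)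
        rw [hK, KK, Subgroup.centralizer_closure, Subgroup.mem_centralizer_iff]
        intro w hw
        exact comm_e hss hw hx hy hz
      · exact K.mul_mem (K.inv_mem (Iset_sub_KK hz)) (Iset_sub_KK (cj_mem _ hz))
    have h2 : π1 (z⁻¹ * cj (gam φ x y) z) = 1 := (QuotientGroup.eq_one_iff _).mpr h1
    simp only [cj, map_mul, map_inv] at h2
    have h3 : π1 z = π1 ((gam φ x y).toMul : G) * π1 z * (π1 ((gam φ x y).toMul : G))⁻¹ := by
      have := eq_inv_of_mul_eq_one_right h2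
      rw [inv_inv] at this
      exact this.symm
    calc π1 z * π1 ((gam φ x y).toMul : G)
        = (π1 ((gam φ x y).toMul : G) * π1 z * (π1 ((gam φ x y).toMul : G))⁻¹) *
            π1 ((gam φ x y).toMul : G) := by rw [← h3]
      _ = _ := by group
  -- `[K,K] ≤ Z2`
  have s3 : ⁅K, K⁆ ≤ Z2 := by
    have hker : (QuotientGroup.mk' Z2).ker = Z2 := QuotientGroup.ker_mk' Z2
    have h1 : (⁅K, K⁆).map (QuotientGroup.mk' Z2) = ⊥ := by
      rw [Subgroup.map_commutator, Subgroup.commutator_eq_bot_iff_le_centralizer]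
      rw [hK, KK, MonoidHom.map_closure, Subgroup.centralizer_closure, Subgroup.closure_le]
      rintro _ ⟨x, hx, rfl⟩
      show _ ∈ Subgroup.centralizer _
      rw [Subgroup.mem_centralizer_iff]
      rintro _ ⟨y, hy, rfl⟩
      have h2 := mul_eq_oo (φ := φ) x y
      have h3 := mul_eq_oo (φ := φ) y x
      have h4 := oo_gam_swap hx hy
      have hg : (QuotientGroup.mk' Z2) ((gam φ x y).toMul : G) = 1 :=
        (QuotientGroup.eq_one_iff _).mpr (s2 x hx y hy)
      rw [← map_mul, ← map_mul, h2, h3, h4.1, h4.2]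
      simp only [cj, toMul_neg, Subgroup.coe_inv, map_mul, map_inv, hg]
      group
    rw [Subgroup.map_eq_bot_iff, hker] at h1
    exact h1
  have s4 : ⁅Z2, Z2⁆ ≤ Z1 := by
    rw [Subgroup.commutator_le]
    intro g hg k hk
    have h1 : π1 g ∈ Subgroup.centralizer ((K.map π1 : Subgroup _) : Set _) := hg.2
    rw [Subgroup.mem_centralizer_iff] at h1
    have h2 := h1 (π1 k) ⟨k, hk.1, rfl⟩
    have h3 : π1 ⁅g, k⁆ = 1 := by
      rw [map_commutatorElement, commutatorElement_eq_one_iff_mul_comm]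
      exact h2.symm
    exact (QuotientGroup.eq_one_iff _).mp h3
  have s5 : ⁅Z1, Z1⁆ ≤ ⊥ := by
    rw [Subgroup.commutator_le]
    intro g hg k hk
    have h1 := (Subgroup.mem_centralizer_iff.mp hg.1) k hk.2
    rw [Subgroup.mem_bot, commutatorElement_eq_one_iff_mul_comm]
    exact h1.symm
  refine ⟨⟨4, ?_⟩⟩
  rw [eq_bot_iff]
  have d1 : derivedSeries G 1 ≤ K := by
    rw [derivedSeries_succ, derivedSeries_zero]; exact s1
  have d2 : derivedSeries G 2 ≤ Z2 := by
    rw [derivedSeries_succ]; exact (Subgroup.commutator_mono d1 d1).trans s3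
  have d3 : derivedSeries G 3 ≤ Z1 := by
    rw [derivedSeries_succ]; exact (Subgroup.commutator_mono d2 d2).trans s4
  rw [derivedSeries_succ]
  exact (Subgroup.commutator_mono d3 d3).trans s5

end

/-- **Part D**: the setup together with `(**)` gives solubility. -/
theorem Setup.isSolvable {G : Type*} [Group G] {φ : MulAut G} (h : Setup φ)
    (hss : StarStar φ) : Group.IsSolvable G :=
  haveI : Fact (Setup φ) := ⟨h⟩
  solvable_of hss

end Pool.Agent.Reg4
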