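import Mathlib

set_option autoImplicit false

namespace Pool.Agent.Reg4

/-- **Part E**: a finitely generated soluble torsion group is finite. -/
theorem finite_of_solvable {G : Type*} [Group G] (hs : Group.IsSolvable G) (hfg : Group.FG G)
    (hG : IsMulTorsion G) : Finite G := by
  have key : ∀ n : ℕ, (derivedSeries G n).FiniteIndex := by
    intro n
    induction n with
    | zero => rw [derivedSeries_zero]; infer_instance
    | succ n ih =>
      set D := derivedSeries G n with hD
      have hDfg : Group.FG D := inferInstance
      have hDt : IsMulTorsion D := hG.subgroup D
      have hab : IsMulTorsion (Abelianization D) :=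
        IsMulTorsion.of_surjective (f := Abelianization.of) (QuotientGroup.mk_surjective) hDt
      have hfga : Group.FG (Abelianization D) := by
        unfold Abelianization
        infer_instance
      have hfin : Finite (Abelianization D) := CommGroup.finite_of_fg_isMulTorsion _ hab
      have hidx : (commutator D).FiniteIndex := by
        have : Finite (D ⧸ commutator D) := hfin
        exact Subgroup.finiteIndex_of_finite_quotient
      have heq : derivedSeries G (n + 1) = (commutator D).map D.subtype := by
        rw [derivedSeries_succ, Subgroup.map_subtype_commutator]
      rw [heq]
      refine ⟨?_⟩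
      rw [Subgroup.index_map_subtype]
      exact mul_ne_zero hidx.index_ne_zero ih.index_ne_zero
  obtain ⟨n, hn⟩ := hs.solvable
  have h := key n
  rw [hn] at h
  have : Nat.card G ≠ 0 := by
    rw [← Subgroup.index_bot]
    exact h.index_ne_zero
  exact (Nat.card_ne_zero.mp this).2

end Pool.Agent.Reg4
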