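import Pool.Agent.Reg4.PartC

set_option autoImplicit false

namespace Pool.Agent.Reg4

open scoped commutatorElement

section
variable {G : Type*} [Group G] {φ : MulAut G}

/-- lattice points. -/
def pt (φ : MulAut G) (u : G) (m n : ℤ) : G := u ^ m * (φ u) ^ n

theorem pt_mem (u : G) (m n : ℤ) : pt φ u m n ∈ UU φ u :=
  mul_mem (zpow_mem (mem_UU_self u) m) (zpow_mem (phi_mem_UU_self u) n)

theorem pt_mul (h : Setup φ) {u : G} (hu : u ∈ Iset φ) (a b m n : ℤ) :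
    pt φ u a b * pt φ u m n = pt φ u (a + m) (b + n) := by
  have hc : Commute u (φ u) := UU_comm_self h hu
  have h1 : (φ u) ^ b * u ^ m = u ^ m * (φ u) ^ b := ((hc.zpow_zpow m b).eq).symm
  unfold pt
  calc u ^ a * (φ u) ^ b * (u ^ m * (φ u) ^ n) = u ^ a * ((φ u) ^ b * u ^ m) * (φ u) ^ n := by group
    _ = u ^ a * (u ^ m * (φ u) ^ b) * (φ u) ^ n := by rw [h1]
    _ = u ^ (a + m) * (φ u) ^ (b + n) := by rw [zpow_add, zpow_add]; group

theorem pt_phi (h : Setup φ) {u : G} (hu : u ∈ Iset φ) (m n : ℤ) :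
    φ (pt φ u m n) = pt φ u (-n) m := by
  have hc : Commute u (φ u) := UU_comm_self h hu
  rw [mem_Iset] at hu
  unfold pt
  rw [map_mul, map_zpow, map_zpow, hu, inv_zpow', (hc.zpow_zpow (-n) m).eq]

theorem pt_zero (u : G) : pt φ u 0 0 = 1 := by simp [pt]

/-- translates. -/
def TT (φ : MulAut G) (u : G) (m n : ℤ) (s : G) : G := pt φ u m n * s * (pt φ u m n)⁻¹

theorem relRT (h : Setup φ) {u s : G} (hu : u ∈ Iset φ) (hs : s ∈ Iset φ) (a b m n : ℤ) :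
    TT φ u a b s * TT φ u (a + m) (b + n) (φ s) =
      TT φ u (a - n) (b + m) (φ s) * TT φ u (a + m - n) (b + n + m) s := by
  have h1 := relR h hs (UU_sub_I h hu (pt_mem (φ := φ) u m n)) (pt φ u a b)
  rw [pt_phi h hu, pt_mul h hu, pt_mul h hu, pt_mul h hu] at h1
  exact h1

/-- the index set of the four generating translates. -/
def Idx : Set (ℤ × ℤ) := {(0, 0), (1, 0), (0, 1), (-1, 0)}

/-- the subgroup generated by four translates of `V`. -/
def SS (φ : MulAut G) (u v : G) : Subgroup G :=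
  Subgroup.closure {g | ∃ p ∈ Idx, ∃ s ∈ UU φ v, g = TT φ u p.1 p.2 s}

theorem TT_conj (h : Setup φ) {u : G} (hu : u ∈ Iset φ) (a b m n : ℤ) (s : G) :
    pt φ u a b * TT φ u m n s * (pt φ u a b)⁻¹ = TT φ u (a + m) (b + n) s := by
  unfold TT
  rw [← pt_mul h hu]; group

theorem exists_phi_eq (h : Setup φ) {v : G} (hv : v ∈ Iset φ) {t : G} (ht : t ∈ UU φ v) :
    ∃ s ∈ UU φ v, φ s = t := by
  refine ⟨φ (φ (φ t)), phi_mem_UU hv (phi_mem_UU hv (phi_mem_UU hv ht)), h.four t⟩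

section gen
variable (h : Setup φ) {u v : G} (hu : u ∈ Iset φ) (hv : v ∈ Iset φ)
include h hu hv

theorem step4 {S : Subgroup G} (a b m n : ℤ)
    (h1 : ∀ s ∈ UU φ v, TT φ u a b s ∈ S)
    (h2 : ∀ s ∈ UU φ v, TT φ u (a + m) (b + n) s ∈ S)
    (h3 : ∀ s ∈ UU φ v, TT φ u (a - n) (b + m) s ∈ S) :
    ∀ s ∈ UU φ v, TT φ u (a + m - n) (b + n + m) s ∈ S := by
  intro s hs
  have h4 := relRT h hu (UU_sub_I h hv hs) a b m n
  have h5 : TT φ u (a + m - n) (b + n + m) s =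
      (TT φ u (a - n) (b + m) (φ s))⁻¹ * (TT φ u a b s * TT φ u (a + m) (b + n) (φ s)) := by
    rw [h4]; group
  rw [h5]
  exact mul_mem (inv_mem (h3 _ (phi_mem_UU hv hs))) (mul_mem (h1 s hs) (h2 _ (phi_mem_UU hv hs)))

theorem step3 {S : Subgroup G} (a b m n : ℤ)
    (h1 : ∀ s ∈ UU φ v, TT φ u a b s ∈ S)
    (h2 : ∀ s ∈ UU φ v, TT φ u (a + m) (b + n) s ∈ S)
    (h3 : ∀ s ∈ UU φ v, TT φ u (a + m - n) (b + n + m) s ∈ S) :
    ∀ s ∈ UU φ v, TT φ u (a - n) (b + m) s ∈ S := by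
  intro t ht
  obtain ⟨s, hs, rfl⟩ := exists_phi_eq h hv ht
  have h4 := relRT h hu (UU_sub_I h hv hs) a b m n
  have h5 : TT φ u (a - n) (b + m) (φ s) =
      (TT φ u a b s * TT φ u (a + m) (b + n) (φ s)) * (TT φ u (a + m - n) (b + n + m) s)⁻¹ := by
    rw [h4]; group
  rw [h5]
  exact mul_mem (mul_mem (h1 s hs) (h2 _ (phi_mem_UU hv hs))) (inv_mem (h3 s hs))

theorem step2 {S : Subgroup G} (a b m n : ℤ)
    (h1 : ∀ s ∈ UU φ v, TT φ u a b s ∈ S)
    (h2 : ∀ s ∈ UU φ v, TT φ u (a - n) (b + m) s ∈ S)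
    (h3 : ∀ s ∈ UU φ v, TT φ u (a + m - n) (b + n + m) s ∈ S) :
    ∀ s ∈ UU φ v, TT φ u (a + m) (b + n) s ∈ S := by
  intro t ht
  obtain ⟨s, hs, rfl⟩ := exists_phi_eq h hv ht
  have h4 := relRT h hu (UU_sub_I h hv hs) a b m n
  have h5 : TT φ u (a + m) (b + n) (φ s) =
      (TT φ u a b s)⁻¹ * (TT φ u (a - n) (b + m) (φ s) *
        TT φ u (a + m - n) (b + n + m) s) := by
    rw [← h4]; group
  rw [h5]
  exact mul_mem (inv_mem (h1 s hs)) (mul_mem (h2 _ (phi_mem_UU hv hs)) (h3 s hs))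

theorem step1 {S : Subgroup G} (a b m n : ℤ)
    (h1 : ∀ s ∈ UU φ v, TT φ u (a + m) (b + n) s ∈ S)
    (h2 : ∀ s ∈ UU φ v, TT φ u (a - n) (b + m) s ∈ S)
    (h3 : ∀ s ∈ UU φ v, TT φ u (a + m - n) (b + n + m) s ∈ S) :
    ∀ s ∈ UU φ v, TT φ u a b s ∈ S := by
  intro s hs
  have h4 := relRT h hu (UU_sub_I h hv hs) a b m n
  have h5 : TT φ u a b s = (TT φ u (a - n) (b + m) (φ s) *
        TT φ u (a + m - n) (b + n + m) s) * (TT φ u (a + m) (b + n) (φ s))⁻¹ := by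
    rw [← h4]; group
  rw [h5]
  exact mul_mem (mul_mem (h2 _ (phi_mem_UU hv hs)) (h3 s hs)) (inv_mem (h1 _ (phi_mem_UU hv hs)))

theorem all_P {S : Subgroup G}
    (p00 : ∀ s ∈ UU φ v, TT φ u 0 0 s ∈ S)
    (p10 : ∀ s ∈ UU φ v, TT φ u 1 0 s ∈ S)
    (p01 : ∀ s ∈ UU φ v, TT φ u 0 1 s ∈ S)
    (pm0 : ∀ s ∈ UU φ v, TT φ u (-1) 0 s ∈ S) :
    (∀ s ∈ UU φ v, TT φ u 2 0 s ∈ S) ∧ (∀ s ∈ UU φ v, TT φ u 1 1 s ∈ S) ∧
      (∀ s ∈ UU φ v, TT φ u 0 2 s ∈ S) ∧ (∀ s ∈ UU φ v, TT φ u (-1) 1 s ∈ S) := by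
  have p11 : ∀ s ∈ UU φ v, TT φ u 1 1 s ∈ S := by
    have := step4 h hu hv (S := S) 0 0 1 0 p00 (by simpa using p10) (by simpa using p01)
    simpa using this
  have p0m : ∀ s ∈ UU φ v, TT φ u 0 (-1) s ∈ S := by
    have := step3 h hu hv (S := S) 1 0 (-1) 1 p10 (by simpa using p01) (by simpa using pm0)
    simpa using this
  have p1m : ∀ s ∈ UU φ v, TT φ u 1 (-1) s ∈ S := by
    have := step2 h hu hv (S := S) 0 (-1) 1 0 p0m (by simpa using p00) (by simpa using p10)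
    simpa using this
  have pm1 : ∀ s ∈ UU φ v, TT φ u (-1) 1 s ∈ S := by
    have := step3 h hu hv (S := S) (-1) 0 1 0 pm0 (by simpa using p00) (by simpa using p01)
    simpa using this
  have p20 : ∀ s ∈ UU φ v, TT φ u 2 0 s ∈ S := by
    have := step1 h hu hv (S := S) 2 0 (-1) 1 (by norm_num; exact p11) (by norm_num; exact p1m)
      (by norm_num; exact p00)
    exact this
  have p02 : ∀ s ∈ UU φ v, TT φ u 0 2 s ∈ S := by
    have := step2 h hu hv (S := S) 1 1 (-1) 1 p11 (by norm_num; exact p00) (by norm_num; exact pm1)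
    simpa using this
  exact ⟨p20, p11, p02, pm1⟩

theorem SS_conj_u {w : G} (hw : w ∈ SS φ u v) : u * w * u⁻¹ ∈ SS φ u v := by
  have b00 : ∀ s ∈ UU φ v, TT φ u 0 0 s ∈ SS φ u v := fun s hs =>
    Subgroup.subset_closure ⟨(0, 0), by simp [Idx], s, hs, rfl⟩
  have b10 : ∀ s ∈ UU φ v, TT φ u 1 0 s ∈ SS φ u v := fun s hs =>
    Subgroup.subset_closure ⟨(1, 0), by simp [Idx], s, hs, rfl⟩
  have b01 : ∀ s ∈ UU φ v, TT φ u 0 1 s ∈ SS φ u v := fun s hs =>
    Subgroup.subset_closure ⟨(0, 1), by simp [Idx], s, hs, rfl⟩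
  have bm0 : ∀ s ∈ UU φ v, TT φ u (-1) 0 s ∈ SS φ u v := fun s hs =>
    Subgroup.subset_closure ⟨(-1, 0), by simp [Idx], s, hs, rfl⟩
  obtain ⟨p20, p11, p02, pm1⟩ := all_P h hu hv b00 b10 b01 bm0
  have hu1 : pt φ u 1 0 = u := by simp [pt]
  unfold SS at hw
  induction hw using Subgroup.closure_induction with
  | mem w hw =>
    obtain ⟨p, hp, s, hs, rfl⟩ := hw
    have h1 := TT_conj h hu 1 0 p.1 p.2 s
    rw [hu1] at h1
    rw [h1]
    rcases hp with rfl | rfl | rfl | rfl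
    · exact b10 s hs
    · exact p20 s hs
    · exact p11 s hs
    · exact b00 s hs
  | one => simp
  | mul a b _ _ h1 h2 =>
    have : u * (a * b) * u⁻¹ = (u * a * u⁻¹) * (u * b * u⁻¹) := by group
    rw [this]; exact mul_mem h1 h2
  | inv a _ h1 =>
    have : u * a⁻¹ * u⁻¹ = (u * a * u⁻¹)⁻¹ := by group
    rw [this]; exact inv_mem h1

theorem SS_conj_u' {w : G} (hw : w ∈ SS φ u v) : φ u * w * (φ u)⁻¹ ∈ SS φ u v := by
  have b00 : ∀ s ∈ UU φ v, TT φ u 0 0 s ∈ SS φ u v := fun s hs =>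
    Subgroup.subset_closure ⟨(0, 0), by simp [Idx], s, hs, rfl⟩
  have b10 : ∀ s ∈ UU φ v, TT φ u 1 0 s ∈ SS φ u v := fun s hs =>
    Subgroup.subset_closure ⟨(1, 0), by simp [Idx], s, hs, rfl⟩
  have b01 : ∀ s ∈ UU φ v, TT φ u 0 1 s ∈ SS φ u v := fun s hs =>
    Subgroup.subset_closure ⟨(0, 1), by simp [Idx], s, hs, rfl⟩
  have bm0 : ∀ s ∈ UU φ v, TT φ u (-1) 0 s ∈ SS φ u v := fun s hs =>
    Subgroup.subset_closure ⟨(-1, 0), by simp [Idx], s, hs, rfl⟩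
  obtain ⟨p20, p11, p02, pm1⟩ := all_P h hu hv b00 b10 b01 bm0
  have hu1 : pt φ u 0 1 = φ u := by simp [pt]
  unfold SS at hw
  induction hw using Subgroup.closure_induction with
  | mem w hw =>
    obtain ⟨p, hp, s, hs, rfl⟩ := hw
    have h1 := TT_conj h hu 0 1 p.1 p.2 s
    rw [hu1] at h1
    rw [h1]
    rcases hp with rfl | rfl | rfl | rfl
    · exact b01 s hs
    · exact p11 s hs
    · exact p02 s hs
    · exact pm1 s hs
  | one => simp
  | mul a b _ _ h1 h2 =>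
    have : φ u * (a * b) * (φ u)⁻¹ = (φ u * a * (φ u)⁻¹) * (φ u * b * (φ u)⁻¹) := by group
    rw [this]; exact mul_mem h1 h2
  | inv a _ h1 =>
    have : φ u * a⁻¹ * (φ u)⁻¹ = (φ u * a * (φ u)⁻¹)⁻¹ := by group
    rw [this]; exact inv_mem h1

theorem SS_conj {x w : G} (hx : x ∈ UU φ u) (hw : w ∈ SS φ u v) : x * w * x⁻¹ ∈ SS φ u v := by
  -- positive conjugation for every power
  have hpow : ∀ y : G, (∀ w ∈ SS φ u v, y * w * y⁻¹ ∈ SS φ u v) →
      ∀ w ∈ SS φ u v, y⁻¹ * w * y⁻¹⁻¹ ∈ SS φ u v := by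
    intro y hy
    have h1 : ∀ n : ℕ, ∀ w ∈ SS φ u v, y ^ n * w * (y ^ n)⁻¹ ∈ SS φ u v := by
      intro n
      induction n with
      | zero => intro w hw; simpa using hw
      | succ n ih =>
        intro w hw
        have h2 := hy _ (ih w hw)
        have h3 : y ^ (n + 1) * w * (y ^ (n + 1))⁻¹ = y * (y ^ n * w * (y ^ n)⁻¹) * y⁻¹ := by
          rw [pow_succ']; group
        rw [h3]; exact h2
    obtain ⟨n, hn⟩ := h.odd y
    have h2 : y⁻¹ = y ^ (2 * n) := by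
      rw [pow_succ] at hn
      exact (eq_inv_of_mul_eq_one_left hn).symm
    intro w hw
    rw [h2]
    exact h1 _ w hw
  have hgen : ∀ y ∈ UU φ u, (∀ w ∈ SS φ u v, y * w * y⁻¹ ∈ SS φ u v) := by
    intro y hy
    unfold UU at hy
    induction hy using Subgroup.closure_induction with
    | mem y hy =>
      rcases hy with rfl | rfl
      · exact fun w hw => SS_conj_u h hu hv hw
      · exact fun w hw => SS_conj_u' h hu hv hw
    | one => intro w hw; simpa using hw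
    | mul a b _ _ h1 h2 =>
      intro w hw
      have h3 := h1 _ (h2 w hw)
      have : a * b * w * (a * b)⁻¹ = a * (b * w * b⁻¹) * a⁻¹ := by group
      rw [this]; exact h3
    | inv a _ h1 => exact hpow a h1
  exact hgen x hx w hw

theorem conjSpan_le_SS : conjSpan φ u v ≤ SS φ u v := by
  unfold conjSpan
  rw [Subgroup.closure_le]
  rintro g ⟨x, hx, s, hs, rfl⟩
  have h1 : s ∈ SS φ u v := Subgroup.subset_closure ⟨(0, 0), by simp [Idx], s, hs, by
    simp [TT, pt_zero]⟩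
  exact SS_conj h hu hv hx h1

theorem Q_of (hB : ThmB φ) {m n : ℤ}
    (hmn : m * m + n * n = 1 ∨ m * m + n * n = 2 ∨ m * m + n * n = 4) :
    ∀ r ∈ UU φ v, ∀ s ∈ UU φ v, ∀ g ∈ MM φ u v, g * ⁅r, TT φ u m n s⁆ = ⁅r, TT φ u m n s⁆ * g := by
  intro r hr s hs g hg
  set k : G := pt φ u m n with hk
  have hkU : k ∈ UU φ u := pt_mem u m n
  have hkI : k ∈ Iset φ := UU_sub_I h hu hkU
  have hφk : φ k = pt φ u (-n) m := pt_phi h hu m n
  obtain ⟨c1, c2, c3, c4⟩ := hB k v hkI hv r hr s hs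
  have hTT : TT φ u m n s = k * s * k⁻¹ := rfl
  rw [hTT]
  set e : G := ⁅r, k * s * k⁻¹⁆ with he
  -- the centraliser of `e`
  have d1 : k ∈ Subgroup.centralizer {e} := by
    rw [Subgroup.mem_centralizer_singleton_iff]; exact c1.eq.symm
  have d2 : φ k ∈ Subgroup.centralizer {e} := by
    rw [Subgroup.mem_centralizer_singleton_iff]; exact c2.eq.symm
  have d3 : v ∈ Subgroup.centralizer {e} := by
    rw [Subgroup.mem_centralizer_singleton_iff]; exact c3.eq.symm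
  have d4 : φ v ∈ Subgroup.centralizer {e} := by
    rw [Subgroup.mem_centralizer_singleton_iff]; exact c4.eq.symm
  have zpk : ∀ (a b : ℤ), ∀ j : ℤ, (pt φ u a b) ^ j = pt φ u (a * j) (b * j) := by
    intro a b j
    have hc : Commute u (φ u) := UU_comm_self h hu
    unfold pt
    rw [(hc.zpow_zpow a b).mul_zpow, ← zpow_mul, ← zpow_mul]
  have e1 : u ^ (m * m + n * n) ∈ Subgroup.centralizer {e} := by
    have h1 : u ^ (m * m + n * n) = k ^ m * (φ k) ^ (-n) := by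
      rw [hφk, hk, zpk, zpk, pt_mul h hu]
      have : n * m + m * -n = 0 := by ring
      rw [this]
      simp only [pt, zpow_zero, mul_one]
      congr 1; ring
    rw [h1]
    exact mul_mem (zpow_mem d1 m) (zpow_mem d2 (-n))
  have e2 : (φ u) ^ (m * m + n * n) ∈ Subgroup.centralizer {e} := by
    have h1 : (φ u) ^ (m * m + n * n) = k ^ n * (φ k) ^ m := by
      rw [hφk, hk, zpk, zpk, pt_mul h hu]
      have : m * n + -n * m = 0 := by ring
      rw [this]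
      simp only [pt, zpow_zero, one_mul]
      congr 1; ring
    rw [h1]
    exact mul_mem (zpow_mem d1 n) (zpow_mem d2 m)
  have root : ∀ y : G, y ^ (m * m + n * n) ∈ Subgroup.centralizer {e} →
      y ∈ Subgroup.centralizer {e} := by
    intro y hy
    rcases hmn with h1 | h1 | h1
    · rw [h1, zpow_one] at hy; exact hy
    · rw [h1] at hy
      refine pow_mem_of_sq h ?_
      have : y * y = y ^ (2 : ℤ) := by rw [zpow_two]
      rw [this]; exact hy
    · rw [h1] at hy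
      refine pow_mem_of_sq h (pow_mem_of_sq h ?_)
      have : y * y * (y * y) = y ^ (4 : ℤ) := by
        rw [show (4 : ℤ) = 2 + 2 by norm_num, zpow_add, zpow_two]
      rw [this]; exact hy
  have f1 := root _ e1
  have f2 := root _ e2
  have hM : MM φ u v ≤ Subgroup.centralizer {e} := by
    unfold MM UU
    refine sup_le ?_ ?_
    · rw [Subgroup.closure_le]
      rintro x (rfl | rfl)
      · exact f1
      · exact f2
    · rw [Subgroup.closure_le]
      rintro x (rfl | rfl)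
      · exact d3
      · exact d4
  exact Subgroup.mem_centralizer_singleton_iff.mp (hM hg)

theorem comm_gen (hB : ThmB φ) {p q : ℤ × ℤ} (hp : p ∈ Idx) (hq : q ∈ Idx) {r s : G}
    (hr : r ∈ UU φ v) (hs : s ∈ UU φ v) {g : G} (hg : g ∈ MM φ u v) :
    g * ⁅TT φ u p.1 p.2 r, TT φ u q.1 q.2 s⁆ = ⁅TT φ u p.1 p.2 r, TT φ u q.1 q.2 s⁆ * g := by
  set x : G := pt φ u p.1 p.2 with hx
  have hxU : x ∈ UU φ u := pt_mem u _ _
  have h1 : ⁅TT φ u p.1 p.2 r, TT φ u q.1 q.2 s⁆ =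
      x * ⁅r, TT φ u (q.1 - p.1) (q.2 - p.2) s⁆ * x⁻¹ := by
    have h2 := TT_conj h hu p.1 p.2 (q.1 - p.1) (q.2 - p.2) s
    rw [add_sub_cancel, add_sub_cancel] at h2
    rw [← h2, ← hx]
    simp only [TT, commutatorElement_def]
    rw [← hx]; group
  have key : ∀ g ∈ MM φ u v, g * ⁅r, TT φ u (q.1 - p.1) (q.2 - p.2) s⁆ =
      ⁅r, TT φ u (q.1 - p.1) (q.2 - p.2) s⁆ * g := by
    by_cases hpq : p = q
    · subst hpq
      have h3 : ⁅r, TT φ u (p.1 - p.1) (p.2 - p.2) s⁆ = 1 := by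
        rw [sub_self, sub_self, TT, pt_zero, commutatorElement_eq_one_iff_mul_comm]
        simpa using UU_comm h hv hr hs
      rw [h3]; intro g _; simp
    · refine Q_of h hu hv hB ?_ r hr s hs
      rcases hp with rfl | rfl | rfl | rfl <;> rcases hq with rfl | rfl | rfl | rfl <;>
        first
        | exact absurd rfl hpq
        | (norm_num)
  set e : G := ⁅r, TT φ u (q.1 - p.1) (q.2 - p.2) s⁆ with he
  have hx2 := key x (U_le_MM hxU)
  have h3 : x * e * x⁻¹ = e := by rw [hx2]; group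
  rw [h1, h3]
  exact key g hg

theorem commCentral_aux (hB : ThmB φ) {a b : G} (ha : a ∈ SS φ u v) (hb : b ∈ SS φ u v) {g : G}
    (hg : g ∈ MM φ u v) : g * ⁅a, b⁆ = ⁅a, b⁆ * g := by
  have hSM : SS φ u v ≤ MM φ u v := by
    unfold SS
    rw [Subgroup.closure_le]
    rintro w ⟨p, hp, s, hs, rfl⟩
    exact mul_mem (mul_mem (U_le_MM (pt_mem u _ _)) (V_le_MM hs)) (inv_mem (U_le_MM (pt_mem u _ _)))
  -- first fix a generator on the left
  have h1 : ∀ a ∈ {g | ∃ p ∈ Idx, ∃ s ∈ UU φ v, g = TT φ u p.1 p.2 s},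
      ∀ b ∈ SS φ u v, ∀ g ∈ MM φ u v, g * ⁅a, b⁆ = ⁅a, b⁆ * g := by
    rintro a ⟨p, hp, r, hr, rfl⟩ b hb
    unfold SS at hb
    induction hb using Subgroup.closure_induction with
    | mem b hb =>
      obtain ⟨q, hq, s, hs, rfl⟩ := hb
      intro g hg
      exact comm_gen h hu hv hB hp hq hr hs hg
    | one => intro g _; simp
    | mul x y hx hy i1 i2 =>
      intro g hg
      set a := TT φ u p.1 p.2 r
      have hxM : x ∈ MM φ u v := hSM hx
      have e1 : ⁅a, x * y⁆ = ⁅a, x⁆ * ⁅a, y⁆ := by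
        have : ⁅a, x * y⁆ = ⁅a, x⁆ * (x * ⁅a, y⁆ * x⁻¹) := by
          simp only [commutatorElement_def]; group
        rw [this, i2 x hxM]; group
      rw [e1]
      calc g * (⁅a, x⁆ * ⁅a, y⁆) = (g * ⁅a, x⁆) * ⁅a, y⁆ := by group
        _ = ⁅a, x⁆ * (g * ⁅a, y⁆) := by rw [i1 g hg]; group
        _ = ⁅a, x⁆ * ⁅a, y⁆ * g := by rw [i2 g hg]; group
    | inv x hx i1 =>
      intro g hg
      set a := TT φ u p.1 p.2 r
      have hxM : x ∈ MM φ u v := hSM hx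
      have e1 : ⁅a, x⁻¹⁆ = ⁅a, x⁆⁻¹ := by
        have h5 := i1 x hxM
        have h6 : ⁅a, x⁻¹⁆ = x⁻¹ * ⁅a, x⁆⁻¹ * x := by
          simp only [commutatorElement_def]; group
        have h7 : x⁻¹ * ⁅a, x⁆⁻¹ = ⁅a, x⁆⁻¹ * x⁻¹ := by
          have := congrArg (fun t => t⁻¹) h5
          simp only [mul_inv_rev] at this
          exact this.symm
        rw [h6, h7]; group
      rw [e1]
      have h5 := i1 g hg
      calc g * ⁅a, x⁆⁻¹ = ⁅a, x⁆⁻¹ * (⁅a, x⁆ * g) * ⁅a, x⁆⁻¹ := by group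
        _ = ⁅a, x⁆⁻¹ * (g * ⁅a, x⁆) * ⁅a, x⁆⁻¹ := by rw [h5]
        _ = ⁅a, x⁆⁻¹ * g := by group
  have ha' := ha
  unfold SS at ha'
  revert g
  induction ha' using Subgroup.closure_induction with
  | mem a ha2 => intro g hg; exact h1 a ha2 b hb g hg
  | one => intro g _; simp
  | mul x y hx hy i1 i2 =>
    intro g hg
    have hxM : x ∈ MM φ u v := hSM hx
    have i1' := fun {g : G} (hg : g ∈ MM φ u v) => i1 hx hg
    have i2' := fun {g : G} (hg : g ∈ MM φ u v) => i2 hy hg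
    have e1 : ⁅x * y, b⁆ = ⁅y, b⁆ * ⁅x, b⁆ := by
      have : ⁅x * y, b⁆ = (x * ⁅y, b⁆ * x⁻¹) * ⁅x, b⁆ := by
        simp only [commutatorElement_def]; group
      rw [this, i2' hxM]; group
    rw [e1]
    calc g * (⁅y, b⁆ * ⁅x, b⁆) = (g * ⁅y, b⁆) * ⁅x, b⁆ := by group
      _ = ⁅y, b⁆ * (g * ⁅x, b⁆) := by rw [i2' hg]; group
      _ = ⁅y, b⁆ * ⁅x, b⁆ * g := by rw [i1' hg]; group
  | inv x hx i1 =>
    intro g hg
    have hxM : x ∈ MM φ u v := hSM hx
    have i1' := fun {g : G} (hg : g ∈ MM φ u v) => i1 hx hg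
    have e1 : ⁅x⁻¹, b⁆ = ⁅x, b⁆⁻¹ := by
      have h5 := i1' hxM
      have h6 : ⁅x⁻¹, b⁆ = x⁻¹ * ⁅x, b⁆⁻¹ * x := by
        simp only [commutatorElement_def]; group
      have h7 : x⁻¹ * ⁅x, b⁆⁻¹ = ⁅x, b⁆⁻¹ * x⁻¹ := by
        have := congrArg (fun t => t⁻¹) h5
        simp only [mul_inv_rev] at this
        exact this.symm
      rw [h6, h7]; group
    rw [e1]
    have h5 := i1' hg
    calc g * ⁅x, b⁆⁻¹ = ⁅x, b⁆⁻¹ * (⁅x, b⁆ * g) * ⁅x, b⁆⁻¹ := by group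
      _ = ⁅x, b⁆⁻¹ * (g * ⁅x, b⁆) * ⁅x, b⁆⁻¹ := by rw [h5]
      _ = ⁅x, b⁆⁻¹ * g := by group

end gen

end

/-- **Part N**: Theorem B gives that commutators of `⟨V ^ U⟩` are central. -/
theorem commCentral_of {G : Type*} [Group G] {φ : MulAut G} (h : Setup φ) (hB : ThmB φ) :
    CommCentral φ := by
  intro u v hu hv m hm n hn g hg
  exact commCentral_aux h hu hv hB (conjSpan_le_SS h hu hv hm) (conjSpan_le_SS h hu hv hn) hg

end Pool.Agent.Reg4
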