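import Mathlib

set_option autoImplicit false

namespace Pool.Agent.Reg4

/-- The interface for the analysis of a periodic group `G` with a regular automorphism `φ` of
order `4`: every element has odd order, `φ ^ 4 = 1`, and `φ` is splitting. -/
structure Setup {G : Type*} [Group G] (φ : MulAut G) : Prop where
  odd : ∀ g : G, ∃ n : ℕ, g ^ (2 * n + 1) = 1
  four : ∀ g : G, φ (φ (φ (φ g))) = g
  split : ∀ g : G, g * φ g * φ (φ g) * φ (φ (φ g)) = 1

/-- The condition `(**)`: for `a, b` inverted by `φ ^ 2`, the products `φ a * b` and `a * φ b`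
have the same component in `C_G(φ ^ 2)`. -/
def StarStar {G : Type*} [Group G] (φ : MulAut G) : Prop :=
  ∀ a b : G, φ (φ a) = a⁻¹ → φ (φ b) = b⁻¹ →
    ∃ z w c : G, φ (φ z) = z⁻¹ ∧ φ (φ w) = w⁻¹ ∧ φ (φ c) = c ∧
      φ a * b = z * c ∧ a * φ b = w * c

end Pool.Agent.Reg4
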